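import Mathlib
import Pool.Agent.T9h23.BH.A6

/-! The deterministic part: the stability of the constants. -/

set_option autoImplicit false

namespace Pool.Agent.T9h23.Un
open Finset Polynomial
open Pool.Agent.H373R2.T7
open Pool.Agent.T9h23.Cor
open Pool.Agent.T9h23.BH

/-- the lower bound for the constant -/
theorem CC_lower (c E : ℕ) (hc : 1 ≤ c) (e : ℝ) (he : 0 < e) : ∃ H0 : ℕ, ∀ H : ℕ, H0 ≤ H → ∀ y : ℕ, 1 ≤ y → (y : ℝ) ≤ Real.log H ^ E →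
    ∀ q : ℤ[X], q.natDegree ≤ c → Dn q y ≠ 0 → ∀ k : ℕ, Real.log H ^ (-e) ≤ Pool.Agent.T9h23.BH.CC q k y := by
  obtain ⟨κ, hκ0, hDl⟩ := Dn_lower c hc
  have hc0 : (0 : ℝ) < c := by exact_mod_cast hc
  obtain ⟨n0, h0⟩ := ev_L' 1
  obtain ⟨n6, h6⟩ := Vz_small E (e / (4 * c)) (by positivity)
  obtain ⟨n7, h7⟩ := ev_rpow (1 / κ) (e / 2) (by positivity)
  refine ⟨max n0 (max n6 n7), fun H hH y hy hyE q hq hD k => ?_⟩
  have hL1 := h0 H ((le_max_left _ _).trans hH)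
  have h10 := h6 H (((le_max_left _ _).trans (le_max_right _ _)).trans hH) y hy hyE
  have a7 := h7 H (((le_max_right _ _).trans (le_max_right _ _)).trans hH)
  obtain ⟨L, hLd⟩ : ∃ L, L = Real.log H := ⟨_, rfl⟩
  rw [← hLd] at hL1 h10 a7 ⊢
  have hL0 : 0 < L := by linarith
  have h8 := hDl q hq y hD
  have hVy1 : 1 ≤ (Vz y)⁻¹ := (one_le_inv₀ (Vz_pos _)).2 (Vz_le_one y)
  have h9 : Dn q y ≤ Pool.Agent.T9h23.BH.CC q k y := by
    unfold Pool.Agent.T9h23.BH.CC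
    exact le_mul_of_one_le_right (Dn_nonneg q y) (one_le_pow₀ hVy1)
  have h11 : (Vz y)⁻¹ ^ (2 * c) ≤ L ^ (e / 2) := by
    calc (Vz y)⁻¹ ^ (2 * c) ≤ (L ^ (e / (4 * c))) ^ (2 * c) := pow_le_pow_left₀ (by linarith) h10 _
      _ = L ^ (e / 2) := by
          rw [← Real.rpow_natCast, ← Real.rpow_mul hL0.le]
          congr 1
          push_cast
          field_simp
          norm_num
  have h12 : L ^ (-(e / 2)) ≤ Vz y ^ (2 * c) := by
    rw [Real.rpow_neg hL0.le, inv_le_comm₀ (by positivity) (pow_pos (Vz_pos y) _), ← inv_pow]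
    exact h11
  have h13 : L ^ (-(e / 2)) ≤ κ := by
    rw [Real.rpow_neg hL0.le, inv_le_comm₀ (by positivity) hκ0, ← one_div]
    exact a7
  calc L ^ (-e) = L ^ (-(e / 2)) * L ^ (-(e / 2)) := by rw [← Real.rpow_add hL0]; congr 1; ring
    _ ≤ κ * Vz y ^ (2 * c) := mul_le_mul h13 h12 (by positivity) hκ0.le
    _ ≤ Dn q y := h8
    _ ≤ _ := h9

theorem det_C (r : ℕ) (dd : Fin r → ℕ) (D A Ap : ℕ) (ε e s : ℝ) (hε : 0 < ε) (he : 0 < e) (hs : 0 < s) :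
    ∃ ε3 : ℝ, 0 < ε3 ∧ ∃ B H0 : ℕ, e + 2 ≤ B ∧ ∀ H : ℕ, H0 ≤ H → ∀ y : ℕ, Real.log H ^ e ≤ y → (y : ℝ) ≤ Real.log H ^ A →
    ∀ (P : Fin r → ℤ[X]) (G : Fin r → Finset ℤ[X]), GOK dd D G → Small H Ap D P G → ∀ f : (j : Fin r) → (Fin (dd j + 1) → ℤ),
    (∀ i : ℕ, (gp y ε3 i : ℝ) ≤ Real.log H ^ (A + 1) →
      |∑ n ∈ Icc 1 ⌊Real.log H ^ B⌋₊, (MM (lz (gp y ε3 i)) (fun j t => (P j).eval t) f (TT G n) - MM (lz y) (fun j t => (P j).eval t) f (TT G n))| ≤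
        (⌊Real.log H ^ B⌋₊ : ℝ) * Real.log H ^ (-s)) →
    ∀ z : ℕ, y ≤ z → (z : ℝ) ≤ Real.log H ^ A →
      |Pool.Agent.T9h23.BH.CC (qq G P f) (kk G) z - Pool.Agent.T9h23.BH.CC (qq G P f) (kk G) y| ≤ ε * Pool.Agent.T9h23.BH.CC (qq G P f) (kk G) y := by
  classical
  obtain ⟨km, hkm⟩ : ∃ km, km = ∑ j, dd j := ⟨_, rfl⟩
  obtain ⟨c, hc⟩ : ∃ c, c = cdeg dd D + 1 := ⟨_, rfl⟩
  obtain ⟨ε1, hε1d⟩ : ∃ ε1 : ℝ, ε1 = min (ε / 20) (1 / 20) := ⟨_, rfl⟩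
  have hε10 : 0 < ε1 := by rw [hε1d]; positivity
  have hε1a : ε1 ≤ 1 / 20 := by rw [hε1d]; exact min_le_right _ _
  have hε1b : 20 * ε1 ≤ ε := by
    have : ε1 ≤ ε / 20 := by rw [hε1d]; exact min_le_left _ _
    linarith
  obtain ⟨ε3, hε3d⟩ : ∃ ε3 : ℝ, ε3 = ε1 / (km + 1) := ⟨_, rfl⟩
  have hε30 : 0 < ε3 := by rw [hε3d]; positivity
  have hε3a : ε3 ≤ 1 / 20 := by
    rw [hε3d]
    refine (div_le_self hε10.le ?_).trans hε1a
    have : (0 : ℝ) ≤ km := Nat.cast_nonneg _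
    linarith
  obtain ⟨e3, he3d⟩ : ∃ e3 : ℝ, e3 = min (s / 2) 1 := ⟨_, rfl⟩
  have he30 : 0 < e3 := by rw [he3d]; positivity
  have he3a : e3 ≤ s / 2 := by rw [he3d]; exact min_le_left _ _
  have he3b : e3 ≤ 1 := by rw [he3d]; exact min_le_right _ _
  obtain ⟨K, y0, hK, hsv⟩ := sieve_poly c ε1 hε10
  obtain ⟨B, hB⟩ : ∃ B, B = K * (A + 1) + 2 * km + A + 6 + ⌈e⌉₊ := ⟨_, rfl⟩
  obtain ⟨n1, h1⟩ := Vz_inv_small (A + 1)
  obtain ⟨n2, h2⟩ := ev_L' (max (max 3 (2 / ε1)) (max (CG dd D) 4))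
  obtain ⟨n3, h3⟩ := ev_rpow (max (1 / ε3) y0) e he
  obtain ⟨n5, h5⟩ := ev_rpow (1 / ε1) (s / 2) (by positivity)
  obtain ⟨n6, h6⟩ := CC_lower c A (by omega) e3 he30
  have hBe : e + 2 ≤ B := by
    have h8 := Nat.le_ceil e
    have h9 : ((⌈e⌉₊ + 2 : ℕ) : ℝ) ≤ B := by exact_mod_cast (by omega : ⌈e⌉₊ + 2 ≤ B)
    push_cast at h9
    linarith
  refine ⟨ε3, hε30, B, max (max n1 (max n2 n3)) (max n5 n6), hBe, fun H hH y hy1 hy2 P G hG hS f hgood z hz1 hz2 => ?_⟩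
  have hn1 : n1 ≤ H := ((le_max_left _ _).trans (le_max_left _ _)).trans hH
  have hn2 : n2 ≤ H := (((le_max_left _ _).trans (le_max_right _ _)).trans (le_max_left _ _)).trans hH
  have hn3 : n3 ≤ H := (((le_max_right _ _).trans (le_max_right _ _)).trans (le_max_left _ _)).trans hH
  have hn5 : n5 ≤ H := ((le_max_left _ _).trans (le_max_right _ _)).trans hH
  have hn6 : n6 ≤ H := ((le_max_right _ _).trans (le_max_right _ _)).trans hH
  have hLm := h2 H hn2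
  obtain ⟨L, hLd⟩ : ∃ L, L = Real.log H := ⟨_, rfl⟩
  have a3 := h3 H hn3
  have a5 := h5 H hn5
  have a6 := h6 H hn6 y
  rw [← hLd] at hLm a3 a5 a6 hy1 hy2 hgood hz2
  have hL3 : 3 ≤ L := ((le_max_left _ _).trans (le_max_left _ _)).trans hLm
  have hLε : 2 / ε1 ≤ L := ((le_max_right _ _).trans (le_max_left _ _)).trans hLm
  have hLCG : (CG dd D : ℝ) ≤ L := ((le_max_left _ _).trans (le_max_right _ _)).trans hLm
  have hL0 : 0 < L := by linarith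
  have hL1 : 1 ≤ L := by linarith
  have hy3 : 1 / ε3 ≤ y := ((le_max_left _ _).trans a3).trans hy1
  have hyy0 : y0 ≤ y := by
    have : (y0 : ℝ) ≤ y := ((le_max_right _ _).trans a3).trans hy1
    exact_mod_cast this
  have hyr : (1 : ℝ) ≤ y := (Real.one_le_rpow hL1 he.le).trans hy1
  have hyn : 1 ≤ y := by exact_mod_cast hyr
  have hy0' : (0 : ℝ) < y := by linarith
  have hkk : kk G ≤ km := by rw [hkm]; exact sum_le_sum fun j _ => hG.card j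
  -- `x1`
  obtain ⟨x1, hx1⟩ : ∃ x1 : ℕ, x1 = ⌊L ^ B⌋₊ := ⟨_, rfl⟩
  rw [← hx1] at hgood
  have hx1a : (x1 : ℝ) ≤ L ^ B := by rw [hx1]; exact Nat.floor_le (by positivity)
  have hx1b : L ^ (B - 1) ≤ x1 := by
    have h8 : L ^ B < x1 + 1 := by rw [hx1]; exact Nat.lt_floor_add_one _
    have h9 : L ^ B = L ^ (B - 1) * L := by rw [← pow_succ]; congr 1; omega
    have h10 : 1 ≤ L ^ (B - 1) := one_le_pow₀ hL1
    nlinarith
  have hx1p : (0 : ℝ) < x1 := lt_of_lt_of_le (by positivity) hx1b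
  have hdeg : (qq G P f).natDegree ≤ c := by
    rw [hc]; exact (qq_deg hG P hS.degP f).trans (Nat.le_succ _)
  have hgpy : ∀ i, y ≤ gp y ε3 i := by
    intro i
    have h8 : (y : ℝ) ≤ gp y ε3 i := by
      refine le_trans ?_ (Nat.le_ceil _)
      have : 1 ≤ (1 + ε3) ^ i := one_le_pow₀ (by linarith)
      nlinarith
    exact_mod_cast h8
  obtain ⟨q, hq⟩ : ∃ q, q = qq G P f := ⟨_, rfl⟩
  rw [← hq]
  have hCy0 := CC_nonneg q (kk G) y
  -- the case of a fixed divisor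
  by_cases hDy : Dn q y = 0
  · have h8 : Dn q z = 0 := le_antisymm ((Dn_anti q hz1).trans hDy.le) (Dn_nonneg q z)
    unfold Pool.Agent.T9h23.BH.CC
    rw [h8, hDy]
    simp
  have hCyL : L ^ (-e3) ≤ Pool.Agent.T9h23.BH.CC q (kk G) y := a6 hyn hy2 q (by rw [hq]; exact hdeg) hDy (kk G)
  have hss : x1 * L ^ (-s) ≤ ε1 * (x1 * L ^ (-e3)) := by
    have h8 : L ^ (-s) ≤ ε1 * L ^ (-e3) := by
      rw [div_le_iff₀ hε10] at a5
      calc L ^ (-s) = 1 * L ^ (-s) := (one_mul _).symm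
        _ ≤ (L ^ (s / 2) * ε1) * L ^ (-s) := by gcongr
        _ = ε1 * (L ^ (s / 2) * L ^ (-s)) := by ring
        _ = ε1 * L ^ (-(s / 2)) := by rw [← Real.rpow_add hL0]; congr 2; ring
        _ ≤ ε1 * L ^ (-e3) := by
            apply mul_le_mul_of_nonneg_left _ hε10.le
            exact Real.rpow_le_rpow_of_exponent_le hL1 (by linarith)
    calc x1 * L ^ (-s) ≤ x1 * (ε1 * L ^ (-e3)) := by gcongr
      _ = _ := by ring
  -- the error of the sieve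
  have hU : ∀ v : ℕ, 1 ≤ v → (v : ℝ) ≤ L ^ (A + 1) → (Vz v)⁻¹ ^ kk G * (√(x1 : ℝ) + CG dd D) ≤ ε1 * (x1 * L ^ (-e3)) := by
    intro v hv1 hv2
    have h8 := h1 H hn1 v hv1 (by rw [← hLd]; exact hv2)
    rw [← hLd] at h8
    have hVv1 : 1 ≤ (Vz v)⁻¹ := (one_le_inv₀ (Vz_pos _)).2 (Vz_le_one v)
    have h9 : (Vz v)⁻¹ ^ kk G ≤ L ^ km := (pow_le_pow_left₀ (by linarith) h8 _).trans (pow_le_pow_right₀ hL1 hkk)
    have h10 : L ^ (km + 2) ≤ √(x1 : ℝ) := by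
      apply Real.le_sqrt_of_sq_le
      calc (L ^ (km + 2)) ^ 2 = L ^ (2 * km + 4) := by rw [← pow_mul]; congr 1; ring
        _ ≤ L ^ (B - 1) := pow_le_pow_right₀ hL1 (by omega)
        _ ≤ x1 := hx1b
    have h11 : (CG dd D : ℝ) ≤ √(x1 : ℝ) := by
      refine (hLCG.trans ?_).trans h10
      exact le_self_pow₀ hL1 (by omega)
    have h12 : √(x1 : ℝ) * √(x1 : ℝ) = x1 := Real.mul_self_sqrt hx1p.le
    have h13 : L ^ (-(1 : ℝ)) ≤ L ^ (-e3) := Real.rpow_le_rpow_of_exponent_le hL1 (by linarith)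
    have h14 : L ^ (-(1 : ℝ)) = L⁻¹ := by rw [Real.rpow_neg hL0.le, Real.rpow_one]
    have h15 : 2 ≤ ε1 * L := by
      rw [div_le_iff₀ hε10] at hLε
      linarith
    have hs0 : 0 ≤ √(x1 : ℝ) := Real.sqrt_nonneg _
    calc (Vz v)⁻¹ ^ kk G * (√(x1 : ℝ) + CG dd D) ≤ L ^ km * (√(x1 : ℝ) + √(x1 : ℝ)) := by gcongr
      _ = 2 * (L ^ km * √(x1 : ℝ)) := by ring
      _ ≤ (ε1 * L) * (L ^ km * √(x1 : ℝ)) := by gcongr
      _ = ε1 * (L ^ (km + 2) * √(x1 : ℝ)) * L⁻¹ := by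
          rw [pow_add]
          field_simp
      _ ≤ ε1 * (√(x1 : ℝ) * √(x1 : ℝ)) * L⁻¹ := by gcongr
      _ = ε1 * (x1 * L ^ (-(1 : ℝ))) := by rw [h12, h14]; ring
      _ ≤ ε1 * (x1 * L ^ (-e3)) := by gcongr
  have hsvx : ∀ u : ℕ, y ≤ u → (u : ℝ) ≤ L ^ (A + 1) →
      |∑ n ∈ Icc 1 x1, MM (lz u) (fun j t => (P j).eval t) f (TT G n) - x1 * Pool.Agent.T9h23.BH.CC (qq G P f) (kk G) u| ≤
      ε1 * (x1 * Pool.Agent.T9h23.BH.CC (qq G P f) (kk G) u) + ε1 * (x1 * L ^ (-e3)) := by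
    intro u hu1 hu2
    have h8 : u ^ K ≤ x1 := by
      have h9 : ((u ^ K : ℕ) : ℝ) ≤ x1 := by
        push_cast
        calc (u : ℝ) ^ K ≤ (L ^ (A + 1)) ^ K := pow_le_pow_left₀ (Nat.cast_nonneg u) hu2 K
          _ = L ^ (K * (A + 1)) := by rw [← pow_mul]; congr 1; ring
          _ ≤ L ^ (B - 1) := pow_le_pow_right₀ hL1 (by omega)
          _ ≤ x1 := hx1b
      exact_mod_cast h9
    have h9 := hsv x1 u (hyy0.trans hu1) h8 (qq G P f) hdeg x1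
    exact (model_sieve hG P f u x1 x1 ε1 h9).trans (add_le_add le_rfl (hU u (hyn.trans hu1) hu2))
  have hpt : ∀ i : ℕ, (gp y ε3 i : ℝ) ≤ L ^ (A + 1) →
      |Pool.Agent.T9h23.BH.CC q (kk G) (gp y ε3 i) - Pool.Agent.T9h23.BH.CC q (kk G) y| ≤ 10 * ε1 * Pool.Agent.T9h23.BH.CC q (kk G) y := by
    intro i hv2
    have hSv := (hgood i hv2).trans hss
    have hy2' : (y : ℝ) ≤ L ^ (A + 1) := hy2.trans (pow_le_pow_right₀ hL1 (by omega))
    simp only [sum_sub_distrib] at hSv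
    have h9 := hsvx _ (hgpy i) hv2
    have h10 := hsvx y le_rfl hy2'
    rw [← hq] at h9 h10
    exact num1 _ _ _ _ _ ε1 x1 (L ^ (-e3)) hε10 hε1a hx1p (CC_nonneg _ _ _) hCy0 hCyL hSv h9 h10 le_rfl
  obtain ⟨i, hi1, hi2, hi3, hi4, _⟩ := gp_grid y ε3 hyr hε30 (by
    rw [div_le_iff₀ hε30] at hy3
    exact hy3) z (by exact_mod_cast hz1)
  have hb1 : (gp y ε3 i : ℝ) ≤ L ^ (A + 1) := by
    have : (gp y ε3 i : ℝ) ≤ z := by exact_mod_cast hi1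
    exact (this.trans hz2).trans (pow_le_pow_right₀ hL1 (by omega))
  have hb2 : (gp y ε3 (i + 1) : ℝ) ≤ L ^ (A + 1) := by
    have h8 : (gp y ε3 i : ℝ) ≤ z := by exact_mod_cast hi1
    calc (gp y ε3 (i + 1) : ℝ) ≤ (1 + 2 * ε3) * gp y ε3 i := hi3
      _ ≤ L * L ^ A := by
          apply mul_le_mul (by linarith) (h8.trans hz2) (Nat.cast_nonneg _) hL0.le
      _ = L ^ (A + 1) := by rw [pow_succ]; ring
  have hp1 := hpt i hb1
  have hp2 := hpt (i + 1) hb2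
  obtain ⟨hc1, hc2⟩ := CC_between q (kk G) (hyn.trans (hgpy i)) hi1 hi2 (1 + 2 * ε3) hi3
  have hR1 : 1 ≤ (1 + 2 * ε3) ^ kk G := one_le_pow₀ (by linarith)
  have hR2 : (1 + 2 * ε3) ^ kk G ≤ 1 + 4 * ε1 := by
    have h8 : (1 + 2 * ε3) ^ kk G ≤ Real.exp (2 * ε1) := by
      calc (1 + 2 * ε3) ^ kk G ≤ (Real.exp (2 * ε3)) ^ kk G := by
            apply pow_le_pow_left₀ (by linarith)
            have := Real.add_one_le_exp (2 * ε3)
            linarith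
        _ = Real.exp (kk G * (2 * ε3)) := by rw [Real.exp_nat_mul]
        _ ≤ Real.exp (2 * ε1) := by
            apply Real.exp_le_exp.2
            have h9 : (kk G : ℝ) ≤ km + 1 := by
              have : (kk G : ℝ) ≤ km := by exact_mod_cast hkk
              linarith
            have h10 : (kk G : ℝ) * ε3 ≤ ε1 := by
              rw [hε3d, mul_div_assoc']
              rw [div_le_iff₀ (by positivity)]
              nlinarith
            linarith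
    have h9 : Real.exp (2 * ε1) ≤ 1 + 4 * ε1 := by
      have h10 := Real.abs_exp_sub_one_le (x := 2 * ε1) (by rw [abs_of_pos (by positivity)]; linarith)
      rw [abs_of_pos (by positivity : (0 : ℝ) < 2 * ε1)] at h10
      linarith [le_abs_self (Real.exp (2 * ε1) - 1)]
    exact h8.trans h9
  have hfin := num2 _ _ _ _ _ ε1 hε10 hε1a hCy0 hR1 hR2 (CC_nonneg q (kk G) z) (CC_nonneg q (kk G) _) hp1 hp2 hc1 hc2
  exact hfin.trans (mul_le_mul_of_nonneg_right hε1b hCy0)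

end Pool.Agent.T9h23.Un
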