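import Mathlib
import Pool.Agent.T9h23.Un.D1

/-! The deterministic part: from the sums over the grid to the formula. -/

set_option autoImplicit false

namespace Pool.Agent.T9h23.Un
open Finset Polynomial
open Pool.Agent.H373R2.T7
open Pool.Agent.T9h23.Cor
open Pool.Agent.T9h23.BH

/-- the conclusion for one system -/
def ConclU {r : ℕ} {dd : Fin r → ℕ} (H A : ℕ) (ε ρ : ℝ) (G : Fin r → Finset ℤ[X]) (P : Fin r → ℤ[X])
    (f : (j : Fin r) → (Fin (dd j + 1) → ℤ)) : Prop :=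
  ∀ x : ℕ, Real.log H ^ ((kk G : ℝ) + ε) ≤ x → (x : ℝ) ≤ Real.log H ^ A → ∀ z : ℕ, Real.log H ^ ε ≤ z → (z : ℝ) ≤ Real.log H ^ A →
    |(pc G P f x : ℝ) - Pool.Agent.T9h23.BH.CC (qq G P f) (kk G) z * (x / Real.log H ^ kk G)| ≤
      ρ * (Pool.Agent.T9h23.BH.CC (qq G P f) (kk G) z * (x / Real.log H ^ kk G)) ∧
    |∏ j, ∏ g ∈ G j, Real.log |((((hpol (P j) (f j)).comp g).eval (x : ℤ) : ℤ) : ℝ)| - Real.log H ^ kk G| ≤ ρ * Real.log H ^ kk G

theorem det (r : ℕ) (dd : Fin r → ℕ) (D : ℕ) (ε ρ : ℝ) (hε : 0 < ε) (hρ : 0 < ρ) :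
    ∃ δ : ℝ, 0 < δ ∧ δ < ε ∧ ∀ (A Ap A' C : ℕ) (s : ℝ), 0 < s →
    ∃ ε1 : ℝ, 0 < ε1 ∧ ∃ ε3 : ℝ, 0 < ε3 ∧ ∃ B H0 : ℕ, δ + 2 ≤ B ∧ ∀ H : ℕ, H0 ≤ H → ∀ y : ℕ,
    Real.log H ^ δ ≤ y → (y : ℝ) ≤ 2 * Real.log H ^ δ →
    ∀ (T0 : ℕ) (P : Fin r → ℤ[X]) (G : Fin r → Finset ℤ[X]), GOK dd D G → Small H Ap D P G → (T0 : ℝ) ≤ Real.log H ^ A' →
    (∀ j, ∀ t : ℤ, |t| ≤ T0 → |(((P j).eval t : ℤ) : ℝ)| ≤ H * Real.log H ^ A') →
    (∀ n : ℕ, (n : ℝ) ≤ Real.log H ^ (A + 1) → ∀ j, ∀ t ∈ TT G n j, |t| ≤ (T0 : ℤ)) →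
    ∀ f ∈ Om dd H, Tame H A' C P f →
    (∀ i : ℕ, (gp y ε3 i : ℝ) ≤ Real.log H ^ (A + 1) →
      |∑ n ∈ Icc 1 ⌊Real.log H ^ B⌋₊, (MM (lz (gp y ε3 i)) (fun j t => (P j).eval t) f (TT G n) - MM (lz y) (fun j t => (P j).eval t) f (TT G n))| ≤
        (⌊Real.log H ^ B⌋₊ : ℝ) * Real.log H ^ (-s)) →
    (∀ i : ℕ, (gp (Real.log H ^ ((kk G : ℝ) + ε)) ε1 i : ℝ) ≤ Real.log H ^ (A + 1) →
      |∑ n ∈ Icc 1 (gp (Real.log H ^ ((kk G : ℝ) + ε)) ε1 i), (MM Lam (fun j t => (P j).eval t) f (TT G n) - MM (lz y) (fun j t => (P j).eval t) f (TT G n))| ≤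
        (gp (Real.log H ^ ((kk G : ℝ) + ε)) ε1 i : ℝ) * Real.log H ^ (-s)) →
    ConclU H A ε ρ G P f := by
  classical
  obtain ⟨km, hkm⟩ : ∃ km, km = ∑ j, dd j := ⟨_, rfl⟩
  obtain ⟨cd, hcd⟩ : ∃ cd, cd = cdeg dd D + 1 := ⟨_, rfl⟩
  obtain ⟨ε1, hε1d⟩ : ∃ ε1 : ℝ, ε1 = min (ρ / 25) (1 / 40) := ⟨_, rfl⟩
  have hε10 : 0 < ε1 := by rw [hε1d]; positivity
  have hε1a : ε1 ≤ 1 / 40 := by rw [hε1d]; exact min_le_right _ _
  have hε1b : 25 * ε1 ≤ ρ := by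
    have : ε1 ≤ ρ / 25 := by rw [hε1d]; exact min_le_left _ _
    linarith
  obtain ⟨K, y0, hK, hsv⟩ := sieve_poly cd ε1 hε10
  have hKr : (1 : ℝ) ≤ K := by exact_mod_cast hK
  -- exponents
  obtain ⟨δ, hδd⟩ : ∃ δ : ℝ, δ = ε / (2 * K) := ⟨_, rfl⟩
  have hδ0 : 0 < δ := by rw [hδd]; positivity
  have hδK : δ * K = ε / 2 := by rw [hδd]; field_simp
  have hδε : δ ≤ ε / 2 := by
    have : δ * 1 ≤ δ * K := mul_le_mul_of_nonneg_left hKr hδ0.le
    linarith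
  refine ⟨δ, hδ0, by linarith, fun A Ap A' C s hs => ?_⟩
  obtain ⟨e', he'd⟩ : ∃ e' : ℝ, e' = min (ε / 16) (s / 2) := ⟨_, rfl⟩
  have he'0 : 0 < e' := by rw [he'd]; positivity
  have he'ε : e' ≤ ε / 16 := by rw [he'd]; exact min_le_left _ _
  have he's : e' ≤ s / 2 := by rw [he'd]; exact min_le_right _ _
  obtain ⟨ε3, hε30, B, n3, hBδ, hdC⟩ := det_C r dd D A Ap ε1 δ s hε10 hδ0 hs
  obtain ⟨n2, hps⟩ := prime_sum r dd D A' A' C ε1 hε10 (by linarith)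
  obtain ⟨n4, hCl⟩ := CC_lower cd A (by omega) e' he'0
  obtain ⟨n6, hL6⟩ := ev_L' 3
  obtain ⟨n7, hL7⟩ := ev_rpow (max (max 2 y0) (max (1 / ε1) (2 ^ K))) (δ / 2) (by positivity)
  obtain ⟨n5, hL5⟩ := ev_rpow (1 / ε1) (s / 2) (by positivity)
  obtain ⟨n8, hV8⟩ := Vz_small A (e' / (2 * (km + 1))) (by positivity)
  obtain ⟨n9, hL9⟩ := ev_rpow (max (1 / ε1 ^ 2) (2 ^ km * (CG dd D + 1) / ε1)) (ε / 4) (by positivity)
  obtain ⟨n10, hL10⟩ := ev_log' (A + C) 1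
  obtain ⟨n11, hlp⟩ := log_prod r dd D A' A' C ε1 hε10 (by linarith)
  refine ⟨ε1, hε10, ε3, hε30, B, max (max (max n2 n3) (max n4 n5)) (max (max (max n6 n7) (max n8 n9)) (max n10 (max n11 4))),
    hBδ, fun H hH y hyL hy2 T0 P G hG hS hT0 hPv hpt f hf htm' hgC hgP => ?_⟩
  have hn2 : n2 ≤ H := (((le_max_left _ _).trans (le_max_left _ _)).trans (le_max_left _ _)).trans hH
  have hn3 : n3 ≤ H := (((le_max_right _ _).trans (le_max_left _ _)).trans (le_max_left _ _)).trans hH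
  have hn4 : n4 ≤ H := (((le_max_left _ _).trans (le_max_right _ _)).trans (le_max_left _ _)).trans hH
  have hn5 : n5 ≤ H := (((le_max_right _ _).trans (le_max_right _ _)).trans (le_max_left _ _)).trans hH
  have hn6 : n6 ≤ H := ((((le_max_left _ _).trans (le_max_left _ _)).trans (le_max_left _ _)).trans (le_max_right _ _)).trans hH
  have hn7 : n7 ≤ H := ((((le_max_right _ _).trans (le_max_left _ _)).trans (le_max_left _ _)).trans (le_max_right _ _)).trans hH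
  have hn8 : n8 ≤ H := ((((le_max_left _ _).trans (le_max_right _ _)).trans (le_max_left _ _)).trans (le_max_right _ _)).trans hH
  have hn9 : n9 ≤ H := ((((le_max_right _ _).trans (le_max_right _ _)).trans (le_max_left _ _)).trans (le_max_right _ _)).trans hH
  have hn10 : n10 ≤ H := (((le_max_left _ _).trans (le_max_right _ _)).trans (le_max_right _ _)).trans hH
  have hn11 : n11 ≤ H := ((((le_max_left _ _).trans (le_max_right _ _)).trans (le_max_right _ _)).trans (le_max_right _ _)).trans hH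
  have hH4 : 4 ≤ H := ((((le_max_right _ _).trans (le_max_right _ _)).trans (le_max_right _ _)).trans (le_max_right _ _)).trans hH
  have hHr : (4 : ℝ) ≤ H := by exact_mod_cast hH4
  have hH0 : (0 : ℝ) < H := by linarith
  have hL3 := hL6 H hn6
  have a5 := hL5 H hn5
  have a7 := hL7 H hn7
  have a9 := hL9 H hn9
  have a10 := hL10 H hn10
  have hdC' := hdC H hn3 y hyL
  have hCl' := hCl H hn4 y
  obtain ⟨L, hLd⟩ : ∃ L, L = Real.log H := ⟨_, rfl⟩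
  rw [← hLd] at hL3 a5 a7 a9 a10 hT0 hpt hPv hyL hy2 hgC hgP hdC' hCl'
  have hL0 : 0 < L := by linarith
  have hL1 : 1 ≤ L := by linarith
  have hkk : kk G ≤ km := by rw [hkm]; exact sum_le_sum fun j _ => hG.card j
  have hkkr : (kk G : ℝ) ≤ km := by exact_mod_cast hkk
  have hkk0 : (0 : ℝ) ≤ kk G := Nat.cast_nonneg _
  have h7a : 2 ≤ L ^ (δ / 2) := ((le_max_left _ _).trans (le_max_left _ _)).trans a7
  have h7b : (y0 : ℝ) ≤ L ^ (δ / 2) := ((le_max_right _ _).trans (le_max_left _ _)).trans a7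
  have h7c : 1 / ε1 ≤ L ^ (δ / 2) := ((le_max_left _ _).trans (le_max_right _ _)).trans a7
  have h7d : (2 : ℝ) ^ K ≤ L ^ (δ / 2) := ((le_max_right _ _).trans (le_max_right _ _)).trans a7
  have hδ2 : L ^ (δ / 2) ≤ L ^ δ := Real.rpow_le_rpow_of_exponent_le hL1 (by linarith)
  have hyy0 : y0 ≤ y := by
    have h1 : (y0 : ℝ) ≤ y := (h7b.trans hδ2).trans hyL
    exact_mod_cast h1
  have hy1r : (1 : ℝ) ≤ y := (Real.one_le_rpow hL1 hδ0.le).trans hyL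
  have hy1 : 1 ≤ y := by exact_mod_cast hy1r
  have hyε : (y : ℝ) ≤ L ^ ε := by
    calc (y : ℝ) ≤ 2 * L ^ δ := hy2
      _ ≤ L ^ (δ / 2) * L ^ δ := by gcongr
      _ = L ^ (δ / 2 + δ) := (Real.rpow_add hL0 _ _).symm
      _ ≤ L ^ ε := Real.rpow_le_rpow_of_exponent_le hL1 (by linarith)
  have hyK : ((y : ℝ)) ^ K ≤ L ^ ε := by
    calc (y : ℝ) ^ K ≤ (2 * L ^ δ) ^ K := pow_le_pow_left₀ (by linarith) hy2 K
      _ = 2 ^ K * L ^ (δ * K) := by rw [mul_pow, Real.rpow_mul hL0.le, Real.rpow_natCast]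
      _ ≤ L ^ (δ / 2) * L ^ (ε / 2) := by rw [hδK]; gcongr
      _ = L ^ (δ / 2 + ε / 2) := (Real.rpow_add hL0 _ _).symm
      _ ≤ L ^ ε := Real.rpow_le_rpow_of_exponent_le hL1 (by linarith)
  obtain ⟨x0, hx0d⟩ : ∃ x0, x0 = L ^ ((kk G : ℝ) + ε) := ⟨_, rfl⟩
  rw [← hx0d] at hgP
  have hx0ε : L ^ ε ≤ x0 := by rw [hx0d]; exact Real.rpow_le_rpow_of_exponent_le hL1 (by linarith)
  have hx01 : 1 ≤ x0 := (Real.one_le_rpow hL1 hε.le).trans hx0ε
  have hx0p : 0 < x0 := by linarith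
  intro x hx1 hx2 z hz1 hz2
  rw [← hLd, ← hx0d] at hx1
  rw [← hLd] at hx2 hz1 hz2 ⊢
  have hyA : (y : ℝ) ≤ L ^ A := (hyε.trans hz1).trans hz2
  have hcz := hdC' hyA P G hG hS f hgC
  have hCl'' := hCl' hy1 hyA
  obtain ⟨q, hq⟩ : ∃ q, q = qq G P f := ⟨_, rfl⟩
  rw [← hq] at hcz ⊢
  have hxr : (0 : ℝ) < x := by linarith
  have hLk0 : 0 < L ^ kk G := by positivity
  have hyz : y ≤ z := by
    have h2 : (y : ℝ) ≤ z := hyε.trans hz1
    exact_mod_cast h2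
  have hczz := hcz z hyz hz2
  have hCy0 := CC_nonneg q (kk G) y
  have hxle : ∀ m : ℕ, (m : ℝ) ≤ L ^ (A + 1) → ∀ n ≤ m, ∀ j, ∀ t ∈ TT G n j, |t| ≤ (T0 : ℤ) := by
    intro m hm n hn j t ht
    exact hpt n (le_trans (by exact_mod_cast hn) hm) j t ht
  refine ⟨?_, ?_⟩
  swap
  · have hl1 := hlp H hn11 T0 P G hG (by rw [← hLd]; exact hT0) (by rw [← hLd]; exact hPv) f hf htm' x
      (fun j t ht => hxle x (hx2.trans (pow_le_pow_right₀ hL1 (by omega))) x le_rfl j t ht)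
    rw [← hLd] at hl1
    exact hl1.trans (mul_le_mul_of_nonneg_right (by linarith) hLk0.le)
  -- the case of a fixed divisor
  by_cases hDy : Dn q y = 0
  · have hCz : Pool.Agent.T9h23.BH.CC q (kk G) z = 0 := by
      unfold Pool.Agent.T9h23.BH.CC
      rw [le_antisymm ((Dn_anti q hyz).trans hDy.le) (Dn_nonneg q z), zero_mul]
    have hpc : pc G P f x = 0 := by
      apply pc_zero G P f hG htm' T0 x y (by rw [← hLd]; exact hT0) (hxle x (hx2.trans (pow_le_pow_right₀ hL1 (by omega))))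
      · rw [← hLd]
        have h1 : L ^ A * L ^ C < H := by
          rw [← pow_add]
          have h2 : √(H : ℝ) < H := aux6 hHr
          linarith
        have h2 : 0 < L ^ C := by positivity
        rw [lt_div_iff₀ h2]
        calc (y : ℝ) * L ^ C ≤ L ^ A * L ^ C := by gcongr
          _ < H := h1
      · rw [← hq]; exact hDy
    rw [hpc, hCz]
    simp
  -- the lower bound of the constant
  have hVyb := hV8 H hn8 y hy1 (by rw [← hLd]; exact hyA)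
  rw [← hLd] at hVyb
  have hVy1 : 1 ≤ (Vz y)⁻¹ := (one_le_inv₀ (Vz_pos _)).2 (Vz_le_one y)
  have hVpow : (Vz y)⁻¹ ^ kk G ≤ L ^ (e' / 2) := by
    calc (Vz y)⁻¹ ^ kk G ≤ (Vz y)⁻¹ ^ (km + 1) := pow_le_pow_right₀ hVy1 (by omega)
      _ ≤ (L ^ (e' / (2 * (km + 1)))) ^ (km + 1) := pow_le_pow_left₀ (by linarith) hVyb _
      _ = L ^ (e' / 2) := by
          rw [← Real.rpow_natCast, ← Real.rpow_mul hL0.le]
          congr 1
          push_cast
          field_simp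
  have hCyL : L ^ (-e') ≤ Pool.Agent.T9h23.BH.CC q (kk G) y :=
    hCl'' q (by rw [hq, hcd]; exact (qq_deg hG P hS.degP f).trans (Nat.le_succ _)) hDy (kk G)
  have hss : L ^ (-s) ≤ ε1 * L ^ (-e') := by
    rw [div_le_iff₀ hε10] at a5
    calc L ^ (-s) = 1 * L ^ (-s) := (one_mul _).symm
      _ ≤ (L ^ (s / 2) * ε1) * L ^ (-s) := by gcongr
      _ = ε1 * (L ^ (s / 2) * L ^ (-s)) := by ring
      _ = ε1 * L ^ (-(s / 2)) := by rw [← Real.rpow_add hL0]; congr 2; ring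
      _ ≤ ε1 * L ^ (-e') := by
          apply mul_le_mul_of_nonneg_left _ hε10.le
          exact Real.rpow_le_rpow_of_exponent_le hL1 (by linarith)
  have hgpx : ∀ i, x0 ≤ gp x0 ε1 i := by
    intro i
    refine le_trans ?_ (Nat.le_ceil _)
    exact aux4 hx0p (one_le_pow₀ (by linarith))
  -- one point of the grid
  have hpoint : ∀ i : ℕ, (gp x0 ε1 i : ℝ) ≤ L ^ (A + 1) →
      |L ^ kk G * (pc G P f (gp x0 ε1 i) : ℝ) - gp x0 ε1 i * Pool.Agent.T9h23.BH.CC q (kk G) y| ≤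
        10 * ε1 * (gp x0 ε1 i * Pool.Agent.T9h23.BH.CC q (kk G) y) := by
    intro i hX2
    have hSX := hgP i hX2
    have hX1 := hgpx i
    obtain ⟨X, hXd⟩ : ∃ X, X = gp x0 ε1 i := ⟨_, rfl⟩
    rw [← hXd] at hX2 hSX hX1 ⊢
    have hX0 : (0 : ℝ) < X := by linarith
    have h1 := hps H hn2 T0 P G hG (by rw [← hLd]; exact hT0) (by rw [← hLd]; exact hPv) f hf htm' X (hxle X hX2)
    rw [← hLd] at h1
    have hyKX : y ^ K ≤ X := by
      have : ((y ^ K : ℕ) : ℝ) ≤ X := by push_cast; exact (hyK.trans hx0ε).trans hX1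
      exact_mod_cast this
    have h2 := hsv X y hyy0 hyKX (qq G P f) (by rw [hcd]; exact (qq_deg hG P hS.degP f).trans (Nat.le_succ _)) X
    have h3 := model_sieve hG P f y X X ε1 h2
    rw [← hq] at h3
    simp only [sum_sub_distrib] at hSX
    have hSX' : |∑ n ∈ Icc 1 X, MM Lam (fun j t => (P j).eval t) f (TT G n) -
        ∑ n ∈ Icc 1 X, MM (lz y) (fun j t => (P j).eval t) f (TT G n)| ≤ ε1 * (X * L ^ (-e')) := by
      refine hSX.trans ?_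
      calc (X : ℝ) * L ^ (-s) ≤ X * (ε1 * L ^ (-e')) := by gcongr
        _ = _ := by ring
    have hε9b : 2 ^ km * ((CG dd D : ℝ) + 1) / ε1 ≤ L ^ (ε / 4) := (le_max_right _ _).trans a9
    rw [div_le_iff₀ hε10] at hε9b
    have hCG0 : (0 : ℝ) ≤ CG dd D := Nat.cast_nonneg _
    have h2km : (1 : ℝ) ≤ 2 ^ km := one_le_pow₀ (by norm_num)
    -- the coincidences
    have hU : (CG dd D : ℝ) * (2 * L) ^ kk G ≤ ε1 * (X * L ^ (-e')) := by
      have h4 : L ^ (kk G : ℝ) * L ^ ε ≤ X := by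
        rw [← Real.rpow_add hL0, ← hx0d]
        exact hX1
      have h5 : L ^ (ε / 4) * L ^ e' ≤ L ^ ε := by
        rw [← Real.rpow_add hL0]
        apply Real.rpow_le_rpow_of_exponent_le hL1
        linarith
      have h6 : L ^ e' * L ^ (-e') = 1 := by rw [← Real.rpow_add hL0]; simp
      calc (CG dd D : ℝ) * (2 * L) ^ kk G = (CG dd D * 2 ^ kk G) * L ^ (kk G : ℝ) := by rw [mul_pow, Real.rpow_natCast]; ring
        _ ≤ (L ^ (ε / 4) * ε1) * L ^ (kk G : ℝ) := by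
            apply mul_le_mul_of_nonneg_right _ (by positivity)
            have h7 : (2 : ℝ) ^ kk G ≤ 2 ^ km := pow_le_pow_right₀ (by norm_num) hkk
            calc (CG dd D : ℝ) * 2 ^ kk G ≤ ((CG dd D : ℝ) + 1) * 2 ^ km := by
                  apply mul_le_mul (by linarith) h7 (by positivity) (by linarith)
              _ = 2 ^ km * ((CG dd D : ℝ) + 1) := by ring
              _ ≤ _ := hε9b
        _ = ε1 * (L ^ (kk G : ℝ) * (L ^ (ε / 4) * L ^ e')) * L ^ (-e') := by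
            calc _ = ε1 * (L ^ (kk G : ℝ) * L ^ (ε / 4)) * 1 := by ring
              _ = ε1 * (L ^ (kk G : ℝ) * L ^ (ε / 4)) * (L ^ e' * L ^ (-e')) := by rw [h6]
              _ = _ := by ring
        _ ≤ ε1 * (L ^ (kk G : ℝ) * L ^ ε) * L ^ (-e') := by gcongr
        _ ≤ ε1 * X * L ^ (-e') := by gcongr
        _ = _ := by ring
    have hV : (Vz y)⁻¹ ^ kk G * (√(X : ℝ) + CG dd D) ≤ ε1 * (X * L ^ (-e')) := by
      have h5 : L ^ (ε / 2) ≤ √(X : ℝ) := by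
        apply Real.le_sqrt_of_sq_le
        rw [← Real.rpow_natCast, ← Real.rpow_mul hL0.le]
        have e2 : ε / 2 * ((2 : ℕ) : ℝ) = ε := by push_cast; ring
        rw [e2]
        exact hx0ε.trans hX1
      have hsX : √(X : ℝ) * √(X : ℝ) = X := Real.mul_self_sqrt hX0.le
      have hsX0 : 0 ≤ √(X : ℝ) := Real.sqrt_nonneg _
      have hsX1 : 1 ≤ √(X : ℝ) := (Real.one_le_rpow hL1 (by positivity)).trans h5
      have h6 : (√(X : ℝ) + CG dd D) ≤ ((CG dd D : ℝ) + 1) * √(X : ℝ) := aux5 hsX1 hCG0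
      have h7 : (CG dd D : ℝ) + 1 ≤ L ^ (ε / 4) * ε1 := by
        refine le_trans ?_ hε9b
        exact le_mul_of_one_le_left (by linarith) h2km
      have h8 : L ^ (e' / 2) * L ^ (ε / 4) ≤ L ^ (ε / 2) * L ^ (-e') := by
        rw [← Real.rpow_add hL0, ← Real.rpow_add hL0]
        apply Real.rpow_le_rpow_of_exponent_le hL1
        linarith
      calc (Vz y)⁻¹ ^ kk G * (√(X : ℝ) + CG dd D) ≤ L ^ (e' / 2) * ((L ^ (ε / 4) * ε1) * √(X : ℝ)) := by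
            apply mul_le_mul hVpow _ (by positivity) (by positivity)
            exact h6.trans (mul_le_mul_of_nonneg_right h7 hsX0)
        _ = ε1 * ((L ^ (e' / 2) * L ^ (ε / 4)) * √(X : ℝ)) := by ring
        _ ≤ ε1 * ((L ^ (ε / 2) * L ^ (-e')) * √(X : ℝ)) := by gcongr
        _ ≤ ε1 * ((√(X : ℝ) * L ^ (-e')) * √(X : ℝ)) := by gcongr
        _ = ε1 * ((√(X : ℝ) * √(X : ℝ)) * L ^ (-e')) := by ring
        _ = _ := by rw [hsX]
    exact num3 (L ^ kk G * (pc G P f X : ℝ)) (Pool.Agent.T9h23.BH.CC q (kk G) y) X ε1 (L ^ (-e')) _ _ _ _ hε10 (by linarith) hX0 (by positivity) hCy0 hCyL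
      h1 hSX' h3 hU hV
  obtain ⟨i, hi1, hi2, hi3, hi4, _⟩ := gp_grid x0 ε1 hx01 hε10 (by
    have h1 : 1 / ε1 ≤ x0 := ((h7c.trans hδ2).trans (Real.rpow_le_rpow_of_exponent_le hL1 (by linarith))).trans hx0ε
    rw [div_le_iff₀ hε10] at h1
    exact h1) x hx1
  have hgix : (gp x0 ε1 i : ℝ) ≤ x := by exact_mod_cast hi1
  have hb1 : (gp x0 ε1 i : ℝ) ≤ L ^ (A + 1) := (hgix.trans hx2).trans (pow_le_pow_right₀ hL1 (by omega))
  have hb2 : (gp x0 ε1 (i + 1) : ℝ) ≤ L ^ (A + 1) := by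
    calc (gp x0 ε1 (i + 1) : ℝ) ≤ (1 + 2 * ε1) * gp x0 ε1 i := hi3
      _ ≤ L * L ^ A := by
          apply mul_le_mul (by linarith) (hgix.trans hx2) (Nat.cast_nonneg _) hL0.le
      _ = L ^ (A + 1) := by rw [pow_succ]; ring
  have hp1 := hpoint i hb1
  have hp2 := hpoint (i + 1) hb2
  have hm1 : L ^ kk G * (pc G P f (gp x0 ε1 i) : ℝ) ≤ L ^ kk G * (pc G P f x : ℝ) := by
    apply mul_le_mul_of_nonneg_left _ hLk0.le
    exact_mod_cast pc_mono G P f hi1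
  have hm2 : L ^ kk G * (pc G P f x : ℝ) ≤ L ^ kk G * (pc G P f (gp x0 ε1 (i + 1)) : ℝ) := by
    apply mul_le_mul_of_nonneg_left _ hLk0.le
    exact_mod_cast pc_mono G P f hi2
  have hfin := num4 (L ^ kk G * (pc G P f x : ℝ)) _ _ x _ _ (Pool.Agent.T9h23.BH.CC q (kk G) y) (Pool.Agent.T9h23.BH.CC q (kk G) z) ε1 hε10 hε1a hxr (Nat.cast_nonneg _) hCy0
    hm1 hm2 hgix (by exact_mod_cast hi2) hi3 hp1 hp2 hczz
  have hCz0 := CC_nonneg q (kk G) z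
  have e2 : (pc G P f x : ℝ) - Pool.Agent.T9h23.BH.CC q (kk G) z * (x / L ^ kk G) = (L ^ kk G * (pc G P f x : ℝ) - x * Pool.Agent.T9h23.BH.CC q (kk G) z) / L ^ kk G := by
    field_simp
  rw [e2, abs_div, abs_of_pos hLk0, div_le_iff₀ hLk0]
  refine hfin.trans ?_
  have e3 : ρ * (Pool.Agent.T9h23.BH.CC q (kk G) z * (x / L ^ kk G)) * L ^ kk G = ρ * (x * Pool.Agent.T9h23.BH.CC q (kk G) z) := by
    field_simp
  rw [e3]
  exact mul_le_mul_of_nonneg_right hε1b (by positivity)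

end Pool.Agent.T9h23.Un
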