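import Mathlib

/-! Exponential moments over independent residues. -/

set_option autoImplicit false

namespace Pool.Agent.T9h23.Un
open Finset

/-- the sum over the residues modulo a product -/
lemma sum_crt {a b : ℕ} (hab : a.Coprime b) (ha : 0 < a) (hb : 0 < b) (F : ℕ → ℕ → ℝ) :
    ∑ x ∈ range (a * b), F (x % a) (x % b) = ∑ u ∈ range a, ∑ w ∈ range b, F u w := by
  rw [← sum_product']
  apply sum_nbij (fun x => (x % a, x % b))
  · intro x _
    rw [mem_product, mem_range, mem_range]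
    exact ⟨Nat.mod_lt _ ha, Nat.mod_lt _ hb⟩
  · intro x hx x' hx' h
    rw [mem_coe, mem_range] at hx hx'
    have h1 : x % a = x' % a := congrArg Prod.fst h
    have h2 : x % b = x' % b := congrArg Prod.snd h
    have h3 : x ≡ x' [MOD a * b] := (Nat.modEq_and_modEq_iff_modEq_mul hab).1 ⟨h1, h2⟩
    exact Nat.ModEq.eq_of_lt_of_lt h3 hx hx'
  · rintro ⟨u, w⟩ huw
    rw [mem_coe, mem_product, mem_range, mem_range] at huw
    obtain ⟨hu, hw⟩ := huw
    simp only at hu hw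
    refine ⟨Nat.chineseRemainder hab u w, ?_, ?_⟩
    · rw [mem_coe, mem_range]
      exact Nat.chineseRemainder_lt_mul hab u w ha.ne' hb.ne'
    · have h1 := (Nat.chineseRemainder hab u w).2.1
      have h2 := (Nat.chineseRemainder hab u w).2.2
      simp only [Prod.mk.injEq]
      refine ⟨?_, ?_⟩
      · rw [h1]; exact Nat.mod_eq_of_lt hu
      · rw [h2]; exact Nat.mod_eq_of_lt hw
  · intro x _
    rfl

lemma exp_le_quad {t : ℝ} (ht : |t| ≤ 1) : Real.exp t ≤ 1 + t + t ^ 2 := by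
  have h := Real.abs_exp_sub_one_sub_id_le ht
  rw [abs_le] at h
  linarith [h.2]

/-- one step -/
lemma step (p : ℕ) (X : ℕ → ℝ) (θ β s : ℝ) (h1 : ∀ a ∈ range p, |θ * X a| ≤ 1)
    (h2 : |∑ a ∈ range p, X a| ≤ p * β) (h3 : ∑ a ∈ range p, X a ^ 2 ≤ p * s) :
    ∑ a ∈ range p, Real.exp (θ * X a) ≤ p * Real.exp (|θ| * β + θ ^ 2 * s) := by
  have h4 : ∑ a ∈ range p, Real.exp (θ * X a) ≤ ∑ a ∈ range p, (1 + θ * X a + (θ * X a) ^ 2) :=
    sum_le_sum fun a ha => exp_le_quad (h1 a ha)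
  have h5 : ∑ a ∈ range p, (1 + θ * X a + (θ * X a) ^ 2) = p + θ * ∑ a ∈ range p, X a + θ ^ 2 * ∑ a ∈ range p, X a ^ 2 := by
    rw [sum_add_distrib, sum_add_distrib, sum_const, card_range, nsmul_eq_mul, mul_one, mul_sum, mul_sum]
    simp only [mul_pow]
  have h6 : θ * ∑ a ∈ range p, X a ≤ |θ| * (p * β) := by
    refine (le_abs_self _).trans ?_
    rw [abs_mul]
    exact mul_le_mul_of_nonneg_left h2 (abs_nonneg _)
  have h7 : θ ^ 2 * ∑ a ∈ range p, X a ^ 2 ≤ θ ^ 2 * (p * s) := mul_le_mul_of_nonneg_left h3 (sq_nonneg _)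
  have h8 := Real.add_one_le_exp (|θ| * β + θ ^ 2 * s)
  have h9 : (p : ℝ) * (|θ| * β + θ ^ 2 * s + 1) ≤ p * Real.exp (|θ| * β + θ ^ 2 * s) :=
    mul_le_mul_of_nonneg_left h8 (Nat.cast_nonneg p)
  rw [h5] at h4
  linarith

/-- the product of the factors -/
def WW (h : ℕ → ℕ → ℕ → ℝ) (S : Finset ℕ) (n x : ℕ) : ℝ := ∏ p ∈ S, h p n x

lemma WW_mod {h : ℕ → ℕ → ℕ → ℝ} (hper : ∀ p n x, h p n (x % p) = h p n x) (S : Finset ℕ) (n x Q : ℕ) (hQ : ∀ p ∈ S, p ∣ Q) :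
    WW h S n (x % Q) = WW h S n x := by
  unfold WW
  refine prod_congr rfl fun p hp => ?_
  rw [← hper p n (x % Q), ← hper p n x, Nat.mod_mod_of_dvd x (hQ p hp)]

theorem expmom (h : ℕ → ℕ → ℕ → ℝ) (hper : ∀ p n x, h p n (x % p) = h p n x) (I S0 : Finset ℕ) (hS0 : ∀ p ∈ S0, p.Prime)
    (θ V : ℝ) (β s : ℕ → ℝ) : ∀ S : Finset ℕ, (∀ p ∈ S, p.Prime) → Disjoint S0 S →
    (∀ U : Finset ℕ, S0 ⊆ U → U ⊆ S0 ∪ S → ∀ n ∈ I, ∀ x, 0 ≤ WW h U n x ∧ WW h U n x ≤ V) →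
    (∀ p ∈ S, ∀ w : ℕ → ℝ, (∀ n ∈ I, 0 ≤ w n ∧ w n ≤ V) → (∀ a ∈ range p, |θ * ∑ n ∈ I, w n * (h p n a - 1)| ≤ 1) ∧
      |∑ a ∈ range p, ∑ n ∈ I, w n * (h p n a - 1)| ≤ p * β p ∧
      ∑ a ∈ range p, (∑ n ∈ I, w n * (h p n a - 1)) ^ 2 ≤ p * s p) →
    ∑ x ∈ range (∏ p ∈ S0 ∪ S, p), Real.exp (θ * ∑ n ∈ I, (WW h (S0 ∪ S) n x - WW h S0 n x)) ≤
      ((∏ p ∈ S0 ∪ S, p : ℕ) : ℝ) * Real.exp (∑ p ∈ S, (|θ| * β p + θ ^ 2 * s p)) := by
  intro S
  induction S using Finset.induction_on with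
  | empty =>
    intro _ _ _ _
    rw [union_empty]
    simp
  | insert p S hp ih =>
    intro hpr hdis hW hstep
    have hpp : p.Prime := hpr p (mem_insert_self _ _)
    have hpS0 : p ∉ S0 := fun h => (disjoint_left.1 hdis) h (mem_insert_self _ _)
    have hdis' : Disjoint S0 S := hdis.mono_right (subset_insert _ _)
    have hsubU : S0 ∪ S ⊆ S0 ∪ insert p S := union_subset_union_right (subset_insert _ _)
    have ih' := ih (fun q hq => hpr q (mem_insert_of_mem hq)) hdis'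
      (fun U hU1 hU2 n hn x => hW U hU1 (hU2.trans hsubU) n hn x) (fun q hq => hstep q (mem_insert_of_mem hq))
    obtain ⟨U, hU⟩ : ∃ U, U = S0 ∪ S := ⟨_, rfl⟩
    have hpU : p ∉ U := by
      rw [hU, mem_union, not_or]
      exact ⟨hpS0, hp⟩
    have hins : S0 ∪ insert p S = insert p U := by rw [hU, union_insert]
    obtain ⟨Q, hQ⟩ : ∃ Q, Q = ∏ q ∈ U, q := ⟨_, rfl⟩
    have hUpr : ∀ q ∈ U, q.Prime := by
      intro q hq
      rw [hU, mem_union] at hq
      rcases hq with h | h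
      · exact hS0 q h
      · exact hpr q (mem_insert_of_mem h)
    have hQ0 : 0 < Q := by
      rw [hQ]
      exact Nat.pos_of_ne_zero (prod_ne_zero_iff.2 fun q hq => (hUpr q hq).ne_zero)
    have hcop : Q.Coprime p := by
      rw [hQ]
      exact Nat.Coprime.prod_left fun q hq => (Nat.coprime_primes (hUpr q hq) hpp).2 (fun h => hpU (h ▸ hq))
    have hdvd : ∀ q ∈ U, q ∣ Q := fun q hq => by rw [hQ]; exact dvd_prod_of_mem _ hq
    have hprod : ∏ q ∈ insert p U, q = Q * p := by rw [prod_insert hpU, ← hQ, mul_comm]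
    rw [hins, hprod]
    rw [← hU] at ih' hsubU
    rw [← hQ] at ih'
    have hS0U : S0 ⊆ U := by rw [hU]; exact subset_union_left
    obtain ⟨w, hw⟩ : ∃ w : ℕ → ℕ → ℝ, w = fun u n => WW h U n u := ⟨_, rfl⟩
    obtain ⟨G, hG⟩ : ∃ G : ℕ → ℕ → ℝ, G = fun u a => Real.exp (θ * ∑ n ∈ I, (WW h U n u - WW h S0 n u)) *
      Real.exp (θ * ∑ n ∈ I, w u n * (h p n a - 1)) := ⟨_, rfl⟩
    have e1 : ∀ x : ℕ, Real.exp (θ * ∑ n ∈ I, (WW h (insert p U) n x - WW h S0 n x)) = G (x % Q) (x % p) := by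
      intro x
      rw [hG, hw]
      simp only
      rw [← Real.exp_add, ← mul_add, ← sum_add_distrib]
      congr 2
      refine sum_congr rfl fun n _ => ?_
      rw [WW_mod hper U n x Q hdvd, WW_mod hper S0 n x Q (fun q hq => hdvd q (hS0U hq)), hper]
      have : WW h (insert p U) n x = h p n x * WW h U n x := by
        unfold WW
        rw [prod_insert hpU]
      rw [this]
      ring
    rw [sum_congr rfl fun x _ => e1 x, sum_crt hcop hQ0 hpp.pos]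
    have e2 : ∀ u ∈ range Q, ∑ a ∈ range p, G u a ≤ Real.exp (θ * ∑ n ∈ I, (WW h U n u - WW h S0 n u)) *
        (p * Real.exp (|θ| * β p + θ ^ 2 * s p)) := by
      intro u _
      rw [hG]
      simp only
      rw [← mul_sum]
      apply mul_le_mul_of_nonneg_left _ (Real.exp_pos _).le
      obtain ⟨h1, h2, h3⟩ := hstep p (mem_insert_self _ _) (w u) (fun n hn => by
        rw [hw]
        exact hW U hS0U (by rw [hins]; exact subset_insert _ _) n hn u)
      exact step p (fun a => ∑ n ∈ I, w u n * (h p n a - 1)) θ (β p) (s p) h1 h2 h3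
    refine (sum_le_sum e2).trans ?_
    rw [← sum_mul, sum_insert hp, Real.exp_add (|θ| * β p + θ ^ 2 * s p)]
    push_cast
    have hp0 : (0 : ℝ) ≤ p * Real.exp (|θ| * β p + θ ^ 2 * s p) := by positivity
    calc (∑ u ∈ range Q, Real.exp (θ * ∑ n ∈ I, (WW h U n u - WW h S0 n u))) * (p * Real.exp (|θ| * β p + θ ^ 2 * s p))
        ≤ ((Q : ℝ) * Real.exp (∑ q ∈ S, (|θ| * β q + θ ^ 2 * s q))) * (p * Real.exp (|θ| * β p + θ ^ 2 * s p)) :=
          mul_le_mul_of_nonneg_right ih' hp0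
      _ = _ := by ring

/-- the moments from the exponential moments -/
lemma pow_le_exp (F θ : ℝ) (hθ : 0 < θ) (R : ℕ) :
    F ^ (2 * R) ≤ ((2 * R).factorial : ℝ) * (θ⁻¹) ^ (2 * R) * (Real.exp (θ * F) + Real.exp (-θ * F)) := by
  have h1 : (θ * |F|) ^ (2 * R) / ((2 * R).factorial : ℝ) ≤ Real.exp (θ * |F|) :=
    Real.pow_div_factorial_le_exp (θ * |F|) (by positivity) (2 * R)
  have h2 : Real.exp (θ * |F|) ≤ Real.exp (θ * F) + Real.exp (-θ * F) := by
    rcases abs_cases F with ⟨h, _⟩ | ⟨h, _⟩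
    · rw [h]
      linarith [Real.exp_pos (-θ * F)]
    · rw [h]
      have e : θ * -F = -θ * F := by ring
      rw [e]
      linarith [Real.exp_pos (θ * F)]
  have h3 : F ^ (2 * R) = |F| ^ (2 * R) := (Even.pow_abs ⟨R, by ring⟩ F).symm
  have hf : (0 : ℝ) < ((2 * R).factorial : ℝ) := by positivity
  rw [div_le_iff₀ hf] at h1
  rw [h3]
  calc |F| ^ (2 * R) = (θ⁻¹) ^ (2 * R) * (θ * |F|) ^ (2 * R) := by
        rw [← mul_pow]
        congr 1
        field_simp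
    _ ≤ (θ⁻¹) ^ (2 * R) * (Real.exp (θ * |F|) * ((2 * R).factorial : ℝ)) := by gcongr
    _ ≤ (θ⁻¹) ^ (2 * R) * ((Real.exp (θ * F) + Real.exp (-θ * F)) * ((2 * R).factorial : ℝ)) := by gcongr
    _ = _ := by ring

end Pool.Agent.T9h23.Un
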