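import Mathlib
import Pool.Agent.T9h23.Cor.Pol
import Pool.Agent.T9h23.Un.E1

/-! The factors of the sieve at one prime. -/

set_option autoImplicit false

namespace Pool.Agent.T9h23.Un
open Finset
open Pool.Agent.H373R2.T7
open Pool.Agent.T9h23.Cor

/-- the factor at `p` -/
noncomputable def hh (c : ℤ → ℤ) (T : ℕ → Finset ℤ) (p n x : ℕ) : ℝ :=
  open Classical in if ∃ t ∈ T n, (p : ℤ) ∣ (x : ℤ) + c t then 0 else ((1 - 1 / (p : ℝ))⁻¹) ^ (T n).card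

/-- the number of the sifted residues -/
noncomputable def nuT (c : ℤ → ℤ) (T : ℕ → Finset ℤ) (p n : ℕ) : ℕ :=
  open Classical in ((range p).filter (fun a : ℕ => ∃ t ∈ T n, (p : ℤ) ∣ (a : ℤ) + c t)).card

lemma dvd_mod (p x : ℕ) (v : ℤ) : (p : ℤ) ∣ ((x % p : ℕ) : ℤ) + v ↔ (p : ℤ) ∣ (x : ℤ) + v := by
  have h1 : (p : ℤ) ∣ (x : ℤ) - ((x % p : ℕ) : ℤ) := by
    rw [Int.natCast_mod]
    exact Int.dvd_self_sub_emod
  have e : (x : ℤ) + v = ((x : ℤ) - ((x % p : ℕ) : ℤ)) + (((x % p : ℕ) : ℤ) + v) := by ring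
  rw [e, dvd_add_right h1]

lemma hh_per (c : ℤ → ℤ) (T : ℕ → Finset ℤ) (p n x : ℕ) : hh c T p n (x % p) = hh c T p n x := by
  unfold hh
  simp only [dvd_mod]

/-- the residue of `-c t` -/
def rc (c : ℤ → ℤ) (p : ℕ) (t : ℤ) : ℕ := ((-c t) % (p : ℤ)).toNat

lemma rc_iff (c : ℤ → ℤ) {p : ℕ} (hp : 0 < p) (t : ℤ) {a : ℕ} (ha : a < p) : rc c p t = a ↔ (p : ℤ) ∣ (a : ℤ) + c t := by
  have hp' : (0 : ℤ) < p := by exact_mod_cast hp
  have h1 := Int.emod_nonneg (-c t) hp'.ne'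
  have h2 : (a : ℤ) % p = a := Int.emod_eq_of_lt (by positivity) (by exact_mod_cast ha)
  have h3 : rc c p t = a ↔ (-c t) % (p : ℤ) = (a : ℤ) % p := by
    unfold rc
    rw [h2]
    omega
  rw [h3, Int.emod_eq_emod_iff_emod_sub_eq_zero, ← Int.dvd_iff_emod_eq_zero]
  have e : -c t - (a : ℤ) = -((a : ℤ) + c t) := by ring
  rw [e, dvd_neg]

lemma rc_lt (c : ℤ → ℤ) {p : ℕ} (hp : 0 < p) (t : ℤ) : rc c p t < p := by
  have hp' : (0 : ℤ) < p := by exact_mod_cast hp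
  have h1 := Int.emod_nonneg (-c t) hp'.ne'
  have h2 := Int.emod_lt_of_pos (-c t) hp'
  unfold rc
  omega

lemma nuT_eq (c : ℤ → ℤ) (T : ℕ → Finset ℤ) {p : ℕ} (hp : 0 < p) (n : ℕ) : nuT c T p n = ((T n).image (rc c p)).card := by
  classical
  unfold nuT
  congr 1
  ext a
  rw [mem_filter, mem_range, mem_image]
  constructor
  · rintro ⟨ha, t, ht, h⟩
    exact ⟨t, ht, (rc_iff c hp t ha).2 h⟩
  · rintro ⟨t, ht, h⟩
    have ha : a < p := by rw [← h]; exact rc_lt c hp t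
    exact ⟨ha, t, ht, (rc_iff c hp t ha).1 h⟩

lemma nuT_le (c : ℤ → ℤ) (T : ℕ → Finset ℤ) {p : ℕ} (hp : 0 < p) (n : ℕ) : nuT c T p n ≤ (T n).card := by
  rw [nuT_eq c T hp]
  exact card_image_le

open Classical in
lemma nuT_defect (c : ℤ → ℤ) (T : ℕ → Finset ℤ) {p : ℕ} (hp : 0 < p) (n : ℕ) :
    (T n).card ≤ nuT c T p n + ((T n).offDiag.filter (fun q => (p : ℤ) ∣ c q.1 - c q.2)).card := by
  rw [nuT_eq c T hp]
  refine (card_le_image_add (T n) (rc c p)).trans ?_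
  apply Nat.add_le_add_left
  apply card_le_card
  intro q hq
  rw [mem_filter] at hq ⊢
  refine ⟨hq.1, ?_⟩
  have h1 := (rc_iff c hp q.1 (rc_lt c hp q.1)).1 rfl
  have h2 := (rc_iff c hp q.2 (rc_lt c hp q.2)).1 rfl
  rw [hq.2] at h1
  have h3 := dvd_sub h1 h2
  have e : ((rc c p q.2 : ℕ) : ℤ) + c q.1 - (((rc c p q.2 : ℕ) : ℤ) + c q.2) = c q.1 - c q.2 := by ring
  rwa [e] at h3

lemma sum_hh (c : ℤ → ℤ) (T : ℕ → Finset ℤ) {p : ℕ} (hp : 0 < p) (n : ℕ) :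
    ∑ a ∈ range p, (hh c T p n a - 1) = p * ((1 - (nuT c T p n : ℝ) / p) * ((1 - 1 / (p : ℝ))⁻¹) ^ (T n).card - 1) := by
  classical
  have hp0 : (p : ℝ) ≠ 0 := by exact_mod_cast hp.ne'
  rw [sum_sub_distrib, sum_const, card_range, nsmul_eq_mul, mul_one]
  have h1 : ∑ a ∈ range p, hh c T p n a = ((p : ℝ) - nuT c T p n) * ((1 - 1 / (p : ℝ))⁻¹) ^ (T n).card := by
    unfold hh
    rw [sum_ite, sum_const_zero, zero_add, sum_const, nsmul_eq_mul]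
    congr 1
    have h2 := card_filter_add_card_filter_not (s := range p) (fun a : ℕ => ∃ t ∈ T n, (p : ℤ) ∣ (a : ℤ) + c t)
    rw [card_range] at h2
    unfold nuT
    have h3 : ((((range p).filter (fun a : ℕ => ∃ t ∈ T n, (p : ℤ) ∣ (a : ℤ) + c t)).card : ℕ) : ℝ) +
      ((((range p).filter (fun a : ℕ => ¬ ∃ t ∈ T n, (p : ℤ) ∣ (a : ℤ) + c t)).card : ℕ) : ℝ) = p := by exact_mod_cast h2
    linarith
  rw [h1]
  field_simp

/-- the number of the sifted `n` -/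
noncomputable def Nb (c : ℤ → ℤ) (T : ℕ → Finset ℤ) (I : Finset ℕ) (p a : ℕ) : ℕ :=
  open Classical in (I.filter (fun n => ∃ t ∈ T n, (p : ℤ) ∣ (a : ℤ) + c t)).card

lemma sum_Nb (c : ℤ → ℤ) (T : ℕ → Finset ℤ) (I : Finset ℕ) {p : ℕ} (hp : 0 < p) (k : ℕ) (hk : ∀ n ∈ I, (T n).card ≤ k) :
    ∑ a ∈ range p, Nb c T I p a ≤ k * I.card := by
  classical
  have e1 : ∑ a ∈ range p, Nb c T I p a = ∑ n ∈ I, nuT c T p n := by
    unfold Nb nuT
    simp only [card_filter]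
    rw [sum_comm]
  rw [e1, mul_comm, ← smul_eq_mul, ← sum_const]
  exact sum_le_sum fun n hn => (nuT_le c T hp n).trans (hk n hn)

lemma rho_bound {p k m : ℕ} (hp : 2 * k ≤ p) (hp2 : 2 ≤ p) (hm : m ≤ k) :
    0 ≤ ((1 - 1 / (p : ℝ))⁻¹) ^ m - 1 ∧ ((1 - 1 / (p : ℝ))⁻¹) ^ m - 1 ≤ 3 * k / p := by
  have hp2r : (2 : ℝ) ≤ p := by exact_mod_cast hp2
  have hp0 : (0 : ℝ) < p := by linarith
  have hkp : 2 * (k : ℝ) ≤ p := by exact_mod_cast hp
  have hmk : (m : ℝ) ≤ k := by exact_mod_cast hm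
  have hm0 : (0 : ℝ) ≤ m := Nat.cast_nonneg m
  have h1 : 0 < 1 - 1 / (p : ℝ) := by
    rw [sub_pos, div_lt_one hp0]; linarith
  have h2 : 1 ≤ (1 - 1 / (p : ℝ))⁻¹ := by
    rw [one_le_inv₀ h1]
    have : 0 ≤ 1 / (p : ℝ) := by positivity
    linarith
  constructor
  · linarith [one_le_pow₀ h2 (n := m)]
  · have h3 := phi_bound (p : ℝ) m 0 (Nat.zero_le m) (by linarith) hp2r
    rw [Nat.cast_zero, zero_div, sub_zero, one_mul, sub_zero] at h3
    have h4 := (le_abs_self _).trans h3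
    refine h4.trans ?_
    have h5 : 2 * (m : ℝ) ^ 2 / (p : ℝ) ^ 2 ≤ k / p := by
      rw [div_le_div_iff₀ (by positivity) hp0]
      have h6 : 2 * (m : ℝ) ^ 2 ≤ k * p := by nlinarith
      nlinarith
    have h6 : 2 * (m : ℝ) / p ≤ 2 * k / p := by gcongr
    calc 2 * (m : ℝ) / p + 2 * (m : ℝ) ^ 2 / (p : ℝ) ^ 2 ≤ 2 * k / p + k / p := add_le_add h6 h5
      _ = 3 * k / p := by ring

/-- the bounds at one prime -/
theorem prime_step (c : ℤ → ℤ) (T : ℕ → Finset ℤ) (I : Finset ℕ) (p k : ℕ) (hp : p.Prime) (hk : ∀ n ∈ I, (T n).card ≤ k)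
    (hkp : 2 * k ≤ p) (K V G : ℝ) (hV : 0 ≤ V)
    (hN : ∀ a < p, 3 * k * ((I.card : ℝ) / p) + (Nb c T I p a : ℝ) ≤ K * ((I.card : ℝ) / p + 1))
    (hG : ∑ n ∈ I, (((T n).card : ℝ) - nuT c T p n) ≤ G) (w : ℕ → ℝ) (hw : ∀ n ∈ I, 0 ≤ w n ∧ w n ≤ V) :
    (∀ a ∈ range p, |∑ n ∈ I, w n * (hh c T p n a - 1)| ≤ V * (K * ((I.card : ℝ) / p + 1))) ∧
    |∑ a ∈ range p, ∑ n ∈ I, w n * (hh c T p n a - 1)| ≤ p * (V * (2 * G / p + 2 * k ^ 2 * I.card / (p : ℝ) ^ 2)) ∧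
    ∑ a ∈ range p, (∑ n ∈ I, w n * (hh c T p n a - 1)) ^ 2 ≤
      p * ((V * (K * ((I.card : ℝ) / p + 1))) * (V * (4 * k * ((I.card : ℝ) / p)))) := by
  classical
  have hp0 : 0 < p := hp.pos
  have hpr : (0 : ℝ) < p := by exact_mod_cast hp0
  obtain ⟨ρ, hρ⟩ : ∃ ρ : ℕ → ℝ, ρ = fun n => ((1 - 1 / (p : ℝ))⁻¹) ^ (T n).card - 1 := ⟨_, rfl⟩
  have hρb : ∀ n ∈ I, 0 ≤ ρ n ∧ ρ n ≤ 3 * k / p := by
    intro n hn
    rw [hρ]
    exact rho_bound hkp hp.two_le (hk n hn)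
  -- pointwise
  have hpw : ∀ a, ∀ n ∈ I, |w n * (hh c T p n a - 1)| ≤ V * (3 * k / p + if ∃ t ∈ T n, (p : ℤ) ∣ (a : ℤ) + c t then 1 else 0) := by
    intro a n hn
    obtain ⟨h1, h2⟩ := hρb n hn
    rw [abs_mul, abs_of_nonneg (hw n hn).1]
    apply mul_le_mul (hw n hn).2 _ (abs_nonneg _) hV
    unfold hh
    split_ifs with h
    · rw [zero_sub, abs_neg, abs_one]
      have : (0 : ℝ) ≤ 3 * k / p := by positivity
      linarith
    · have e : ((1 - 1 / (p : ℝ))⁻¹) ^ (T n).card - 1 = ρ n := by rw [hρ]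
      rw [e, abs_of_nonneg h1]
      linarith
  have hsum : ∀ a, |∑ n ∈ I, w n * (hh c T p n a - 1)| ≤ V * (3 * k * ((I.card : ℝ) / p) + (Nb c T I p a : ℝ)) := by
    intro a
    refine (abs_sum_le_sum_abs _ _).trans ((sum_le_sum (hpw a)).trans (le_of_eq ?_))
    rw [← mul_sum, sum_add_distrib, sum_const, nsmul_eq_mul, sum_boole]
    unfold Nb
    ring
  have hone : ∀ a ∈ range p, |∑ n ∈ I, w n * (hh c T p n a - 1)| ≤ V * (K * ((I.card : ℝ) / p + 1)) := by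
    intro a ha
    rw [mem_range] at ha
    exact (hsum a).trans (mul_le_mul_of_nonneg_left (hN a ha) hV)
  refine ⟨hone, ?_, ?_⟩
  · rw [sum_comm]
    have e1 : ∀ n ∈ I, ∑ a ∈ range p, w n * (hh c T p n a - 1) =
        w n * (p * ((1 - (nuT c T p n : ℝ) / p) * ((1 - 1 / (p : ℝ))⁻¹) ^ (T n).card - 1)) := by
      intro n _
      rw [← mul_sum, sum_hh c T hp0]
    rw [sum_congr rfl e1]
    refine (abs_sum_le_sum_abs _ _).trans ?_
    have h1 : ∀ n ∈ I, |w n * (p * ((1 - (nuT c T p n : ℝ) / p) * ((1 - 1 / (p : ℝ))⁻¹) ^ (T n).card - 1))| ≤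
        V * (p * (2 * (((T n).card : ℝ) - nuT c T p n) / p + 2 * (k : ℝ) ^ 2 / (p : ℝ) ^ 2)) := by
      intro n hn
      have hcard : ((T n).card : ℝ) ≤ k := by exact_mod_cast hk n hn
      have hkpr : 2 * (k : ℝ) ≤ p := by exact_mod_cast hkp
      have hc0 : (0 : ℝ) ≤ (T n).card := Nat.cast_nonneg _
      have h2 := phi_bound (p : ℝ) (T n).card (nuT c T p n) (nuT_le c T hp0 n) (by linarith) (by exact_mod_cast hp.two_le)
      rw [abs_mul, abs_of_nonneg (hw n hn).1, abs_mul, abs_of_pos hpr]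
      apply mul_le_mul (hw n hn).2 _ (by positivity) hV
      apply mul_le_mul_of_nonneg_left _ hpr.le
      refine h2.trans ?_
      have : 2 * ((T n).card : ℝ) ^ 2 / (p : ℝ) ^ 2 ≤ 2 * (k : ℝ) ^ 2 / (p : ℝ) ^ 2 := by gcongr
      linarith
    refine (sum_le_sum h1).trans ?_
    rw [← mul_sum, ← mul_sum, sum_add_distrib, sum_const, nsmul_eq_mul]
    have e2 : ∑ n ∈ I, 2 * (((T n).card : ℝ) - nuT c T p n) / p = 2 * (∑ n ∈ I, (((T n).card : ℝ) - nuT c T p n)) / p := by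
      rw [mul_sum, sum_div]
    rw [e2]
    have e3 : (I.card : ℝ) * (2 * (k : ℝ) ^ 2 / (p : ℝ) ^ 2) = 2 * (k : ℝ) ^ 2 * I.card / (p : ℝ) ^ 2 := by ring
    rw [e3]
    have e4 : V * (p * (2 * (∑ n ∈ I, (((T n).card : ℝ) - nuT c T p n)) / p + 2 * (k : ℝ) ^ 2 * I.card / (p : ℝ) ^ 2)) =
        p * (V * (2 * (∑ n ∈ I, (((T n).card : ℝ) - nuT c T p n)) / p + 2 * (k : ℝ) ^ 2 * I.card / (p : ℝ) ^ 2)) := by ring
    rw [e4]
    gcongr
  · have hM0 : 0 ≤ V * (K * ((I.card : ℝ) / p + 1)) := (abs_nonneg _).trans (hone 0 (mem_range.2 hp0))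
    calc ∑ a ∈ range p, (∑ n ∈ I, w n * (hh c T p n a - 1)) ^ 2
        ≤ ∑ a ∈ range p, (V * (K * ((I.card : ℝ) / p + 1))) * (V * (3 * k * ((I.card : ℝ) / p) + (Nb c T I p a : ℝ))) := by
          apply sum_le_sum
          intro a ha
          rw [← sq_abs, sq]
          exact mul_le_mul (hone a ha) (hsum a) (abs_nonneg _) hM0
      _ = (V * (K * ((I.card : ℝ) / p + 1))) * (V * (p * (3 * k * ((I.card : ℝ) / p)) + ((∑ a ∈ range p, Nb c T I p a : ℕ) : ℝ))) := by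
          rw [← mul_sum, ← mul_sum, sum_add_distrib, sum_const, card_range, nsmul_eq_mul]
          push_cast
          rfl
      _ ≤ (V * (K * ((I.card : ℝ) / p + 1))) * (V * (p * (3 * k * ((I.card : ℝ) / p)) + k * I.card)) := by
          have h1 : ((∑ a ∈ range p, Nb c T I p a : ℕ) : ℝ) ≤ k * I.card := by exact_mod_cast sum_Nb c T I hp0 k hk
          gcongr
      _ = _ := by
          field_simp
          ring

/-- the product of the factors and the weights of the sieve -/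
lemma WW_lz (c : ℤ → ℤ) (T : ℕ → Finset ℤ) (z n x : ℕ) : WW (hh c T) (pz z) n x = ∏ t ∈ T n, lz z ((x : ℤ) + c t) := by
  classical
  by_cases h : ∀ p ∈ pz z, ∀ t ∈ T n, ¬ (p : ℤ) ∣ (x : ℤ) + c t
  · have h1 : ∀ t ∈ T n, lz z ((x : ℤ) + c t) = (Vz z)⁻¹ := by
      intro t ht
      unfold lz lamz
      rw [if_pos]
      intro p hp hd
      exact h p hp t ht (Int.natCast_dvd.2 hd)
    rw [prod_congr rfl h1, prod_const]
    unfold WW Vz
    rw [← prod_inv_distrib, ← prod_pow]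
    refine prod_congr rfl fun p hp => ?_
    unfold hh
    rw [if_neg]
    rintro ⟨t, ht, hd⟩
    exact h p hp t ht hd
  · push Not at h
    obtain ⟨p, hp, t, ht, hd⟩ := h
    have h1 : WW (hh c T) (pz z) n x = 0 := by
      unfold WW
      apply prod_eq_zero hp
      unfold hh
      rw [if_pos ⟨t, ht, hd⟩]
    have h2 : ∏ t ∈ T n, lz z ((x : ℤ) + c t) = 0 := by
      apply prod_eq_zero ht
      unfold lz lamz
      rw [if_neg]
      intro h3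
      exact h3 p hp (Int.natCast_dvd.1 hd)
    rw [h1, h2]

lemma WW_bound (c : ℤ → ℤ) (T : ℕ → Finset ℤ) (Z k n x : ℕ) (hk : (T n).card ≤ k) (U : Finset ℕ) (hU : U ⊆ pz Z) :
    0 ≤ WW (hh c T) U n x ∧ WW (hh c T) U n x ≤ (Vz Z)⁻¹ ^ k := by
  classical
  have hfac : ∀ p ∈ pz Z, 1 ≤ (1 - 1 / (p : ℝ))⁻¹ := by
    intro p hp
    have hp2 : (2 : ℝ) ≤ p := by exact_mod_cast (mem_pz.1 hp).2.two_le
    have h1 : 0 < 1 - 1 / (p : ℝ) := by
      rw [sub_pos, div_lt_one (by linarith)]; linarith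
    rw [one_le_inv₀ h1]
    have : 0 ≤ 1 / (p : ℝ) := by positivity
    linarith
  have hh0 : ∀ p ∈ pz Z, 0 ≤ hh c T p n x ∧ hh c T p n x ≤ ((1 - 1 / (p : ℝ))⁻¹) ^ k := by
    intro p hp
    have h1 := hfac p hp
    unfold hh
    split_ifs
    · exact ⟨le_rfl, by positivity⟩
    · exact ⟨by positivity, pow_le_pow_right₀ h1 hk⟩
  constructor
  · unfold WW
    exact prod_nonneg fun p hp => (hh0 p (hU hp)).1
  · unfold WW Vz
    rw [← prod_inv_distrib, ← prod_pow]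
    calc ∏ p ∈ U, hh c T p n x ≤ ∏ p ∈ U, ((1 - 1 / (p : ℝ))⁻¹) ^ k :=
          prod_le_prod (fun p hp => (hh0 p (hU hp)).1) fun p hp => (hh0 p (hU hp)).2
      _ ≤ ∏ p ∈ pz Z, ((1 - 1 / (p : ℝ))⁻¹) ^ k := by
          have h1 : 1 ≤ ∏ p ∈ pz Z \ U, ((1 - 1 / (p : ℝ))⁻¹) ^ k := by
            calc (1 : ℝ) = ∏ _p ∈ pz Z \ U, 1 := by rw [prod_const_one]
              _ ≤ _ := prod_le_prod (fun _ _ => zero_le_one) fun p hp => one_le_pow₀ (hfac p (mem_sdiff.1 hp).1)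
          have h2 : 0 ≤ ∏ p ∈ U, ((1 - 1 / (p : ℝ))⁻¹) ^ k := prod_nonneg fun p hp => by
            have := hfac p (hU hp)
            positivity
          rw [← prod_sdiff hU]
          exact le_mul_of_one_le_left h2 h1

end Pool.Agent.T9h23.Un
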