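import Mathlib
import Pool.Agent.T9h23.Un.E2

/-! The moments in the model. -/

set_option autoImplicit false

namespace Pool.Agent.T9h23.Un
open Finset
open Pool.Agent.H373R2.T7
open Pool.Agent.T9h23.Cor

lemma cux1 {V K X y W sy θ : ℝ} (hX : 0 < X) (hy : 1 ≤ y) (hsy : sy * sy = y) (hsy0 : 0 < sy) (hW : 2 * (V * K) ≤ W) (hW0 : 0 < W)
    (hθ : θ = sy / (X * W)) (_hV : 0 ≤ V) (_hK : 0 ≤ K) : θ * (V * (K * (2 * X / y))) ≤ 1 := by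
  have hsy1 : 1 ≤ sy := by nlinarith
  rw [hθ]
  have e : sy / (X * W) * (V * (K * (2 * X / y))) = (2 * (V * K)) / (W * sy) := by
    rw [← hsy]
    field_simp
  rw [e, div_le_one (by positivity)]
  nlinarith

lemma cux2 {V K X y W sy θ k : ℝ} (hX : 0 < X) (hsy : sy * sy = y) (hsy0 : 0 < sy) (hW : 8 * k * K * V ^ 3 ≤ W) (hW1 : 1 ≤ W)
    (hθ : θ = sy / (X * W)) : θ ^ 2 * (8 * k * K * V ^ 3 * (X ^ 2 / y)) ≤ 1 := by
  rw [hθ]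
  have e : (sy / (X * W)) ^ 2 * (8 * k * K * V ^ 3 * (X ^ 2 / y)) = (8 * k * K * V ^ 3) / W ^ 2 := by
    rw [← hsy]
    field_simp
  rw [e, div_le_one (by positivity)]
  nlinarith

lemma cux3 {V X y W sy θ k : ℝ} (hX : 0 < X) (hy : 1 ≤ y) (hsy : sy * sy = y) (hsy0 : 0 < sy) (hW : 2 * V ^ 2 + 2 * k ^ 2 * V ≤ W)
    (hW0 : 0 < W) (hθ : θ = sy / (X * W)) (hV : 0 ≤ V) :
    θ * (V * (2 * (V * (X / sy)) + 2 * k ^ 2 * X * (1 / y))) ≤ 1 := by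
  have hsy1 : 1 ≤ sy := by nlinarith
  rw [hθ]
  have e : sy / (X * W) * (V * (2 * (V * (X / sy)) + 2 * k ^ 2 * X * (1 / y))) = (2 * V ^ 2 + 2 * k ^ 2 * V / sy) / W := by
    rw [← hsy]
    field_simp
  rw [e, div_le_one hW0]
  have h1 : 2 * k ^ 2 * V / sy ≤ 2 * k ^ 2 * V := div_le_self (by positivity) hsy1
  linarith

/-- the moments in the model -/
theorem modelmom (c : ℤ → ℤ) (T : ℕ → Finset ℤ) (I : Finset ℕ) (k K1 y Z R : ℕ) (V W K : ℝ) (G : ℕ → ℝ)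
    (hk1 : 1 ≤ k) (hk : ∀ n ∈ I, (T n).card ≤ k) (hy : 2 * k ≤ y) (hyZ : y ≤ Z) (hI : y ≤ I.card) (hV : (Vz Z)⁻¹ ^ k ≤ V)
    (hK : K = 3 * k + K1)
    (hN : ∀ p ∈ pz Z \ pz y, ∀ a < p, (Nb c T I p a : ℝ) ≤ K1 * ((I.card : ℝ) / p + 1))
    (hG : ∀ p ∈ pz Z \ pz y, ∑ n ∈ I, (((T n).card : ℝ) - nuT c T p n) ≤ G p)
    (hΓ : ∑ p ∈ pz Z \ pz y, G p / p ≤ V * ((I.card : ℝ) / √(y : ℝ))) (hW : 16 * (k : ℝ) ^ 2 * K * V ^ 3 ≤ W) :
    ∑ x ∈ range (∏ p ∈ pz Z, p), (∑ n ∈ I, (∏ t ∈ T n, lz Z ((x : ℤ) + c t) - ∏ t ∈ T n, lz y ((x : ℤ) + c t))) ^ (2 * R) ≤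
      ((∏ p ∈ pz Z, p : ℕ) : ℝ) * (((2 * R).factorial : ℝ) * ((I.card : ℝ) * W / √(y : ℝ)) ^ (2 * R) * (2 * Real.exp 2)) := by
  classical
  obtain ⟨X, hX⟩ : ∃ X : ℝ, X = I.card := ⟨_, rfl⟩
  have hkr : (1 : ℝ) ≤ k := by exact_mod_cast hk1
  have hyr : (2 : ℝ) ≤ y := by
    have : 2 ≤ y := by omega
    exact_mod_cast this
  have hy0 : (0 : ℝ) < y := by linarith
  have hXy : (y : ℝ) ≤ X := by rw [hX]; exact_mod_cast hI
  have hX0 : 0 < X := by linarith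
  have hVz1 : 1 ≤ (Vz Z)⁻¹ := (one_le_inv₀ (Vz_pos _)).2 (Vz_le_one Z)
  have hV1 : 1 ≤ V := (one_le_pow₀ hVz1).trans hV
  have hVz : (Vz Z)⁻¹ ≤ V := (le_self_pow₀ hVz1 (by omega)).trans hV
  have hK10 : (0 : ℝ) ≤ K1 := Nat.cast_nonneg _
  have hK3 : 3 ≤ K := by rw [hK]; linarith
  have hKK : K1 + 3 * (k : ℝ) = K := by rw [hK]; ring
  have hV3 : 1 ≤ V ^ 3 := one_le_pow₀ hV1
  have hk2 : 1 ≤ (k : ℝ) ^ 2 := one_le_pow₀ hkr
  have hkV : 1 ≤ (k : ℝ) ^ 2 * V ^ 3 := one_le_mul_of_one_le_of_one_le hk2 hV3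
  have hW48 : 48 * ((k : ℝ) ^ 2 * V ^ 3) ≤ W := by
    refine le_trans ?_ hW
    calc 48 * ((k : ℝ) ^ 2 * V ^ 3) = 16 * (k : ℝ) ^ 2 * 3 * V ^ 3 := by ring
      _ ≤ _ := by gcongr
  have hW1 : 1 ≤ W := by linarith
  obtain ⟨sy, hsyd⟩ : ∃ sy : ℝ, sy = √(y : ℝ) := ⟨_, rfl⟩
  have hsy : sy * sy = y := by rw [hsyd]; exact Real.mul_self_sqrt hy0.le
  have hsy0 : 0 < sy := by rw [hsyd]; exact Real.sqrt_pos.2 hy0
  obtain ⟨θ, hθ⟩ : ∃ θ : ℝ, θ = sy / (X * W) := ⟨_, rfl⟩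
  have hθ0 : 0 < θ := by rw [hθ]; positivity
  -- the numerical conditions
  have hc1 : θ * (V * (K * (2 * X / y))) ≤ 1 := by
    apply cux1 hX0 (by linarith) hsy hsy0 _ (by linarith) hθ (by linarith) (by linarith)
    refine le_trans ?_ hW
    have h1 : V ≤ V ^ 3 := le_self_pow₀ hV1 (by norm_num)
    calc 2 * (V * K) ≤ 16 * K * V := by nlinarith [mul_nonneg (by linarith : (0 : ℝ) ≤ V) (by linarith : (0 : ℝ) ≤ K)]
      _ ≤ 16 * (1 * K) * V ^ 3 := by rw [one_mul]; gcongr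
      _ ≤ 16 * ((k : ℝ) ^ 2 * K) * V ^ 3 := by gcongr
      _ = _ := by ring
  have hc2 : θ ^ 2 * (8 * k * K * V ^ 3 * (X ^ 2 / y)) ≤ 1 := by
    apply cux2 hX0 hsy hsy0 _ hW1 hθ
    refine le_trans ?_ hW
    have h1 : (k : ℝ) ≤ (k : ℝ) ^ 2 := le_self_pow₀ hkr (by norm_num)
    have h2 : 0 ≤ K * V ^ 3 := by positivity
    calc 8 * (k : ℝ) * K * V ^ 3 = 8 * k * (K * V ^ 3) := by ring
      _ ≤ 16 * (k : ℝ) ^ 2 * (K * V ^ 3) := by gcongr; norm_num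
      _ = _ := by ring
  have hc3 : θ * (V * (2 * (V * (X / sy)) + 2 * k ^ 2 * X * (1 / y))) ≤ 1 := by
    apply cux3 hX0 (by linarith) hsy hsy0 _ (by linarith) hθ (by linarith)
    have h1 : V ^ 2 ≤ V ^ 3 := pow_le_pow_right₀ hV1 (by norm_num)
    have h2 : V ≤ V ^ 3 := le_self_pow₀ hV1 (by norm_num)
    have h3 : V ^ 3 ≤ (k : ℝ) ^ 2 * V ^ 3 := le_mul_of_one_le_left (by positivity) hk2
    have h4 : (k : ℝ) ^ 2 * V ≤ (k : ℝ) ^ 2 * V ^ 3 := by gcongr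
    nlinarith
  -- the bounds of the primes
  have hS : pz y ∪ (pz Z \ pz y) = pz Z := by
    apply union_sdiff_of_subset
    intro p hp
    rw [mem_pz] at hp ⊢
    exact ⟨hp.1.trans hyZ, hp.2⟩
  have hpS : ∀ p ∈ pz Z \ pz y, p.Prime ∧ y < p := by
    intro p hp
    rw [mem_sdiff, mem_pz, mem_pz] at hp
    refine ⟨hp.1.2, ?_⟩
    by_contra h
    exact hp.2 ⟨by omega, hp.1.2⟩
  obtain ⟨β, hβ⟩ : ∃ β : ℕ → ℝ, β = fun p : ℕ => V * (2 * G p / p + 2 * k ^ 2 * X / (p : ℝ) ^ 2) := ⟨_, rfl⟩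
  obtain ⟨s, hs⟩ : ∃ s : ℕ → ℝ, s = fun p : ℕ => (V * (K * (X / p + 1))) * (V * (4 * k * (X / p))) := ⟨_, rfl⟩
  have hps : ∀ p ∈ pz Z \ pz y, ∀ w : ℕ → ℝ, (∀ n ∈ I, 0 ≤ w n ∧ w n ≤ V) →
      (∀ a ∈ range p, |∑ n ∈ I, w n * (hh c T p n a - 1)| ≤ V * (K * (X / p + 1))) ∧
      |∑ a ∈ range p, ∑ n ∈ I, w n * (hh c T p n a - 1)| ≤ p * β p ∧
      ∑ a ∈ range p, (∑ n ∈ I, w n * (hh c T p n a - 1)) ^ 2 ≤ p * s p := by
    intro p hp w hw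
    obtain ⟨hpp, hyp⟩ := hpS p hp
    rw [hβ, hs, hX]
    apply prime_step c T I p k hpp hk (by omega) K V (G p) (by linarith) _ (hG p hp) w hw
    intro a ha
    have h1 := hN p hp a ha
    have h2 : 0 ≤ (I.card : ℝ) / p := by positivity
    have h3 : 3 * (k : ℝ) * ((I.card : ℝ) / p) ≤ 3 * k * ((I.card : ℝ) / p + 1) := by
      apply mul_le_mul_of_nonneg_left _ (by positivity)
      linarith
    rw [hK]
    linarith
  have hXp : ∀ p ∈ pz Z \ pz y, X / p + 1 ≤ 2 * X / y := by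
    intro p hp
    obtain ⟨hpp, hyp⟩ := hpS p hp
    have h1 : X / p ≤ X / y := by gcongr
    have h2 : 1 ≤ X / y := by rw [le_div_iff₀ hy0]; linarith
    calc X / p + 1 ≤ X / y + X / y := add_le_add h1 h2
      _ = _ := by ring
  -- the sums over the primes
  have hsq := sum_sq_tail y Z (by omega)
  have hinv : ∑ p ∈ pz Z \ pz y, 1 / (p : ℝ) ≤ V := by
    have h1 := exp_sum_inv Z
    have h2 := Real.add_one_le_exp (∑ p ∈ pz Z, 1 / (p : ℝ))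
    have h3 : ∑ p ∈ pz Z \ pz y, 1 / (p : ℝ) ≤ ∑ p ∈ pz Z, 1 / (p : ℝ) :=
      sum_le_sum_of_subset_of_nonneg sdiff_subset fun p _ _ => by positivity
    linarith
  have hsumβ : θ * ∑ p ∈ pz Z \ pz y, β p ≤ 1 := by
    refine le_trans ?_ hc3
    apply mul_le_mul_of_nonneg_left _ hθ0.le
    rw [hβ]
    simp only
    rw [← mul_sum, sum_add_distrib]
    apply mul_le_mul_of_nonneg_left _ (by linarith)
    apply add_le_add
    · have e : ∑ p ∈ pz Z \ pz y, 2 * G p / p = 2 * ∑ p ∈ pz Z \ pz y, G p / p := by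
        rw [mul_sum]
        exact sum_congr rfl fun p _ => by ring
      rw [e, hX, hsyd]
      gcongr
    · have e : ∑ p ∈ pz Z \ pz y, 2 * (k : ℝ) ^ 2 * X / (p : ℝ) ^ 2 = 2 * (k : ℝ) ^ 2 * X * ∑ p ∈ pz Z \ pz y, 1 / (p : ℝ) ^ 2 := by
        rw [mul_sum]
        exact sum_congr rfl fun p _ => by ring
      rw [e]
      gcongr
  have hsums : θ ^ 2 * ∑ p ∈ pz Z \ pz y, s p ≤ 1 := by
    refine le_trans ?_ hc2
    apply mul_le_mul_of_nonneg_left _ (sq_nonneg _)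
    have e : ∑ p ∈ pz Z \ pz y, s p = 4 * k * K * V ^ 2 * (X ^ 2 * ∑ p ∈ pz Z \ pz y, 1 / (p : ℝ) ^ 2 + X * ∑ p ∈ pz Z \ pz y, 1 / (p : ℝ)) := by
      rw [hs, mul_sum, mul_sum, ← sum_add_distrib, mul_sum]
      exact sum_congr rfl fun p _ => by ring
    rw [e]
    have h1 : X ^ 2 * ∑ p ∈ pz Z \ pz y, 1 / (p : ℝ) ^ 2 + X * ∑ p ∈ pz Z \ pz y, 1 / (p : ℝ) ≤ 2 * V * (X ^ 2 / y) := by
      have h2 : X ^ 2 * ∑ p ∈ pz Z \ pz y, 1 / (p : ℝ) ^ 2 ≤ X ^ 2 * (1 / y) := by gcongr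
      have h3 : X * ∑ p ∈ pz Z \ pz y, 1 / (p : ℝ) ≤ X * V := by gcongr
      have h4 : X * V ≤ V * (X ^ 2 / y) := by
        rw [mul_comm]
        apply mul_le_mul_of_nonneg_left _ (by linarith)
        rw [le_div_iff₀ hy0, sq]
        gcongr
      have h5 : X ^ 2 * (1 / y) ≤ V * (X ^ 2 / y) := by
        have : X ^ 2 * (1 / y) = 1 * (X ^ 2 / y) := by ring
        rw [this]
        gcongr
      linarith
    calc 4 * k * K * V ^ 2 * (X ^ 2 * ∑ p ∈ pz Z \ pz y, 1 / (p : ℝ) ^ 2 + X * ∑ p ∈ pz Z \ pz y, 1 / (p : ℝ))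
        ≤ 4 * k * K * V ^ 2 * (2 * V * (X ^ 2 / y)) := by gcongr
      _ = 8 * k * K * V ^ 3 * (X ^ 2 / y) := by ring
  -- the exponential moments
  obtain ⟨F, hF⟩ : ∃ F : ℕ → ℝ, F = fun x : ℕ => ∑ n ∈ I, (∏ t ∈ T n, lz Z ((x : ℤ) + c t) - ∏ t ∈ T n, lz y ((x : ℤ) + c t)) := ⟨_, rfl⟩
  have hexp : ∀ τ : ℝ, |τ| = θ → ∑ x ∈ range (∏ p ∈ pz Z, p), Real.exp (τ * F x) ≤ ((∏ p ∈ pz Z, p : ℕ) : ℝ) * Real.exp 2 := by
    intro τ hτ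
    have h1 := expmom (hh c T) (hh_per c T) I (pz y) (fun p hp => (mem_pz.1 hp).2) τ V β s (pz Z \ pz y) (fun p hp => (hpS p hp).1)
      disjoint_sdiff (fun U _ hU2 n hn x => by
        rw [hS] at hU2
        have h2 := WW_bound c T Z k n x (hk n hn) U hU2
        exact ⟨h2.1, h2.2.trans hV⟩)
      (fun p hp w hw => by
        obtain ⟨h2, h3, h4⟩ := hps p hp w hw
        refine ⟨fun a ha => ?_, h3, h4⟩
        rw [abs_mul, hτ]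
        calc θ * |∑ n ∈ I, w n * (hh c T p n a - 1)| ≤ θ * (V * (K * (X / p + 1))) := by
              have := h2 a ha
              gcongr
          _ ≤ θ * (V * (K * (2 * X / y))) := by
              have := hXp p hp
              gcongr
          _ ≤ 1 := hc1)
    rw [hS] at h1
    have e1 : ∀ x : ℕ, ∑ n ∈ I, (WW (hh c T) (pz Z) n x - WW (hh c T) (pz y) n x) = F x := by
      intro x
      rw [hF]
      refine sum_congr rfl fun n _ => ?_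
      rw [WW_lz, WW_lz]
    simp only [e1] at h1
    refine h1.trans ?_
    apply mul_le_mul_of_nonneg_left _ (Nat.cast_nonneg _)
    apply Real.exp_le_exp.2
    rw [sum_add_distrib, ← mul_sum, ← mul_sum, hτ]
    have hτ2 : τ ^ 2 = θ ^ 2 := by rw [← sq_abs, hτ]
    rw [hτ2]
    linarith
  have hp1 := hexp θ (abs_of_pos hθ0)
  have hp2 := hexp (-θ) (by rw [abs_neg, abs_of_pos hθ0])
  have hFx : ∀ x : ℕ, ∑ n ∈ I, (∏ t ∈ T n, lz Z ((x : ℤ) + c t) - ∏ t ∈ T n, lz y ((x : ℤ) + c t)) = F x := fun x => by rw [hF]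
  simp only [hFx]
  have hθinv : θ⁻¹ = X * W / sy := by rw [hθ, inv_div]
  calc ∑ x ∈ range (∏ p ∈ pz Z, p), F x ^ (2 * R)
      ≤ ∑ x ∈ range (∏ p ∈ pz Z, p), ((2 * R).factorial : ℝ) * (θ⁻¹) ^ (2 * R) * (Real.exp (θ * F x) + Real.exp (-θ * F x)) :=
        sum_le_sum fun x _ => pow_le_exp (F x) θ hθ0 R
    _ = ((2 * R).factorial : ℝ) * (θ⁻¹) ^ (2 * R) * (∑ x ∈ range (∏ p ∈ pz Z, p), Real.exp (θ * F x) +
        ∑ x ∈ range (∏ p ∈ pz Z, p), Real.exp (-θ * F x)) := by rw [← mul_sum, sum_add_distrib]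
    _ ≤ ((2 * R).factorial : ℝ) * (θ⁻¹) ^ (2 * R) * (((∏ p ∈ pz Z, p : ℕ) : ℝ) * Real.exp 2 + ((∏ p ∈ pz Z, p : ℕ) : ℝ) * Real.exp 2) := by
        gcongr
    _ = _ := by
        rw [hθinv, hX, hsyd]
        ring

end Pool.Agent.T9h23.Un
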