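import Mathlib
import Pool.Agent.T9h23.Un.E3

/-! From the model to the box. -/

set_option autoImplicit false

namespace Pool.Agent.T9h23.Un
open Finset
open Pool.Agent.H373R2.T7
open Pool.Agent.T9h23.Cor

lemma prod_crt (g : ℕ → ℕ → ℝ) (S : Finset ℕ) : (∀ p ∈ S, p.Prime) →
    ∑ x ∈ range (∏ p ∈ S, p), ∏ p ∈ S, g p (x % p) = ∏ p ∈ S, ∑ a ∈ range p, g p a := by
  induction S using Finset.induction_on with
  | empty => intro _; simp
  | insert p S hp ih =>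
    intro hpr
    have hpp : p.Prime := hpr p (mem_insert_self _ _)
    have ih' := ih (fun q hq => hpr q (mem_insert_of_mem hq))
    obtain ⟨Q, hQ⟩ : ∃ Q, Q = ∏ q ∈ S, q := ⟨_, rfl⟩
    have hQ0 : 0 < Q := by
      rw [hQ]
      exact Nat.pos_of_ne_zero (prod_ne_zero_iff.2 fun q hq => (hpr q (mem_insert_of_mem hq)).ne_zero)
    have hcop : Q.Coprime p := by
      rw [hQ]
      exact Nat.Coprime.prod_left fun q hq => (Nat.coprime_primes (hpr q (mem_insert_of_mem hq)) hpp).2 (fun h => hp (h ▸ hq))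
    have hdvd : ∀ q ∈ S, q ∣ Q := fun q hq => by rw [hQ]; exact dvd_prod_of_mem _ hq
    rw [prod_insert hp, prod_insert hp, ← hQ, mul_comm p Q]
    rw [← hQ] at ih'
    obtain ⟨F, hF⟩ : ∃ F : ℕ → ℕ → ℝ, F = fun u w => (∏ q ∈ S, g q (u % q)) * g p w := ⟨_, rfl⟩
    have e1 : ∀ x : ℕ, ∏ q ∈ insert p S, g q (x % q) = F (x % Q) (x % p) := by
      intro x
      rw [prod_insert hp, hF, mul_comm]
      simp only
      congr 1
      refine prod_congr rfl fun q hq => ?_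
      rw [Nat.mod_mod_of_dvd x (hdvd q hq)]
    rw [sum_congr rfl fun x _ => e1 x, sum_crt hcop hQ0 hpp.pos, hF]
    simp only
    rw [← ih', mul_comm, sum_mul]
    exact sum_congr rfl fun u _ => by rw [mul_sum]

theorem sum_x_model (m E U : ℕ) (hm : 1 ≤ m) : ∃ H0 : ℕ, ∀ H : ℕ, H0 ≤ H → ∀ Z : ℕ, 1 ≤ Z → (Z : ℝ) ≤ Real.log H ^ E →
    ∀ R : Finset (ℕ × ℤ), R.card ≤ m → ∀ zf : ℕ × ℤ → ℕ, (∀ t ∈ R, zf t ≤ Z) → ∀ c : ℕ × ℤ → ℤ,
    |∑ x ∈ Icc (-(H : ℤ)) H, ∏ t ∈ R, lz (zf t) (x + c t) -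
      (2 * H + 1) / ((∏ p ∈ pz Z, p : ℕ) : ℝ) * ∑ x ∈ range (∏ p ∈ pz Z, p), ∏ t ∈ R, lz (zf t) ((x : ℤ) + (c t - (H + 1)))| ≤
      (Vz Z)⁻¹ ^ m * ((2 * H + 1) / Real.log H ^ U) := by
  classical
  obtain ⟨H0, h0⟩ := sum_x m E U hm
  refine ⟨H0, fun H hH Z hZ1 hZE R hR zf hzf c => ?_⟩
  obtain ⟨e⟩ : Nonempty ((ℕ × ℤ) ≃ ℤ) := ⟨Denumerable.equiv₂ _ _⟩
  obtain ⟨R', hR'⟩ : ∃ R' : Finset ℤ, R' = R.map e.toEmbedding := ⟨_, rfl⟩
  obtain ⟨zf', hzf'⟩ : ∃ zf' : ℤ → ℕ, zf' = fun t => zf (e.symm t) := ⟨_, rfl⟩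
  obtain ⟨c', hc'⟩ : ∃ c' : ℤ → ℤ, c' = fun t => c (e.symm t) := ⟨_, rfl⟩
  have h1 := h0 H hH Z hZ1 hZE R' (by rw [hR', card_map]; exact hR) zf' (fun t ht => by
    rw [hR', mem_map] at ht
    obtain ⟨s, hs, rfl⟩ := ht
    rw [hzf']
    simp only [Equiv.coe_toEmbedding, Equiv.symm_apply_apply]
    exact hzf s hs) c'
  have e1 : ∀ x : ℤ, ∏ t ∈ R', lz (zf' t) (x + c' t) = ∏ t ∈ R, lz (zf t) (x + c t) := by
    intro x
    rw [hR', prod_map, hzf', hc']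
    refine prod_congr rfl fun t _ => ?_
    simp only [Equiv.coe_toEmbedding, Equiv.symm_apply_apply]
  have hzf'Z : ∀ t ∈ R', zf' t ≤ Z := fun t ht => by
    rw [hR', mem_map] at ht
    obtain ⟨s, hs, rfl⟩ := ht
    rw [hzf']
    simp only [Equiv.coe_toEmbedding, Equiv.symm_apply_apply]
    exact hzf s hs
  -- the sum over a period
  obtain ⟨Q, hQ⟩ : ∃ Q, Q = ∏ q ∈ pz Z, q := ⟨_, rfl⟩
  have hQ0 : (0 : ℝ) < (Q : ℝ) := by
    rw [hQ]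
    exact_mod_cast Nat.pos_of_ne_zero (prod_ne_zero_iff.2 fun q hq => (mem_pz.1 hq).2.ne_zero)
  have e2 : ∑ x ∈ range Q, ∏ t ∈ R, lz (zf t) ((x : ℤ) + (c t - (H + 1))) = Q * ∏ p ∈ pz Z, phi H R' zf' c' p := by
    have h3 : ∏ p ∈ pz Z, phi H R' zf' c' p = (∏ t ∈ R', (Vz (zf' t))⁻¹) * ∏ p ∈ pz Z, (1 - (nuB (QQ H R' zf' c') p : ℝ) / p) := by
      rw [prod_V R' zf' Z hzf'Z, ← prod_mul_distrib]
      refine prod_congr rfl fun p hp => ?_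
      rw [nuB_QQ H R' zf' c' (mem_pz.1 hp).2]
      unfold phi
      ring
    have h4 : ∀ x : ℕ, ∏ t ∈ R, lz (zf t) ((x : ℤ) + (c t - (H + 1))) =
        (∏ t ∈ R', (Vz (zf' t))⁻¹) * ∏ p ∈ pz Z, (if QQ H R' zf' c' p (x % p) then (0 : ℝ) else 1) := by
      intro x
      have h5 := lz_QQ H R' zf' c' Z hzf'Z x
      rw [e1] at h5
      have h6 : ∏ t ∈ R, lz (zf t) ((x : ℤ) + (c t - (H + 1))) = ∏ t ∈ R, lz (zf t) ((x : ℤ) - (H + 1) + c t) :=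
        prod_congr rfl fun t _ => by congr 1; ring
      rw [h6, h5]
      congr 1
      have hper := (perB_QQ H R' zf' c' m (by rw [hR', card_map]; exact hR)).per
      split_ifs with h
      · symm
        apply prod_eq_one
        intro p hp
        rw [if_neg]
        rw [← hper]
        exact h p hp
      · push Not at h
        obtain ⟨p, hp, hq⟩ := h
        symm
        apply prod_eq_zero hp
        rw [if_pos]
        exact (hper p x).1 hq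
    rw [sum_congr rfl fun x _ => h4 x, ← mul_sum, hQ,
      prod_crt (fun p a => if QQ H R' zf' c' p a then (0 : ℝ) else 1) (pz Z) (fun p hp => (mem_pz.1 hp).2), h3]
    have h7 : ∏ p ∈ pz Z, ∑ a ∈ range p, (if QQ H R' zf' c' p a then (0 : ℝ) else 1) =
        ((∏ p ∈ pz Z, p : ℕ) : ℝ) * ∏ p ∈ pz Z, (1 - (nuB (QQ H R' zf' c') p : ℝ) / p) := by
      push_cast
      rw [← prod_mul_distrib]
      refine prod_congr rfl fun p hp => ?_
      have hp0 : (p : ℝ) ≠ 0 := by exact_mod_cast (mem_pz.1 hp).2.ne_zero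
      have h8 : ∑ a ∈ range p, (if QQ H R' zf' c' p a then (0 : ℝ) else 1) = (p : ℝ) - nuB (QQ H R' zf' c') p := by
        have h9 : ∀ a ∈ range p, (if QQ H R' zf' c' p a then (0 : ℝ) else 1) = 1 - (if QQ H R' zf' c' p a then (1 : ℝ) else 0) := by
          intro a _
          split_ifs <;> norm_num
        rw [sum_congr rfl h9, sum_sub_distrib, sum_const, card_range, nsmul_eq_mul, mul_one, sum_boole]
        unfold nuB
        rfl
      rw [h8]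
      field_simp
    rw [h7]
    ring
  rw [← hQ, e2]
  have e3 : (2 * (H : ℝ) + 1) / Q * (Q * ∏ p ∈ pz Z, phi H R' zf' c' p) = (2 * H + 1) * ∏ p ∈ pz Z, phi H R' zf' c' p := by
    field_simp
  rw [e3]
  have e4 : ∑ x ∈ Icc (-(H : ℤ)) H, ∏ t ∈ R, lz (zf t) (x + c t) = ∑ x ∈ Icc (-(H : ℤ)) H, ∏ t ∈ R', lz (zf' t) (x + c' t) :=
    sum_congr rfl fun x _ => (e1 x).symm
  rw [e4]
  exact h1

/-- the difference of the weights for two levels -/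
noncomputable def FF (c : ℤ → ℤ) (T : ℕ → Finset ℤ) (I : Finset ℕ) (y Z : ℕ) (x : ℤ) : ℝ :=
  ∑ n ∈ I, (∏ t ∈ T n, lz Z (x + c t) - ∏ t ∈ T n, lz y (x + c t))

/-- the signs -/
def sg (b : Bool) : ℝ := if b then 1 else -1

lemma abs_sg (b : Bool) : |sg b| = 1 := by
  unfold sg
  split_ifs <;> simp

/-- the labels -/
noncomputable def RS (T : ℕ → Finset ℤ) (m0 : ℕ) (v : Fin m0 → ℕ) : Finset (ℕ × ℤ) :=
  ((univ : Finset (Fin m0)).sigma (fun i => T (v i))).map ⟨fun q => ((q.1 : ℕ), q.2), by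
    rintro ⟨i, t⟩ ⟨j, s⟩ h
    simp only [Prod.mk.injEq] at h
    obtain ⟨h1, h2⟩ := h
    have h3 : i = j := Fin.ext h1
    subst h3
    subst h2
    rfl⟩

/-- the levels -/
def zl (y Z m0 : ℕ) (σ : Fin m0 → Bool) (q : ℕ × ℤ) : ℕ := if h : q.1 < m0 then (if σ ⟨q.1, h⟩ then Z else y) else y

lemma FF_pow (c : ℤ → ℤ) (T : ℕ → Finset ℤ) (I : Finset ℕ) (y Z m0 : ℕ) (x : ℤ) :
    FF c T I y Z x ^ m0 = ∑ v ∈ Fintype.piFinset (fun _ : Fin m0 => I), ∑ σ : Fin m0 → Bool,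
      (∏ i, sg (σ i)) * ∏ q ∈ RS T m0 v, lz (zl y Z m0 σ q) (x + c q.2) := by
  classical
  have h1 : FF c T I y Z x ^ m0 = ∏ _i : Fin m0, FF c T I y Z x := by rw [prod_const, card_univ, Fintype.card_fin]
  rw [h1]
  unfold FF
  rw [prod_univ_sum]
  refine sum_congr rfl fun v _ => ?_
  have h2 : ∀ i : Fin m0, ∏ t ∈ T (v i), lz Z (x + c t) - ∏ t ∈ T (v i), lz y (x + c t) =
      ∑ b : Bool, sg b * ∏ t ∈ T (v i), lz (if b then Z else y) (x + c t) := by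
    intro i
    rw [Fintype.sum_bool]
    unfold sg
    simp
    ring
  rw [prod_congr rfl fun i _ => h2 i, prod_univ_sum]
  rw [Fintype.piFinset_univ]
  refine sum_congr rfl fun σ _ => ?_
  rw [prod_mul_distrib]
  congr 1
  unfold RS
  rw [prod_map, prod_sigma]
  refine prod_congr rfl fun i _ => ?_
  refine prod_congr rfl fun t _ => ?_
  simp only [Function.Embedding.coeFn_mk]
  congr 1
  unfold zl
  rw [dif_pos i.2]

lemma card_RS (T : ℕ → Finset ℤ) (m0 k : ℕ) (v : Fin m0 → ℕ) (h : ∀ i, (T (v i)).card ≤ k) : (RS T m0 v).card ≤ m0 * k := by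
  unfold RS
  rw [card_map, card_sigma]
  calc ∑ i, (T (v i)).card ≤ ∑ _i : Fin m0, k := sum_le_sum fun i _ => h i
    _ = m0 * k := by rw [sum_const, card_univ, Fintype.card_fin, smul_eq_mul]

/-- the moments in the box and in the model -/
theorem transfer (m0 k E U : ℕ) (hm0 : 1 ≤ m0) (hk : 1 ≤ k) : ∃ H0 : ℕ, ∀ H : ℕ, H0 ≤ H → ∀ y Z : ℕ, 1 ≤ y → y ≤ Z →
    (Z : ℝ) ≤ Real.log H ^ E → ∀ (c : ℤ → ℤ) (T : ℕ → Finset ℤ) (I : Finset ℕ), (∀ n ∈ I, (T n).card ≤ k) →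
    ∑ x ∈ Icc (-(H : ℤ)) H, FF c T I y Z x ^ m0 ≤
      (2 * H + 1) / ((∏ p ∈ pz Z, p : ℕ) : ℝ) * ∑ x ∈ range (∏ p ∈ pz Z, p), FF (fun t => c t - (H + 1)) T I y Z (x : ℤ) ^ m0 +
      (2 * (I.card : ℝ)) ^ m0 * ((Vz Z)⁻¹ ^ (m0 * k) * ((2 * H + 1) / Real.log H ^ U)) := by
  classical
  obtain ⟨H0, h0⟩ := sum_x_model (m0 * k) E U (Nat.mul_pos hm0 hk)
  refine ⟨H0, fun H hH y Z hy hyZ hZE c T I hT => ?_⟩
  obtain ⟨err, herr⟩ : ∃ err : ℝ, err = (Vz Z)⁻¹ ^ (m0 * k) * ((2 * H + 1) / Real.log H ^ U) := ⟨_, rfl⟩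
  obtain ⟨Q, hQ⟩ : ∃ Q, Q = ∏ q ∈ pz Z, q := ⟨_, rfl⟩
  have hone : ∀ v ∈ Fintype.piFinset (fun _ : Fin m0 => I), ∀ σ : Fin m0 → Bool,
      |(∏ i, sg (σ i)) * ∑ x ∈ Icc (-(H : ℤ)) H, ∏ q ∈ RS T m0 v, lz (zl y Z m0 σ q) (x + c q.2) -
        (2 * H + 1) / (Q : ℝ) * ((∏ i, sg (σ i)) * ∑ x ∈ range Q, ∏ q ∈ RS T m0 v, lz (zl y Z m0 σ q) ((x : ℤ) + (c q.2 - (H + 1))))| ≤ err := by
    intro v hv σ
    rw [Fintype.mem_piFinset] at hv
    have h1 := h0 H hH Z (hy.trans hyZ) hZE (RS T m0 v) (card_RS T m0 k v fun i => hT _ (hv i)) (zl y Z m0 σ) (fun q _ => by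
      unfold zl
      split_ifs
      · exact le_rfl
      · exact hyZ
      · exact hyZ) (fun q => c q.2)
    rw [← hQ, ← herr] at h1
    have h2 : |∏ i, sg (σ i)| = 1 := by
      rw [abs_prod]
      exact prod_eq_one fun i _ => abs_sg _
    have e1 : ∀ A B C D : ℝ, C * A - B * (C * D) = C * (A - B * D) := fun A B C D => by ring
    rw [e1, abs_mul, h2, one_mul]
    exact h1
  have e1 : ∑ x ∈ Icc (-(H : ℤ)) H, FF c T I y Z x ^ m0 = ∑ v ∈ Fintype.piFinset (fun _ : Fin m0 => I), ∑ σ : Fin m0 → Bool,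
      (∏ i, sg (σ i)) * ∑ x ∈ Icc (-(H : ℤ)) H, ∏ q ∈ RS T m0 v, lz (zl y Z m0 σ q) (x + c q.2) := by
    simp only [FF_pow, mul_sum]
    rw [sum_comm]
    exact sum_congr rfl fun v _ => sum_comm
  have e2 : (2 * H + 1) / (Q : ℝ) * ∑ x ∈ range Q, FF (fun t => c t - (H + 1)) T I y Z (x : ℤ) ^ m0 =
      ∑ v ∈ Fintype.piFinset (fun _ : Fin m0 => I), ∑ σ : Fin m0 → Bool,
      (2 * H + 1) / (Q : ℝ) * ((∏ i, sg (σ i)) * ∑ x ∈ range Q, ∏ q ∈ RS T m0 v, lz (zl y Z m0 σ q) ((x : ℤ) + (c q.2 - (H + 1)))) := by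
    simp only [FF_pow, mul_sum]
    rw [sum_comm]
    exact sum_congr rfl fun v _ => sum_comm
  rw [← hQ, ← herr, e2, e1, ← sub_le_iff_le_add']
  refine (le_abs_self _).trans ?_
  rw [← sum_sub_distrib]
  refine (abs_sum_le_sum_abs _ _).trans ?_
  have h3 : ∀ v ∈ Fintype.piFinset (fun _ : Fin m0 => I), |∑ σ : Fin m0 → Bool,
      (∏ i, sg (σ i)) * ∑ x ∈ Icc (-(H : ℤ)) H, ∏ q ∈ RS T m0 v, lz (zl y Z m0 σ q) (x + c q.2) -
      ∑ σ : Fin m0 → Bool, (2 * H + 1) / (Q : ℝ) *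
        ((∏ i, sg (σ i)) * ∑ x ∈ range Q, ∏ q ∈ RS T m0 v, lz (zl y Z m0 σ q) ((x : ℤ) + (c q.2 - (H + 1))))| ≤ 2 ^ m0 * err := by
    intro v hv
    rw [← sum_sub_distrib]
    refine (abs_sum_le_sum_abs _ _).trans ((sum_le_sum fun σ _ => hone v hv σ).trans (le_of_eq ?_))
    rw [sum_const, card_univ, Fintype.card_fun, Fintype.card_fin, Fintype.card_bool, nsmul_eq_mul]
    push_cast
    rfl
  refine (sum_le_sum h3).trans (le_of_eq ?_)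
  rw [sum_const, Fintype.card_piFinset_const, nsmul_eq_mul]
  push_cast
  ring

end Pool.Agent.T9h23.Un
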