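import Mathlib
import Pool.Agent.T9h23.Un.E4

/-! Large deviations of the sieve: all but `(log H)^{-B}` of the constant terms. -/

set_option autoImplicit false

namespace Pool.Agent.T9h23.Un
open Finset
open Pool.Agent.H373R2.T7
open Pool.Agent.T9h23.Cor

lemma cheb_pow {α : Type*} (Ω : Finset α) (S : α → ℝ) (B lam : ℝ) (m0 : ℕ) (hm : Even m0) (hl : 0 < lam) (h : ∑ f ∈ Ω, S f ^ m0 ≤ B) :
    (open Classical in ((Ω.filter (fun f => lam < |S f|)).card : ℝ)) ≤ B / lam ^ m0 := by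
  classical
  rw [le_div_iff₀ (by positivity)]
  refine le_trans ?_ h
  calc ((Ω.filter (fun f => lam < |S f|)).card : ℝ) * lam ^ m0 = ∑ _f ∈ Ω.filter (fun f => lam < |S f|), lam ^ m0 := by
        rw [sum_const, nsmul_eq_mul]
    _ ≤ ∑ f ∈ Ω.filter (fun f => lam < |S f|), S f ^ m0 := by
        apply sum_le_sum
        intro f hf
        rw [mem_filter] at hf
        rw [← hm.pow_abs (S f)]
        exact pow_le_pow_left₀ hl.le hf.2.le m0
    _ ≤ _ := sum_le_sum_of_subset_of_nonneg (filter_subset _ _) fun _ _ _ => hm.pow_nonneg _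

lemma dux (a v l x : ℝ) (n : ℕ) (ha : 0 < a) (hl : 0 < l) : (2 * a) ^ n * (v ^ n * x) / (a * l) ^ n = (2 * v / l) ^ n * x := by
  rw [div_eq_iff (by positivity)]
  calc (2 * a) ^ n * (v ^ n * x) = (2 * a * v) ^ n * x := by rw [mul_pow (2 * a) v]; ring
    _ = ((2 * v / l) * (a * l)) ^ n * x := by
        congr 2
        field_simp
    _ = _ := by rw [mul_pow (2 * v / l)]; ring

theorem local_x (k K1 E B : ℕ) (δ e' : ℝ) (hk : 1 ≤ k) (_hδ : 0 < δ) (he' : 0 < e') (he'δ : e' < δ / 2) :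
    ∃ H0 : ℕ, ∀ H : ℕ, H0 ≤ H → ∀ y Z : ℕ, Real.log H ^ δ ≤ y → y ≤ Z → (Z : ℝ) ≤ Real.log H ^ E →
    ∀ (c : ℤ → ℤ) (T : ℕ → Finset ℤ) (I : Finset ℕ), (∀ n ∈ I, (T n).card ≤ k) → y ≤ I.card →
    (open Classical in ∀ p ∈ pz Z \ pz y, ∀ a : ℤ, ((I.filter (fun n => ∃ t ∈ T n, (p : ℤ) ∣ a + c t)).card : ℝ) ≤ K1 * ((I.card : ℝ) / p + 1)) →
    ∀ G : ℕ → ℝ, (open Classical in ∀ p ∈ pz Z \ pz y, ((∑ n ∈ I, ((T n).offDiag.filter (fun q => (p : ℤ) ∣ c q.1 - c q.2)).card : ℕ) : ℝ) ≤ G p) →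
    ∑ p ∈ pz Z \ pz y, G p / p ≤ (I.card : ℝ) / √(y : ℝ) →
    (open Classical in (((Icc (-(H : ℤ)) H).filter (fun x => (I.card : ℝ) * Real.log H ^ (-e') < |FF c T I y Z x|)).card : ℝ)) ≤
      (2 * H + 1) / Real.log H ^ B := by
  classical
  obtain ⟨ε2, hε2⟩ : ∃ ε2 : ℝ, ε2 = (δ / 2 - e') / 2 := ⟨_, rfl⟩
  have hε20 : 0 < ε2 := by rw [hε2]; linarith
  obtain ⟨R, hR⟩ : ∃ R : ℕ, R = ⌈((B : ℝ) + 1) / (2 * ε2)⌉₊ + 1 := ⟨_, rfl⟩
  have hR1 : (B : ℝ) + 1 ≤ 2 * ε2 * R := by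
    have h1 : ((B : ℝ) + 1) / (2 * ε2) ≤ R := by
      rw [hR]
      push_cast
      have := Nat.le_ceil (((B : ℝ) + 1) / (2 * ε2))
      linarith
    rw [div_le_iff₀ (by positivity)] at h1
    linarith
  have hR0 : 1 ≤ R := by omega
  obtain ⟨ce, hce⟩ : ∃ ce : ℕ, ce = ⌈e'⌉₊ := ⟨_, rfl⟩
  have hce' : e' ≤ ce := by rw [hce]; exact Nat.le_ceil _
  obtain ⟨U, hU⟩ : ∃ U : ℕ, U = 2 * R * (ce + 2) + B + 1 := ⟨_, rfl⟩
  obtain ⟨K, hK⟩ : ∃ K : ℝ, K = 3 * k + K1 := ⟨_, rfl⟩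
  have hK0 : 0 < K := by
    rw [hK]
    have : (1 : ℝ) ≤ k := by exact_mod_cast hk
    have : (0 : ℝ) ≤ K1 := Nat.cast_nonneg _
    linarith
  have hkr : (1 : ℝ) ≤ k := by exact_mod_cast hk
  obtain ⟨n0, h0⟩ := transfer (2 * R) k E U (by omega) hk
  obtain ⟨n1, h1⟩ := Vz_small E (min (ε2 / 6) 1 / k) (by positivity)
  obtain ⟨n2, h2⟩ := ev_rpow (max (16 * (k : ℝ) ^ 2 * K) 2) (ε2 / 2) (by positivity)
  obtain ⟨n3, h3⟩ := ev_rpow (2 * k) δ (by linarith)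
  obtain ⟨n4, h4⟩ := ev_L' (max 3 (2 * (((2 * R).factorial : ℝ) * (2 * Real.exp 2))))
  refine ⟨max (max n0 n1) (max (max n2 n3) n4), fun H hH y Z hy hyZ hZE c T I hT hI hN G hG hΓ => ?_⟩
  have hn0 : n0 ≤ H := ((le_max_left _ _).trans (le_max_left _ _)).trans hH
  have hn1 : n1 ≤ H := ((le_max_right _ _).trans (le_max_left _ _)).trans hH
  have hn2 : n2 ≤ H := (((le_max_left _ _).trans (le_max_left _ _)).trans (le_max_right _ _)).trans hH
  have hn3 : n3 ≤ H := (((le_max_right _ _).trans (le_max_left _ _)).trans (le_max_right _ _)).trans hH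
  have hn4 : n4 ≤ H := ((le_max_right _ _).trans (le_max_right _ _)).trans hH
  have a2 := h2 H hn2
  have a3 := h3 H hn3
  have a4 := h4 H hn4
  obtain ⟨L, hLd⟩ : ∃ L, L = Real.log H := ⟨_, rfl⟩
  rw [← hLd] at a2 a3 a4 hy hZE ⊢
  have hL3 : 3 ≤ L := (le_max_left _ _).trans a4
  have hLf : 2 * (((2 * R).factorial : ℝ) * (2 * Real.exp 2)) ≤ L := (le_max_right _ _).trans a4
  have hL0 : 0 < L := by linarith
  have hL1 : 1 ≤ L := by linarith
  have hmon : ∀ s t : ℝ, s ≤ t → L ^ s ≤ L ^ t := fun s t h => Real.rpow_le_rpow_of_exponent_le hL1 h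
  have hadd : ∀ s t : ℝ, L ^ (s + t) = L ^ s * L ^ t := fun s t => Real.rpow_add hL0 s t
  have hyk : 2 * k ≤ y := by exact_mod_cast a3.trans hy
  have hyr : (1 : ℝ) ≤ y := by
    have h5 : (2 * (k : ℝ)) ≤ y := by exact_mod_cast hyk
    linarith
  have hy1 : 1 ≤ y := by exact_mod_cast hyr
  have hy0 : (0 : ℝ) < y := by linarith
  have hZ1 : 1 ≤ Z := hy1.trans hyZ
  have hI0 : (0 : ℝ) < I.card := by
    have : (y : ℝ) ≤ I.card := by exact_mod_cast hI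
    linarith
  -- the products over the primes
  have hVz := h1 H hn1 Z hZ1 (by rw [← hLd]; exact hZE)
  rw [← hLd] at hVz
  have hVz1 : 1 ≤ (Vz Z)⁻¹ := (one_le_inv₀ (Vz_pos _)).2 (Vz_le_one Z)
  have hVk : (Vz Z)⁻¹ ^ k ≤ L ^ (min (ε2 / 6) 1) := by
    calc (Vz Z)⁻¹ ^ k ≤ (L ^ (min (ε2 / 6) 1 / k)) ^ k := pow_le_pow_left₀ (by linarith) hVz _
      _ = L ^ (min (ε2 / 6) 1) := by
          rw [← Real.rpow_natCast, ← Real.rpow_mul hL0.le]
          congr 1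
          field_simp
  obtain ⟨V, hV⟩ : ∃ V : ℝ, V = L ^ (ε2 / 6) := ⟨_, rfl⟩
  have hVkV : (Vz Z)⁻¹ ^ k ≤ V := by rw [hV]; exact hVk.trans (hmon _ _ (min_le_left _ _))
  have hVkL : (Vz Z)⁻¹ ^ k ≤ L := by
    refine hVk.trans ((hmon _ 1 (min_le_right _ _)).trans (le_of_eq (Real.rpow_one L)))
  have hV1 : 1 ≤ V := by rw [hV]; exact Real.one_le_rpow hL1 (by positivity)
  obtain ⟨W, hW⟩ : ∃ W : ℝ, W = L ^ ε2 := ⟨_, rfl⟩
  have hWb : 16 * (k : ℝ) ^ 2 * K * V ^ 3 ≤ W := by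
    have e1 : V ^ 3 = L ^ (ε2 / 2) := by
      rw [hV, ← Real.rpow_natCast, ← Real.rpow_mul hL0.le]
      congr 1
      push_cast
      ring
    have e2 : W = L ^ (ε2 / 2) * L ^ (ε2 / 2) := by rw [hW, ← hadd]; congr 1; ring
    rw [e1, e2]
    exact mul_le_mul_of_nonneg_right ((le_max_left _ _).trans a2) (by positivity)
  have hW0 : 0 < W := by rw [hW]; positivity
  -- the model
  obtain ⟨c', hc'⟩ : ∃ c' : ℤ → ℤ, c' = fun t => c t - (H + 1) := ⟨_, rfl⟩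
  have hmod := modelmom c' T I k K1 y Z R V W K G hk hT hyk hyZ hI hVkV hK
    (fun p hp a _ => by
      have h5 := hN p hp ((a : ℤ) - (H + 1))
      unfold Nb
      rw [hc']
      have e1 : ∀ t : ℤ, (a : ℤ) + (c t - (H + 1)) = (a : ℤ) - (H + 1) + c t := fun t => by ring
      simp only [e1]
      exact h5)
    (fun p hp => by
      have hpp : p.Prime := (mem_pz.1 (mem_sdiff.1 hp).1).2
      refine le_trans ?_ (hG p hp)
      push_cast
      apply sum_le_sum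
      intro n _
      have h5 := nuT_defect c' T hpp.pos n
      have e1 : ∀ q : ℤ × ℤ, c' q.1 - c' q.2 = c q.1 - c q.2 := fun q => by rw [hc']; ring
      simp only [e1] at h5
      have h6 : ((T n).card : ℝ) ≤ (nuT c' T p n : ℝ) + (((T n).offDiag.filter (fun q => (p : ℤ) ∣ c q.1 - c q.2)).card : ℝ) := by
        exact_mod_cast h5
      linarith)
    (hΓ.trans (le_mul_of_one_le_left (by positivity) hV1)) hWb
  have htr := h0 H hn0 y Z hy1 hyZ (by rw [← hLd]; exact hZE) c T I hT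
  rw [← hLd] at htr
  obtain ⟨Q, hQ⟩ : ∃ Q, Q = ∏ q ∈ pz Z, q := ⟨_, rfl⟩
  have hQ0 : (0 : ℝ) < (Q : ℝ) := by
    rw [hQ]
    exact_mod_cast Nat.pos_of_ne_zero (prod_ne_zero_iff.2 fun q hq => (mem_pz.1 hq).2.ne_zero)
  rw [← hQ] at hmod htr
  have hH0 : (0 : ℝ) ≤ 2 * H + 1 := by positivity
  obtain ⟨M1, hM1⟩ : ∃ M1 : ℝ, M1 = ((2 * R).factorial : ℝ) * ((I.card : ℝ) * W / √(y : ℝ)) ^ (2 * R) * (2 * Real.exp 2) := ⟨_, rfl⟩
  rw [← hM1] at hmod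
  have hmod' : (2 * (H : ℝ) + 1) / Q * ∑ x ∈ range Q, FF (fun t => c t - (H + 1)) T I y Z (x : ℤ) ^ (2 * R) ≤ (2 * H + 1) * M1 := by
    have e1 : ∑ x ∈ range Q, FF (fun t => c t - (H + 1)) T I y Z (x : ℤ) ^ (2 * R) ≤ Q * M1 := by
      rw [hc'] at hmod
      exact hmod
    calc (2 * (H : ℝ) + 1) / Q * ∑ x ∈ range Q, FF (fun t => c t - (H + 1)) T I y Z (x : ℤ) ^ (2 * R) ≤ (2 * (H : ℝ) + 1) / Q * (Q * M1) := by gcongr
      _ = _ := by field_simp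
  obtain ⟨M2, hM2⟩ : ∃ M2 : ℝ, M2 = (2 * (I.card : ℝ)) ^ (2 * R) * ((Vz Z)⁻¹ ^ (2 * R * k) * ((2 * H + 1) / L ^ U)) := ⟨_, rfl⟩
  rw [← hM2] at htr
  have hall := htr.trans (add_le_add_left hmod' M2)
  refine (cheb_pow (Icc (-(H : ℤ)) H) (fun x => FF c T I y Z x) _ ((I.card : ℝ) * L ^ (-e')) (2 * R) ⟨R, by ring⟩ (by positivity) hall).trans ?_
  rw [add_div]
  have hLB : (0 : ℝ) < L ^ B := by positivity
  -- the main term
  have ht1 : (2 * (H : ℝ) + 1) * M1 / ((I.card : ℝ) * L ^ (-e')) ^ (2 * R) ≤ (2 * H + 1) / (2 * L ^ B) := by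
    have hs0 : 0 < √(y : ℝ) := Real.sqrt_pos.2 hy0
    have e1 : M1 / ((I.card : ℝ) * L ^ (-e')) ^ (2 * R) = ((2 * R).factorial : ℝ) * (2 * Real.exp 2) * (W / (√(y : ℝ) * L ^ (-e'))) ^ (2 * R) := by
      rw [hM1]
      have e2 : (I.card : ℝ) * W / √(y : ℝ) = (W / (√(y : ℝ) * L ^ (-e'))) * ((I.card : ℝ) * L ^ (-e')) := by
        field_simp
      rw [e2, mul_pow]
      have : ((I.card : ℝ) * L ^ (-e')) ^ (2 * R) ≠ 0 := by positivity
      field_simp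
    have h5 : W / (√(y : ℝ) * L ^ (-e')) ≤ L ^ (-ε2) := by
      rw [div_le_iff₀ (by positivity)]
      have h6 : L ^ (δ / 2) ≤ √(y : ℝ) := by
        apply Real.le_sqrt_of_sq_le
        rw [← Real.rpow_natCast, ← Real.rpow_mul hL0.le]
        have e3 : δ / 2 * ((2 : ℕ) : ℝ) = δ := by push_cast; ring
        rw [e3]
        exact hy
      calc W = L ^ (-ε2) * (L ^ (δ / 2) * L ^ (-e')) := by
            rw [hW, ← hadd, ← hadd]
            congr 1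
            rw [hε2]
            ring
        _ ≤ L ^ (-ε2) * (√(y : ℝ) * L ^ (-e')) := by gcongr
    have h7 : (W / (√(y : ℝ) * L ^ (-e'))) ^ (2 * R) ≤ (L ^ (B + 1))⁻¹ := by
      calc (W / (√(y : ℝ) * L ^ (-e'))) ^ (2 * R) ≤ (L ^ (-ε2)) ^ (2 * R) := pow_le_pow_left₀ (by positivity) h5 _
        _ = L ^ (-(2 * ε2 * R)) := by
            rw [← Real.rpow_natCast, ← Real.rpow_mul hL0.le]
            congr 1
            push_cast
            ring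
        _ ≤ L ^ (-((B : ℝ) + 1)) := hmon _ _ (by linarith)
        _ = (L ^ (B + 1))⁻¹ := by
            rw [Real.rpow_neg hL0.le]
            congr 1
            rw [← Real.rpow_natCast]
            push_cast
            rfl
    have e4 : (2 * (H : ℝ) + 1) * M1 / ((I.card : ℝ) * L ^ (-e')) ^ (2 * R) = (2 * H + 1) * (M1 / ((I.card : ℝ) * L ^ (-e')) ^ (2 * R)) := by ring
    rw [e4, e1]
    have e5 : (2 * (H : ℝ) + 1) / (2 * L ^ B) = (2 * H + 1) * (L / 2 * (L ^ (B + 1))⁻¹) := by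
      rw [pow_succ]
      field_simp
    rw [e5]
    apply mul_le_mul_of_nonneg_left _ hH0
    apply mul_le_mul _ h7 (by positivity) (by positivity)
    linarith
  -- the error term
  have ht2 : M2 / ((I.card : ℝ) * L ^ (-e')) ^ (2 * R) ≤ (2 * H + 1) / (2 * L ^ B) := by
    have h5 : (2 : ℝ) * (Vz Z)⁻¹ ^ k / L ^ (-e') ≤ L ^ (ce + 2) := by
      rw [Real.rpow_neg hL0.le, div_inv_eq_mul]
      calc 2 * (Vz Z)⁻¹ ^ k * L ^ e' ≤ L * L * L ^ (ce : ℝ) := by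
            have := hmon e' ce hce'
            gcongr
            linarith
        _ = L ^ (ce + 2) := by rw [Real.rpow_natCast]; ring
    have e1 : M2 / ((I.card : ℝ) * L ^ (-e')) ^ (2 * R) = (2 * (Vz Z)⁻¹ ^ k / L ^ (-e')) ^ (2 * R) * ((2 * H + 1) / L ^ U) := by
      have eA : (Vz Z)⁻¹ ^ (2 * R * k) = ((Vz Z)⁻¹ ^ k) ^ (2 * R) := by rw [← pow_mul, mul_comm]
      rw [hM2, eA]
      exact dux _ _ _ _ _ hI0 (by positivity)
    have e2 : (L ^ (ce + 2)) ^ (2 * R) * ((2 * (H : ℝ) + 1) / L ^ U) = (2 * H + 1) / L ^ (B + 1) := by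
      have e3 : L ^ U = (L ^ (ce + 2)) ^ (2 * R) * L ^ (B + 1) := by
        rw [hU, ← pow_mul, ← pow_add]
        congr 1
        ring
      rw [e3]
      field_simp
    rw [e1]
    calc (2 * (Vz Z)⁻¹ ^ k / L ^ (-e')) ^ (2 * R) * ((2 * (H : ℝ) + 1) / L ^ U) ≤ (L ^ (ce + 2)) ^ (2 * R) * ((2 * (H : ℝ) + 1) / L ^ U) := by
          gcongr
      _ = (2 * H + 1) / L ^ (B + 1) := e2
      _ ≤ (2 * H + 1) / (2 * L ^ B) := by
          apply div_le_div_of_nonneg_left hH0 (by positivity)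
          rw [pow_succ, mul_comm]
          gcongr
          linarith
  calc _ ≤ (2 * (H : ℝ) + 1) / (2 * L ^ B) + (2 * (H : ℝ) + 1) / (2 * L ^ B) := add_le_add ht1 ht2
    _ = _ := by field_simp; ring

end Pool.Agent.T9h23.Un
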