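import Mathlib
import Pool.Agent.T9h23.Cor.Pol

/-! Compositions modulo a prime; the number of zeros. -/

set_option autoImplicit false

namespace Pool.Agent.T9h23.Un
open Finset Polynomial
open Pool.Agent.H373R2.T7
open Pool.Agent.T9h23.Cor

lemma eval_map_int (q : ℤ[X]) (p : ℕ) (n : ℤ) : (q.map (Int.castRingHom (ZMod p))).eval (n : ZMod p) = ((q.eval n : ℤ) : ZMod p) := by
  rw [eval_intCast_map]
  rfl

lemma om_le_deg' (q : ℤ[X]) {p : ℕ} (hp : p.Prime) (hne : q.map (Int.castRingHom (ZMod p)) ≠ 0) : om q p ≤ q.natDegree := by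
  classical
  have : Fact p.Prime := ⟨hp⟩
  have h1 : om q p ≤ ((q.map (Int.castRingHom (ZMod p))).roots.toFinset).card := by
    unfold om
    apply card_le_card_of_injOn (fun n : ℕ => ((n : ℤ) : ZMod p))
    · intro n hn
      rw [mem_coe, mem_filter, mem_range] at hn
      rw [mem_coe, Multiset.mem_toFinset, mem_roots hne]
      unfold IsRoot
      rw [eval_map_int]
      exact (ZMod.intCast_zmod_eq_zero_iff_dvd _ _).2 hn.2
    · intro a ha b hb hab
      rw [mem_coe, mem_filter, mem_range] at ha hb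
      simp only [Int.cast_natCast] at hab
      rw [ZMod.natCast_eq_natCast_iff] at hab
      exact Nat.ModEq.eq_of_lt_of_lt hab ha.1 hb.1
  exact h1.trans ((Multiset.toFinset_card_le _).trans ((card_roots' _).trans natDegree_map_le))

/-- the number of zeros in an interval -/
lemma count_om (q : ℤ[X]) {p : ℕ} (hp : 0 < p) (x : ℕ) :
    ((((Icc 1 x).filter (fun n : ℕ => (p : ℤ) ∣ q.eval (n : ℤ))).card : ℕ) : ℝ) ≤ om q p * ((x : ℝ) / p + 1) := by
  classical
  have h1 : ((Icc 1 x).filter (fun n : ℕ => (p : ℤ) ∣ q.eval (n : ℤ))).card ≤ om q p * (x / p + 1) := by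
    unfold om
    rw [← card_range (x / p + 1), ← card_product]
    apply card_le_card_of_injOn (fun n : ℕ => (n % p, n / p))
    · intro n hn
      rw [mem_coe, mem_filter, mem_Icc] at hn
      rw [mem_coe, mem_product, mem_filter, mem_range, mem_range]
      refine ⟨⟨Nat.mod_lt _ hp, ?_⟩, ?_⟩
      · have h2 : (p : ℤ) ∣ (n : ℤ) - ((n % p : ℕ) : ℤ) := by
          rw [Int.natCast_mod]
          exact Int.dvd_self_sub_emod
        have h3 : ((n : ℤ) - ((n % p : ℕ) : ℤ)) ∣ q.eval (n : ℤ) - q.eval ((n % p : ℕ) : ℤ) := sub_dvd_eval_sub _ _ q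
        have h4 := dvd_sub hn.2 (h2.trans h3)
        simpa using h4
      · have : n / p ≤ x / p := Nat.div_le_div_right hn.1.2
        show n / p < x / p + 1
        omega
    · intro a _ b _ h
      have h1 : a % p = b % p := congrArg Prod.fst h
      have h2 : a / p = b / p := congrArg Prod.snd h
      rw [← Nat.div_add_mod a p, ← Nat.div_add_mod b p, h1, h2]
  calc ((((Icc 1 x).filter (fun n : ℕ => (p : ℤ) ∣ q.eval (n : ℤ))).card : ℕ) : ℝ) ≤ ((om q p * (x / p + 1) : ℕ) : ℝ) := by exact_mod_cast h1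
    _ = om q p * (((x / p : ℕ) : ℝ) + 1) := by push_cast; rfl
    _ ≤ om q p * ((x : ℝ) / p + 1) := by
        have : ((x / p : ℕ) : ℝ) ≤ (x : ℝ) / p := Nat.cast_div_le
        gcongr

/-- nonconstant modulo `p` -/
def NC (c : ℤ[X]) (p : ℕ) : Prop := 1 ≤ (c.map (Int.castRingHom (ZMod p))).natDegree

lemma comp_ne {c g : ℤ[X]} {p : ℕ} (hp : p.Prime) (hc : NC c p) (hg : g.Monic) (hg1 : 1 ≤ g.natDegree) (a : ℤ) :
    (C a + c.comp g).map (Int.castRingHom (ZMod p)) ≠ 0 := by
  have : Fact p.Prime := ⟨hp⟩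
  intro h
  have h1 : ((C a + c.comp g).map (Int.castRingHom (ZMod p))).natDegree =
      (c.map (Int.castRingHom (ZMod p))).natDegree * g.natDegree := by
    rw [Polynomial.map_add, map_C, natDegree_C_add, map_comp, natDegree_comp, hg.natDegree_map]
  rw [h, natDegree_zero] at h1
  have h2 : 0 < (c.map (Int.castRingHom (ZMod p))).natDegree * g.natDegree := Nat.mul_pos hc hg1
  omega

/-- compositions with different monic polynomials are different -/
lemma comp_inj {K : Type*} [Field K] (c g g' : K[X]) (hc : 1 ≤ c.natDegree) (he : (c.natDegree : K) ≠ 0)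
    (hg : g.Monic) (hg' : g'.Monic) (hg1 : 1 ≤ g.natDegree) (hne : g ≠ g') : c.comp g ≠ c.comp g' := by
  intro h
  by_cases hd : g.natDegree = g'.natDegree
  · obtain ⟨m, hm⟩ : ∃ m, m = g.natDegree := ⟨_, rfl⟩
    obtain ⟨e, hee⟩ : ∃ e, e = c.natDegree := ⟨_, rfl⟩
    obtain ⟨S, hS⟩ : ∃ S : ℕ → K[X], S = fun i => ∑ j ∈ range i, g' ^ j * g ^ (i - 1 - j) := ⟨_, rfl⟩
    have h1 : c.comp g' - c.comp g = (g' - g) * ∑ i ∈ range (e + 1), C (c.coeff i) * S i := by
      unfold comp
      rw [eval₂_eq_sum_range, eval₂_eq_sum_range, ← hee, ← sum_sub_distrib, mul_sum]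
      refine sum_congr rfl fun i _ => ?_
      have h2 := geom_sum₂_mul g' g i
      rw [hS]
      simp only
      rw [← mul_sub, ← h2]
      ring
    rw [h, sub_self] at h1
    have hgg : g' - g ≠ 0 := sub_ne_zero.2 (Ne.symm hne)
    have h3 : ∑ i ∈ range (e + 1), C (c.coeff i) * S i = 0 := by
      rcases mul_eq_zero.1 h1.symm with h4 | h4
      · exact absurd h4 hgg
      · exact h4
    have h4 : (∑ i ∈ range (e + 1), C (c.coeff i) * S i).coeff ((e - 1) * m) = c.coeff e * e := by
      rw [finsetSum_coeff, sum_range_succ]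
      have hlow : ∀ i ∈ range e, (C (c.coeff i) * S i).coeff ((e - 1) * m) = 0 := by
        intro i hi
        rw [mem_range] at hi
        rw [coeff_C_mul]
        have h5 : (S i).coeff ((e - 1) * m) = 0 := by
          rw [hS]
          simp only
          rw [finsetSum_coeff]
          apply sum_eq_zero
          intro j hj
          rw [mem_range] at hj
          apply coeff_eq_zero_of_natDegree_lt
          have h6 : (g' ^ j * g ^ (i - 1 - j)).natDegree = (i - 1) * m := by
            rw [(hg'.pow j).natDegree_mul (hg.pow _), hg'.natDegree_pow, hg.natDegree_pow, ← hd, ← hm, ← Nat.add_mul]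
            congr 1
            omega
          rw [h6]
          apply Nat.mul_lt_mul_of_pos_right _ (by omega)
          omega
        rw [h5, mul_zero]
      rw [sum_eq_zero hlow, zero_add, coeff_C_mul]
      congr 1
      rw [hS]
      simp only
      rw [finsetSum_coeff]
      have h7 : ∀ j ∈ range e, (g' ^ j * g ^ (e - 1 - j)).coeff ((e - 1) * m) = 1 := by
        intro j hj
        rw [mem_range] at hj
        have h6 : (g' ^ j * g ^ (e - 1 - j)).natDegree = (e - 1) * m := by
          rw [(hg'.pow j).natDegree_mul (hg.pow _), hg'.natDegree_pow, hg.natDegree_pow, ← hd, ← hm, ← Nat.add_mul]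
          congr 1
          omega
        have h8 : (g' ^ j * g ^ (e - 1 - j)).Monic := (hg'.pow j).mul (hg.pow _)
        rw [← h6]
        exact h8.coeff_natDegree
      rw [sum_congr rfl h7, sum_const, card_range, nsmul_eq_mul, mul_one]
    rw [h3, coeff_zero] at h4
    have h5 : c.coeff e ≠ 0 := by
      rw [hee]
      exact leadingCoeff_ne_zero.2 (by
        intro h0
        rw [h0, natDegree_zero] at hc
        omega)
    rw [hee] at h4 h5
    exact (mul_ne_zero h5 he) h4.symm
  · have h1 : c.natDegree * g.natDegree = c.natDegree * g'.natDegree := by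
      rw [← natDegree_comp, ← natDegree_comp, h]
    exact hd (Nat.eq_of_mul_eq_mul_left (by omega) h1)

lemma comp_sub_ne {c g g' : ℤ[X]} {p : ℕ} (hp : p.Prime) (hc : NC c p) (hcp : c.natDegree < p) (hg : g.Monic) (hg' : g'.Monic)
    (hg1 : 1 ≤ g.natDegree) (hne : g.map (Int.castRingHom (ZMod p)) ≠ g'.map (Int.castRingHom (ZMod p))) :
    (c.comp g - c.comp g').map (Int.castRingHom (ZMod p)) ≠ 0 := by
  have : Fact p.Prime := ⟨hp⟩
  rw [Polynomial.map_sub, map_comp, map_comp, sub_ne_zero]
  have hle : (c.map (Int.castRingHom (ZMod p))).natDegree ≤ c.natDegree := natDegree_map_le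
  apply comp_inj _ _ _ hc _ (hg.map _) (hg'.map _) (by rw [hg.natDegree_map]; exact hg1) hne
  intro h0
  rw [ZMod.natCast_eq_zero_iff] at h0
  have h1 := Nat.le_of_dvd (by unfold NC at hc; omega) h0
  omega

end Pool.Agent.T9h23.Un
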