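import Mathlib
import Pool.Agent.T9h23.Un.E5
import Pool.Agent.T9h23.Un.E6

/-! The large deviations for compositions with monic polynomials. -/

set_option autoImplicit false

namespace Pool.Agent.T9h23.Un
open Finset Polynomial
open Pool.Agent.H373R2.T7
open Pool.Agent.T9h23.Cor

/-- the points -/
noncomputable def TG (G : Finset ℤ[X]) (n : ℕ) : Finset ℤ := G.image (fun g => g.eval (n : ℤ))

lemma card_TG (G : Finset ℤ[X]) (n : ℕ) : (TG G n).card ≤ G.card := card_image_le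

/-- the admissible inner polynomials -/
structure Adm (D : ℕ) (M : ℝ) (G : Finset ℤ[X]) : Prop where
  mon : ∀ g ∈ G, g.Monic
  deg : ∀ g ∈ G, 1 ≤ g.natDegree ∧ g.natDegree ≤ D
  coef : ∀ g ∈ G, ∀ i, |(g.coeff i : ℝ)| ≤ M

lemma hN_G {D Dc : ℕ} {M : ℝ} {G : Finset ℤ[X]} (hG : Adm D M G) (c : ℤ[X]) (hc : c.natDegree ≤ Dc) {p : ℕ} (hp : p.Prime)
    (hnc : NC c p) (x : ℕ) (a : ℤ) :
    (open Classical in (((Icc 1 x).filter (fun n : ℕ => ∃ t ∈ TG G n, (p : ℤ) ∣ a + c.eval t)).card : ℝ)) ≤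
      G.card * ((Dc * D : ℕ) * ((x : ℝ) / p + 1)) := by
  classical
  have hsub : (Icc 1 x).filter (fun n : ℕ => ∃ t ∈ TG G n, (p : ℤ) ∣ a + c.eval t) ⊆
      G.biUnion (fun g => (Icc 1 x).filter (fun n : ℕ => (p : ℤ) ∣ (C a + c.comp g).eval (n : ℤ))) := by
    intro n hn
    rw [mem_filter] at hn
    obtain ⟨hn1, t, ht, hd⟩ := hn
    unfold TG at ht
    rw [mem_image] at ht
    obtain ⟨g, hg, rfl⟩ := ht
    rw [mem_biUnion]
    refine ⟨g, hg, ?_⟩
    rw [mem_filter, eval_add, eval_C, eval_comp]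
    exact ⟨hn1, hd⟩
  have h1 := (card_le_card hsub).trans card_biUnion_le
  calc (((Icc 1 x).filter (fun n : ℕ => ∃ t ∈ TG G n, (p : ℤ) ∣ a + c.eval t)).card : ℝ)
      ≤ ∑ g ∈ G, ((((Icc 1 x).filter (fun n : ℕ => (p : ℤ) ∣ (C a + c.comp g).eval (n : ℤ))).card : ℕ) : ℝ) := by exact_mod_cast h1
    _ ≤ ∑ _g ∈ G, (Dc * D : ℕ) * ((x : ℝ) / p + 1) := by
        apply sum_le_sum
        intro g hg
        refine (count_om _ hp.pos x).trans ?_
        have h2 := om_le_deg' (C a + c.comp g) hp (comp_ne hp hnc (hG.mon g hg) (hG.deg g hg).1 a)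
        have h3 : (C a + c.comp g).natDegree ≤ Dc * D := by
          rw [natDegree_C_add, natDegree_comp]
          exact Nat.mul_le_mul hc (hG.deg g hg).2
        have h4 : (om (C a + c.comp g) p : ℝ) ≤ ((Dc * D : ℕ) : ℝ) := by exact_mod_cast h2.trans h3
        gcongr
    _ = _ := by rw [sum_const, nsmul_eq_mul]

/-- the bound for the coincidences modulo `p` -/
noncomputable def GB (Dc D x : ℕ) (G : Finset ℤ[X]) (p : ℕ) : ℝ :=
  open Classical in ∑ q ∈ G.offDiag, ((Dc * D : ℕ) * ((x : ℝ) / p + 1) +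
    x * (if q.1.map (Int.castRingHom (ZMod p)) = q.2.map (Int.castRingHom (ZMod p)) then 1 else 0))

lemma hG_G {D Dc : ℕ} {M : ℝ} {G : Finset ℤ[X]} (hG : Adm D M G) (c : ℤ[X]) (hc : c.natDegree ≤ Dc) {p : ℕ} (hp : p.Prime)
    (hpD : Dc < p) (hnc : NC c p) (x : ℕ) :
    (open Classical in ((∑ n ∈ Icc 1 x, ((TG G n).offDiag.filter (fun q => (p : ℤ) ∣ c.eval q.1 - c.eval q.2)).card : ℕ) : ℝ)) ≤
      GB Dc D x G p := by
  classical
  have h1 : ∑ n ∈ Icc 1 x, ((TG G n).offDiag.filter (fun q => (p : ℤ) ∣ c.eval q.1 - c.eval q.2)).card ≤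
      ∑ q ∈ G.offDiag, ((Icc 1 x).filter (fun n : ℕ => (p : ℤ) ∣ (c.comp q.1 - c.comp q.2).eval (n : ℤ))).card := by
    have h2 : ∀ n ∈ Icc 1 x, ((TG G n).offDiag.filter (fun q => (p : ℤ) ∣ c.eval q.1 - c.eval q.2)).card ≤
        (G.offDiag.filter (fun q => (p : ℤ) ∣ (c.comp q.1 - c.comp q.2).eval (n : ℤ))).card := by
      intro n _
      have hsub : (TG G n).offDiag.filter (fun q => (p : ℤ) ∣ c.eval q.1 - c.eval q.2) ⊆
          (G.offDiag.filter (fun q => (p : ℤ) ∣ (c.comp q.1 - c.comp q.2).eval (n : ℤ))).image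
            (fun q => (q.1.eval (n : ℤ), q.2.eval (n : ℤ))) := by
        rintro ⟨s, t⟩ hq
        rw [mem_filter, mem_offDiag] at hq
        obtain ⟨⟨hs, ht, hst⟩, hd⟩ := hq
        simp only at hs ht hst hd
        unfold TG at hs ht
        rw [mem_image] at hs ht
        obtain ⟨g, hg, rfl⟩ := hs
        obtain ⟨g', hg', rfl⟩ := ht
        rw [mem_image]
        refine ⟨(g, g'), ?_, rfl⟩
        rw [mem_filter, mem_offDiag]
        refine ⟨⟨hg, hg', ?_⟩, ?_⟩
        · intro h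
          have h' : g = g' := h
          exact hst (by rw [h'])
        · rw [eval_sub, eval_comp, eval_comp]
          exact hd
      exact (card_le_card hsub).trans card_image_le
    refine (sum_le_sum h2).trans (le_of_eq ?_)
    simp only [card_filter]
    rw [sum_comm]
  unfold GB
  calc ((∑ n ∈ Icc 1 x, ((TG G n).offDiag.filter (fun q => (p : ℤ) ∣ c.eval q.1 - c.eval q.2)).card : ℕ) : ℝ)
      ≤ ∑ q ∈ G.offDiag, ((((Icc 1 x).filter (fun n : ℕ => (p : ℤ) ∣ (c.comp q.1 - c.comp q.2).eval (n : ℤ))).card : ℕ) : ℝ) := by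
        exact_mod_cast h1
    _ ≤ _ := by
        apply sum_le_sum
        rintro ⟨g, g'⟩ hq
        rw [mem_offDiag] at hq
        obtain ⟨hg, hg', _⟩ := hq
        simp only at hg hg' ⊢
        have hx : (0 : ℝ) ≤ (x : ℝ) / p := by positivity
        split_ifs with h
        · have h3 : (((Icc 1 x).filter (fun n : ℕ => (p : ℤ) ∣ (c.comp g - c.comp g').eval (n : ℤ))).card : ℝ) ≤ x := by
            have h4 := card_filter_le (Icc 1 x) (fun n : ℕ => (p : ℤ) ∣ (c.comp g - c.comp g').eval (n : ℤ))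
            rw [Nat.card_Icc, Nat.add_sub_cancel] at h4
            exact_mod_cast h4
          have h5 : (0 : ℝ) ≤ ((Dc * D : ℕ) : ℝ) * ((x : ℝ) / p + 1) := by positivity
          linarith
        · rw [mul_zero, add_zero]
          refine (count_om _ hp.pos x).trans ?_
          have h2 := om_le_deg' (c.comp g - c.comp g') hp
            (comp_sub_ne hp hnc (by omega) (hG.mon g hg) (hG.mon g' hg') (hG.deg g hg).1 h)
          have h3 : (c.comp g - c.comp g').natDegree ≤ Dc * D := by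
            refine (natDegree_sub_le _ _).trans (max_le ?_ ?_)
            · rw [natDegree_comp]
              exact Nat.mul_le_mul hc (hG.deg g hg).2
            · rw [natDegree_comp]
              exact Nat.mul_le_mul hc (hG.deg g' hg').2
          have h4 : (om (c.comp g - c.comp g') p : ℝ) ≤ ((Dc * D : ℕ) : ℝ) := by exact_mod_cast h2.trans h3
          gcongr

lemma few_same {M : ℝ} {g g' : ℤ[X]} (hg : ∀ i, |(g.coeff i : ℝ)| ≤ M) (hg' : ∀ i, |(g'.coeff i : ℝ)| ≤ M) (hne : g ≠ g')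
    (y Z : ℕ) (hy : (1 : ℝ) ≤ y) : (open Classical in (y : ℝ) ^ ((pz Z \ pz y).filter (fun p : ℕ =>
      g.map (Int.castRingHom (ZMod p)) = g'.map (Int.castRingHom (ZMod p)))).card) ≤ 2 * M := by
  classical
  obtain ⟨i, hi⟩ : ∃ i, g.coeff i ≠ g'.coeff i := by
    by_contra h
    push Not at h
    exact hne (Polynomial.ext h)
  have hv : g.coeff i - g'.coeff i ≠ 0 := sub_ne_zero.2 hi
  have h1 := few_primes y Z (g.coeff i - g'.coeff i) hv
  have h2 : ((pz Z \ pz y).filter (fun p : ℕ => g.map (Int.castRingHom (ZMod p)) = g'.map (Int.castRingHom (ZMod p)))).card ≤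
      ((pz Z \ pz y).filter (fun p : ℕ => (p : ℤ) ∣ g.coeff i - g'.coeff i)).card := by
    apply card_le_card
    intro p hp
    rw [mem_filter] at hp ⊢
    refine ⟨hp.1, ?_⟩
    have h3 := congrArg (fun q : (ZMod p)[X] => q.coeff i) hp.2
    simp only [coeff_map, eq_intCast] at h3
    rw [← ZMod.intCast_zmod_eq_zero_iff_dvd, Int.cast_sub, h3, sub_self]
  refine (pow_le_pow_right₀ hy h2).trans (h1.trans ?_)
  push_cast
  refine (abs_sub _ _).trans ?_
  have := hg i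
  have := hg' i
  linarith

/-- the large deviations for compositions -/
theorem local_G (k D Dc E B A : ℕ) (δ e' : ℝ) (hk : 1 ≤ k) (hδ : 0 < δ) (he' : 0 < e') (he'δ : e' < δ / 2) :
    ∃ H0 : ℕ, ∀ H : ℕ, H0 ≤ H → ∀ y Z : ℕ, Real.log H ^ δ ≤ y → y ≤ Z → (Z : ℝ) ≤ Real.log H ^ E →
    ∀ c : ℤ[X], c.natDegree ≤ Dc → (∀ p ∈ pz Z \ pz y, NC c p) →
    ∀ G : Finset ℤ[X], G.card ≤ k → Adm D (Real.log H ^ A) G → ∀ x : ℕ, y ≤ x →
    (open Classical in (((Icc (-(H : ℤ)) H).filter (fun u => (x : ℝ) * Real.log H ^ (-e') <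
      |FF (fun t => c.eval t) (TG G) (Icc 1 x) y Z u|)).card : ℝ)) ≤ (2 * H + 1) / Real.log H ^ B := by
  classical
  obtain ⟨K1, hK1⟩ : ∃ K1, K1 = k * (Dc * D) := ⟨_, rfl⟩
  obtain ⟨n0, h0⟩ := local_x k K1 E B δ e' hk hδ he' he'δ
  obtain ⟨κ, hκ⟩ : ∃ κ : ℝ, κ = ((A : ℝ) + 1) / δ := ⟨_, rfl⟩
  have hκ0 : 0 ≤ κ := by rw [hκ]; positivity
  obtain ⟨n1, h1⟩ := Vz_small E (δ / 4) (by positivity)
  obtain ⟨n2, h2⟩ := ev_rpow (2 * ((k : ℝ) ^ 2 * ((Dc * D : ℕ) + κ))) (δ / 4) (by positivity)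
  obtain ⟨n3, h3⟩ := ev_rpow (Dc + 1) δ hδ
  obtain ⟨n4, h4⟩ := ev_L' 3
  refine ⟨max (max n0 n1) (max (max n2 n3) n4), fun H hH y Z hy hyZ hZE c hc hnc G hGk hG x hx => ?_⟩
  have hn0 : n0 ≤ H := ((le_max_left _ _).trans (le_max_left _ _)).trans hH
  have hn1 : n1 ≤ H := ((le_max_right _ _).trans (le_max_left _ _)).trans hH
  have hn2 : n2 ≤ H := (((le_max_left _ _).trans (le_max_left _ _)).trans (le_max_right _ _)).trans hH
  have hn3 : n3 ≤ H := (((le_max_right _ _).trans (le_max_left _ _)).trans (le_max_right _ _)).trans hH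
  have hn4 : n4 ≤ H := ((le_max_right _ _).trans (le_max_right _ _)).trans hH
  have a2 := h2 H hn2
  have a3 := h3 H hn3
  have hL3 := h4 H hn4
  have hcard : (Icc 1 x).card = x := by rw [Nat.card_Icc, Nat.add_sub_cancel]
  have hpS : ∀ p ∈ pz Z \ pz y, p.Prime ∧ y < p := by
    intro p hp
    rw [mem_sdiff, mem_pz, mem_pz] at hp
    refine ⟨hp.1.2, ?_⟩
    by_contra h
    exact hp.2 ⟨by omega, hp.1.2⟩
  have hDy : Dc < y := by
    have : (Dc : ℝ) + 1 ≤ y := a3.trans hy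
    have h5 : ((Dc + 1 : ℕ) : ℝ) ≤ y := by push_cast; exact this
    have h6 : Dc + 1 ≤ y := by exact_mod_cast h5
    omega
  have hyr : (1 : ℝ) ≤ y := by
    have : 1 ≤ y := by omega
    exact_mod_cast this
  have hy0 : (0 : ℝ) < y := by linarith
  have hmain := h0 H hn0 y Z hy hyZ hZE (fun t => c.eval t) (TG G) (Icc 1 x) (fun n _ => (card_TG G n).trans hGk)
    (by rw [hcard]; exact hx)
    (by
      intro p hp a
      have h5 := hN_G hG c hc (hpS p hp).1 (hnc p hp) x a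
      rw [hcard]
      refine h5.trans ?_
      have hGkr : (G.card : ℝ) ≤ k := by exact_mod_cast hGk
      rw [hK1]
      push_cast
      have h6 : (0 : ℝ) ≤ (Dc : ℝ) * D * ((x : ℝ) / p + 1) := by positivity
      calc (G.card : ℝ) * ((Dc : ℝ) * D * ((x : ℝ) / p + 1)) ≤ k * ((Dc : ℝ) * D * ((x : ℝ) / p + 1)) := by gcongr
        _ = _ := by ring)
    (GB Dc D x G)
    (by
      intro p hp
      exact hG_G hG c hc (hpS p hp).1 (by have := (hpS p hp).2; omega) (hnc p hp) x)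
  rw [hcard] at hmain
  apply hmain
  -- the sum over the primes
  obtain ⟨L, hLd⟩ : ∃ L, L = Real.log H := ⟨_, rfl⟩
  have hVz := h1 H hn1 Z (by omega) hZE
  rw [← hLd] at a2 a3 hL3 hy hZE hVz
  have hL0 : 0 < L := by linarith
  have hL1 : 1 ≤ L := by linarith
  have hsq := sum_sq_tail y Z (by omega)
  obtain ⟨V, hV⟩ : ∃ V : ℝ, V = L ^ (δ / 4) := ⟨_, rfl⟩
  have hV0 : 0 < V := by rw [hV]; positivity
  rw [← hV] at a2 hVz
  have hinv : ∑ p ∈ pz Z \ pz y, 1 / (p : ℝ) ≤ V := by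
    have h5 := exp_sum_inv Z
    have h6 := Real.add_one_le_exp (∑ p ∈ pz Z, 1 / (p : ℝ))
    have h7 : ∑ p ∈ pz Z \ pz y, 1 / (p : ℝ) ≤ ∑ p ∈ pz Z, 1 / (p : ℝ) :=
      sum_le_sum_of_subset_of_nonneg sdiff_subset fun p _ _ => by positivity
    linarith
  obtain ⟨F, hF⟩ : ∃ F : ℝ, F = ((Dc * D : ℕ) : ℝ) := ⟨_, rfl⟩
  have hF0 : 0 ≤ F := by rw [hF]; positivity
  have hx0 : (0 : ℝ) ≤ x := Nat.cast_nonneg x
  have e1 : ∑ p ∈ pz Z \ pz y, GB Dc D x G p / p = ∑ q ∈ G.offDiag, (F * (x * (∑ p ∈ pz Z \ pz y, 1 / (p : ℝ) ^ 2) + ∑ p ∈ pz Z \ pz y, 1 / (p : ℝ)) +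
      x * ∑ p ∈ (pz Z \ pz y).filter (fun p : ℕ => q.1.map (Int.castRingHom (ZMod p)) = q.2.map (Int.castRingHom (ZMod p))), 1 / (p : ℝ)) := by
    unfold GB
    simp only [sum_div]
    rw [sum_comm]
    refine sum_congr rfl fun q _ => ?_
    rw [← hF, sum_filter, mul_sum, ← sum_add_distrib, mul_sum, mul_sum, ← sum_add_distrib]
    refine sum_congr rfl fun p hp => ?_
    have hp0 : (p : ℝ) ≠ 0 := by exact_mod_cast (hpS p hp).1.ne_zero
    split_ifs
    · field_simp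
    · field_simp
      ring
  rw [e1]
  have hone : ∀ q ∈ G.offDiag, F * (x * (∑ p ∈ pz Z \ pz y, 1 / (p : ℝ) ^ 2) + ∑ p ∈ pz Z \ pz y, 1 / (p : ℝ)) +
      x * ∑ p ∈ (pz Z \ pz y).filter (fun p : ℕ => q.1.map (Int.castRingHom (ZMod p)) = q.2.map (Int.castRingHom (ZMod p))), 1 / (p : ℝ) ≤
      F * (x * (1 / y) + V) + x * (κ * (1 / y)) := by
    rintro ⟨g, g'⟩ hq
    rw [mem_offDiag] at hq
    obtain ⟨hg, hg', hne⟩ := hq
    simp only at hg hg' hne ⊢
    apply add_le_add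
    · gcongr
    · apply mul_le_mul_of_nonneg_left _ hx0
      have h5 := few_same (hG.coef g hg) (hG.coef g' hg') hne y Z hyr
      rw [← hLd] at h5
      obtain ⟨S, hS⟩ : ∃ S, S = (pz Z \ pz y).filter (fun p : ℕ => g.map (Int.castRingHom (ZMod p)) = g'.map (Int.castRingHom (ZMod p))) := ⟨_, rfl⟩
      rw [← hS] at h5 ⊢
      have h6 : (S.card : ℝ) ≤ κ := by
        have h7 : L ^ (δ * S.card) ≤ L ^ ((A : ℝ) + 1) := by
          calc L ^ (δ * S.card) = (L ^ δ) ^ S.card := by rw [Real.rpow_mul hL0.le, Real.rpow_natCast]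
            _ ≤ (y : ℝ) ^ S.card := pow_le_pow_left₀ (by positivity) hy _
            _ ≤ 2 * L ^ A := h5
            _ ≤ L * L ^ A := by gcongr; linarith
            _ = L ^ ((A : ℝ) + 1) := by
                rw [Real.rpow_add hL0, Real.rpow_natCast, Real.rpow_one]
                ring
        have h8 : δ * S.card ≤ (A : ℝ) + 1 := (Real.rpow_le_rpow_left_iff (by linarith)).1 h7
        rw [hκ, le_div_iff₀ hδ]
        linarith
      calc ∑ p ∈ S, 1 / (p : ℝ) ≤ ∑ _p ∈ S, 1 / (y : ℝ) := by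
            apply sum_le_sum
            intro p hp
            rw [hS, mem_filter] at hp
            have h7 : (y : ℝ) ≤ p := by exact_mod_cast (hpS p hp.1).2.le
            exact one_div_le_one_div_of_le hy0 h7
        _ = S.card * (1 / y) := by rw [sum_const, nsmul_eq_mul]
        _ ≤ κ * (1 / y) := by gcongr
  refine (sum_le_sum hone).trans ?_
  rw [sum_const, nsmul_eq_mul]
  have hoff : (G.offDiag.card : ℝ) ≤ (k : ℝ) ^ 2 := by
    have h5 : G.offDiag.card ≤ k ^ 2 := by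
      rw [offDiag_card]
      calc G.card * G.card - G.card ≤ G.card * G.card := Nat.sub_le _ _
        _ ≤ k * k := Nat.mul_le_mul hGk hGk
        _ = k ^ 2 := by ring
    exact_mod_cast h5
  obtain ⟨s, hs⟩ : ∃ s : ℝ, s = √(y : ℝ) := ⟨_, rfl⟩
  rw [← hs]
  have hss : s * s = y := by rw [hs]; exact Real.mul_self_sqrt hy0.le
  have hs0 : 0 < s := by rw [hs]; exact Real.sqrt_pos.2 hy0
  have hVs : V * V ≤ s := by
    have h6 : L ^ (δ / 2) ≤ s := by
      rw [hs]
      apply Real.le_sqrt_of_sq_le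
      rw [← Real.rpow_natCast, ← Real.rpow_mul hL0.le]
      have e3 : δ / 2 * ((2 : ℕ) : ℝ) = δ := by push_cast; ring
      rw [e3]
      exact hy
    have h7 : V * V = L ^ (δ / 2) := by rw [hV, ← Real.rpow_add hL0]; congr 1; ring
    rw [h7]; exact h6
  have hV1 : 1 ≤ V := by rw [hV]; exact Real.one_le_rpow hL1 (by positivity)
  have hxy : (y : ℝ) ≤ x := by exact_mod_cast hx
  obtain ⟨N, hNd⟩ : ∃ N : ℝ, N = (k : ℝ) ^ 2 * (F + κ) := ⟨_, rfl⟩
  rw [← hF, ← hNd] at a2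
  have hN0 : 0 ≤ N := by rw [hNd]; positivity
  have hxs : s ≤ x / s := by rw [le_div_iff₀ hs0, hss]; exact hxy
  calc (G.offDiag.card : ℝ) * (F * (x * (1 / y) + V) + x * (κ * (1 / y))) ≤ (k : ℝ) ^ 2 * (F * (x * (1 / y) + V) + x * (κ * (1 / y))) := by
        gcongr
    _ ≤ N * (x / y + V) := by
        rw [hNd]
        have h8 : 0 ≤ (k : ℝ) ^ 2 * κ * V := by positivity
        have e2 : (k : ℝ) ^ 2 * (F + κ) * (x / y + V) = (k : ℝ) ^ 2 * (F * (x * (1 / y) + V) + x * (κ * (1 / y))) + (k : ℝ) ^ 2 * κ * V := by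
          ring
        linarith
    _ ≤ V / 2 * (x / y + V) := by
        have : N ≤ V / 2 := by linarith
        gcongr
    _ ≤ x / s := by
        have h9 : V * (x / y) ≤ x / s := by
          rw [← hss, mul_div_assoc', div_le_div_iff₀ (by positivity) hs0]
          have : V ≤ s := by nlinarith
          have h10 : V * x * s ≤ s * x * s := by gcongr
          nlinarith
        have h11 : V * V ≤ x / s := hVs.trans hxs
        nlinarith

end Pool.Agent.T9h23.Un
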