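import Mathlib
import Pool.Agent.T9h23.Un.E7
import Pool.Agent.T9h23.BH.A4

/-! The large deviations over the box of the coefficients. -/

set_option autoImplicit false

namespace Pool.Agent.T9h23.Un
open Finset Polynomial
open Pool.Agent.H373R2.T7
open Pool.Agent.T9h23.Cor
open Pool.Agent.T9h23.BH

/-- the polynomial without the random constant term -/
noncomputable def cpoly {d : ℕ} (P : ℤ[X]) (b : Fin d → ℤ) : ℤ[X] := P + ∑ i, C (b i) * X ^ ((i : ℕ) + 1)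

lemma cpoly_eval {d : ℕ} (P : ℤ[X]) (b : Fin d → ℤ) (t : ℤ) : (cpoly P b).eval t = cb (fun t => P.eval t) b t := by
  unfold cpoly cb
  rw [eval_add, eval_finsetSum]
  simp

lemma cpoly_deg {d D : ℕ} (P : ℤ[X]) (hP : P.natDegree ≤ D) (b : Fin d → ℤ) : (cpoly P b).natDegree ≤ D + d := by
  unfold cpoly
  refine (natDegree_add_le _ _).trans (max_le (by omega) ?_)
  refine natDegree_sum_le_of_forall_le _ _ fun i _ => ?_
  refine (natDegree_C_mul_X_pow_le _ _).trans ?_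
  have := i.2
  omega

lemma cpoly_coeff {d : ℕ} (P : ℤ[X]) (b : Fin d → ℤ) (i : Fin d) : (cpoly P b).coeff ((i : ℕ) + 1) = P.coeff ((i : ℕ) + 1) + b i := by
  unfold cpoly
  rw [coeff_add, finsetSum_coeff]
  congr 1
  rw [sum_eq_single i]
  · rw [coeff_C_mul, coeff_X_pow, if_pos rfl, mul_one]
  · intro j _ hj
    rw [coeff_C_mul, coeff_X_pow, if_neg, mul_zero]
    intro h
    exact hj (Fin.ext (by omega))
  · intro h
    exact absurd (mem_univ i) h

lemma not_NC {d : ℕ} (P : ℤ[X]) (b : Fin d → ℤ) {p : ℕ} (h : ¬ NC (cpoly P b) p) (i : Fin d) :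
    (p : ℤ) ∣ P.coeff ((i : ℕ) + 1) + b i * 1 := by
  unfold NC at h
  have h1 : ((cpoly P b).map (Int.castRingHom (ZMod p))).coeff ((i : ℕ) + 1) = 0 := by
    apply coeff_eq_zero_of_natDegree_lt
    omega
  rw [coeff_map, cpoly_coeff, eq_intCast, ZMod.intCast_zmod_eq_zero_iff_dvd] at h1
  rw [mul_one]
  exact h1

/-- few polynomials are constant modulo a large prime -/
theorem bad_b {d : ℕ} (hd : 2 ≤ d) (H y Z : ℕ) (hy : 1 ≤ y) (hZ : Z ≤ 2 * H + 1) (P : ℤ[X]) :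
    (open Classical in (((Box d H).filter (fun b => ¬ ∀ p ∈ pz Z \ pz y, NC (cpoly P b) p)).card : ℝ)) ≤ (2 * H + 1) ^ d * (4 / y) := by
  classical
  have hsub : (Box d H).filter (fun b => ¬ ∀ p ∈ pz Z \ pz y, NC (cpoly P b) p) ⊆
      (pz Z \ pz y).biUnion (fun p => (Box d H).filter (fun b => ∀ i : Fin d, (p : ℤ) ∣ P.coeff ((i : ℕ) + 1) + b i * 1)) := by
    intro b hb
    rw [mem_filter] at hb
    obtain ⟨hb1, hb2⟩ := hb
    push Not at hb2
    obtain ⟨p, hp, hnc⟩ := hb2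
    rw [mem_biUnion]
    refine ⟨p, hp, ?_⟩
    rw [mem_filter]
    exact ⟨hb1, not_NC P b hnc⟩
  have h1 := (card_le_card hsub).trans card_biUnion_le
  have hH : (0 : ℝ) ≤ 2 * H + 1 := by positivity
  have h2 : ∀ p ∈ pz Z \ pz y, ((((Box d H).filter (fun b => ∀ i : Fin d, (p : ℤ) ∣ P.coeff ((i : ℕ) + 1) + b i * 1)).card : ℕ) : ℝ) ≤
      (2 * H + 1) ^ d * (4 * (1 / (p : ℝ) ^ 2)) := by
    intro p hp
    have hpz := mem_pz.1 (mem_sdiff.1 hp).1
    have hp2 : (2 : ℝ) ≤ p := by exact_mod_cast hpz.2.two_le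
    have e1 : (Box d H).filter (fun b => ∀ i : Fin d, (p : ℤ) ∣ P.coeff ((i : ℕ) + 1) + b i * 1) =
        Fintype.piFinset (fun i : Fin d => (Icc (-(H : ℤ)) H).filter (fun x => (p : ℤ) ∣ P.coeff ((i : ℕ) + 1) + x * 1)) := by
      ext b
      unfold Box
      rw [mem_filter, Fintype.mem_piFinset, Fintype.mem_piFinset]
      simp only [mem_filter]
      exact forall_and.symm
    rw [e1, Fintype.card_piFinset]
    push_cast
    have h3 : ∏ i : Fin d, ((((Icc (-(H : ℤ)) H).filter (fun x => (p : ℤ) ∣ P.coeff ((i : ℕ) + 1) + x * 1)).card : ℕ) : ℝ) ≤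
        ∏ _i : Fin d, ((2 * (H : ℝ) + 1) * (2 / p)) := by
      apply prod_le_prod (fun _ _ => Nat.cast_nonneg _)
      intro i _
      apply card_cong_real H p hpz.2 (hpz.1.trans hZ)
      intro h
      have h4 := Int.le_of_dvd one_pos h
      have h5 : (p : ℤ) ≤ 1 := h4
      have h6 : p ≤ 1 := by exact_mod_cast h5
      have := hpz.2.two_le
      omega
    refine h3.trans ?_
    rw [prod_const, card_univ, Fintype.card_fin, mul_pow]
    apply mul_le_mul_of_nonneg_left _ (by positivity)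
    have h4 : (2 : ℝ) / p ≤ 1 := by rw [div_le_one (by linarith)]; exact hp2
    calc ((2 : ℝ) / p) ^ d ≤ (2 / p) ^ 2 := pow_le_pow_of_le_one (by positivity) h4 hd
      _ = _ := by ring
  calc (((Box d H).filter (fun b => ¬ ∀ p ∈ pz Z \ pz y, NC (cpoly P b) p)).card : ℝ)
      ≤ ∑ p ∈ pz Z \ pz y, ((((Box d H).filter (fun b => ∀ i : Fin d, (p : ℤ) ∣ P.coeff ((i : ℕ) + 1) + b i * 1)).card : ℕ) : ℝ) := by
        exact_mod_cast h1
    _ ≤ ∑ p ∈ pz Z \ pz y, (2 * H + 1) ^ d * (4 * (1 / (p : ℝ) ^ 2)) := sum_le_sum h2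
    _ = (2 * H + 1) ^ d * (4 * ∑ p ∈ pz Z \ pz y, 1 / (p : ℝ) ^ 2) := by rw [mul_sum, mul_sum]
    _ ≤ (2 * H + 1) ^ d * (4 * (1 / y)) := by
        have := sum_sq_tail y Z hy
        gcongr
    _ = _ := by ring

/-- the weight of `n` for one random polynomial -/
noncomputable def MB {d : ℕ} (w : ℤ → ℝ) (P : ℤ[X]) (G : Finset ℤ[X]) (a : Fin (d + 1) → ℤ) (n : ℕ) : ℝ :=
  ∏ t ∈ TG G n, w (fv (fun t => P.eval t) a t)

/-- nonconstant modulo all the primes between the levels -/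
def GB1 {d : ℕ} (P : ℤ[X]) (y Z : ℕ) (a : Fin (d + 1) → ℤ) : Prop := ∀ p ∈ pz Z \ pz y, NC (cpoly P (fun i : Fin d => a i.succ)) p

lemma insert_tail {d : ℕ} (u : ℤ) (b : Fin d → ℤ) : (fun i : Fin d => (0 : Fin (d + 1)).insertNth (α := fun _ => ℤ) u b i.succ) = b := by
  funext i
  rw [Fin.insertNth_zero', Fin.cons_succ]

theorem GB1_card {d : ℕ} (hd : 2 ≤ d) (H y Z : ℕ) (hy : 1 ≤ y) (hZ : Z ≤ 2 * H + 1) (P : ℤ[X]) :
    (open Classical in (((Box (d + 1) H).filter (fun a => ¬ GB1 P y Z a)).card : ℝ)) ≤ (2 * H + 1) ^ (d + 1) * (4 / y) := by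
  classical
  rw [card_filter, sum_Box_insert H 0]
  unfold GB1
  simp only [insert_tail, sum_const]
  have h1 := bad_b hd H y Z hy hZ P
  rw [card_filter] at h1
  push_cast at h1 ⊢
  have h2 : ((Icc (-(H : ℤ)) H).card : ℝ) = 2 * H + 1 := by
    rw [Int.card_Icc]
    have : ((H : ℤ) + 1 - -(H : ℤ)).toNat = 2 * H + 1 := by omega
    rw [this]
    push_cast
    ring
  simp only [smul_eq_mul, Nat.cast_mul]
  rw [← mul_sum, h2, pow_succ]
  have hH : (0 : ℝ) ≤ 2 * H + 1 := by positivity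
  calc (2 * (H : ℝ) + 1) * ∑ b ∈ Box d H, (((if ¬ ∀ p ∈ pz Z \ pz y, NC (cpoly P b) p then 1 else 0 : ℕ)) : ℝ)
      ≤ (2 * (H : ℝ) + 1) * ((2 * H + 1) ^ d * (4 / y)) := by
        apply mul_le_mul_of_nonneg_left _ hH
        refine le_trans (le_of_eq ?_) h1
        refine sum_congr rfl fun b _ => ?_
        push_cast
        rfl
    _ = _ := by ring

/-- the large deviations over the box -/
theorem local_main (k d D Dp E B A : ℕ) (δ e' : ℝ) (hk : 1 ≤ k) (hδ : 0 < δ) (he' : 0 < e') (he'δ : e' < δ / 2) :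
    ∃ H0 : ℕ, ∀ H : ℕ, H0 ≤ H → ∀ y Z Zm : ℕ, Real.log H ^ δ ≤ y → y ≤ Z → Z ≤ Zm → (Z : ℝ) ≤ Real.log H ^ E →
    ∀ P : ℤ[X], P.natDegree ≤ Dp → ∀ G : Finset ℤ[X], G.card ≤ k → Adm D (Real.log H ^ A) G → ∀ x : ℕ, y ≤ x →
    (open Classical in (((Box (d + 1) H).filter (fun a => GB1 P y Zm a ∧ (x : ℝ) * Real.log H ^ (-e') <
      |∑ n ∈ Icc 1 x, (MB (lz Z) P G a n - MB (lz y) P G a n)|)).card : ℝ)) ≤ (2 * H + 1) ^ (d + 1) / Real.log H ^ B := by
  classical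
  obtain ⟨n0, h0⟩ := local_G k D (Dp + d) E B A δ e' hk hδ he' he'δ
  refine ⟨n0, fun H hH y Z Zm hy hyZ hZm hZE P hP G hGk hG x hx => ?_⟩
  rw [card_filter, sum_Box_insert H 0]
  push_cast
  have hsub : pz Z \ pz y ⊆ pz Zm \ pz y := by
    intro p hp
    rw [mem_sdiff, mem_pz] at hp ⊢
    exact ⟨⟨hp.1.1.trans hZm, hp.1.2⟩, hp.2⟩
  have h1 : ∀ b ∈ Box d H, ∑ u ∈ Icc (-(H : ℤ)) H, (if GB1 P y Zm ((0 : Fin (d + 1)).insertNth (α := fun _ => ℤ) u b) ∧
      (x : ℝ) * Real.log H ^ (-e') < |∑ n ∈ Icc 1 x, (MB (lz Z) P G ((0 : Fin (d + 1)).insertNth (α := fun _ => ℤ) u b) n -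
        MB (lz y) P G ((0 : Fin (d + 1)).insertNth (α := fun _ => ℤ) u b) n)| then (1 : ℝ) else 0) ≤
      (2 * H + 1) / Real.log H ^ B := by
    intro b _
    have e1 : ∀ u : ℤ, ∑ n ∈ Icc 1 x, (MB (lz Z) P G ((0 : Fin (d + 1)).insertNth (α := fun _ => ℤ) u b) n -
        MB (lz y) P G ((0 : Fin (d + 1)).insertNth (α := fun _ => ℤ) u b) n) =
        FF (fun t => (cpoly P b).eval t) (TG G) (Icc 1 x) y Z u := by
      intro u
      unfold MB FF
      refine sum_congr rfl fun n _ => ?_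
      simp only [fv_insert, cpoly_eval]
    have e2 : ∀ u : ℤ, GB1 P y Zm ((0 : Fin (d + 1)).insertNth (α := fun _ => ℤ) u b) ↔ ∀ p ∈ pz Zm \ pz y, NC (cpoly P b) p := by
      intro u
      unfold GB1
      rw [insert_tail]
    simp only [e1, e2]
    by_cases hb : ∀ p ∈ pz Zm \ pz y, NC (cpoly P b) p
    · simp only [eq_true hb, true_and]
      rw [sum_boole]
      exact h0 H hH y Z hy hyZ hZE (cpoly P b) (cpoly_deg P hP b) (fun p hp => hb p (hsub hp)) G hGk hG x hx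
    · simp only [eq_false hb, false_and, if_false, sum_const_zero]
      have : 0 ≤ Real.log H := Real.log_natCast_nonneg H
      positivity
  refine (sum_le_sum h1).trans (le_of_eq ?_)
  rw [sum_const, card_Box, nsmul_eq_mul]
  push_cast
  rw [pow_succ]
  ring

end Pool.Agent.T9h23.Un
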