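import Mathlib
import Pool.Agent.T9h23.Cor.All

/-! High moments of the sums of products of weights: one isolated index makes a term negligible. -/

set_option autoImplicit false

namespace Pool.Agent.T9h23.Un
open Finset Polynomial
open Pool.Agent.H373R2.T7
open Pool.Agent.T9h23.Cor

/-- a product over the indices as a product over the points -/
lemma prod_points {ι : Type*} (s : Finset ι) (Tv : ι → Finset ℤ) (U : Finset ℤ) (hU : ∀ i ∈ s, Tv i ⊆ U) (g : ℤ → ℝ) :
    ∏ i ∈ s, ∏ u ∈ Tv i, g u = ∏ u ∈ U, ∏ i ∈ s, (if u ∈ Tv i then g u else 1) := by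
  classical
  rw [prod_comm]
  refine prod_congr rfl fun i hi => ?_
  rw [prod_ite_mem, inter_eq_right.2 (hU i hi)]

/-- the number of maps with few values -/
lemma card_few {n : ℕ} (J : Finset ℕ) (m : ℕ) :
    ((Fintype.piFinset (fun _ : Fin n => J)).filter (fun v => (univ.image v).card = m)).card ≤ J.card ^ m * m ^ n := by
  classical
  have h1 := card_le_mul_card_image_of_maps_to (s := (Fintype.piFinset (fun _ : Fin n => J)).filter (fun v => (univ.image v).card = m))
    (t := powersetCard m J) (f := fun v => univ.image v)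
    (by
      intro v hv
      rw [mem_filter, Fintype.mem_piFinset] at hv
      rw [mem_powersetCard]
      refine ⟨?_, hv.2⟩
      intro x hx
      rw [mem_image] at hx
      obtain ⟨i, _, rfl⟩ := hx
      exact hv.1 i) (m ^ n)
    (by
      intro s hs
      rw [mem_powersetCard] at hs
      have hsub : ((Fintype.piFinset (fun _ : Fin n => J)).filter (fun v => (univ.image v).card = m)).filter (fun v => univ.image v = s) ⊆
          Fintype.piFinset (fun _ : Fin n => s) := by
        intro v hv
        rw [mem_filter] at hv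
        rw [Fintype.mem_piFinset]
        intro i
        rw [← hv.2]
        exact mem_image_of_mem _ (mem_univ i)
      refine (card_le_card hsub).trans (le_of_eq ?_)
      rw [Fintype.card_piFinset, prod_const, card_univ, Fintype.card_fin, hs.2])
  refine h1.trans ?_
  rw [card_powersetCard, mul_comm]
  exact Nat.mul_le_mul_right _ (Nat.choose_le_pow _ _)

/-- few values, when no index is isolated -/
lemma few_values {R : ℕ} (v : Fin (2 * R) → ℕ) (h : ¬ ∃ i0, ∀ i, i ≠ i0 → v i ≠ v i0) : (univ.image v).card ≤ R := by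
  classical
  push Not at h
  have h1 : 2 * (univ.image v).card ≤ ∑ s ∈ univ.image v, (univ.filter (fun i => v i = s)).card := by
    rw [mul_comm, ← smul_eq_mul, ← sum_const]
    apply sum_le_sum
    intro s hs
    rw [mem_image] at hs
    obtain ⟨i, _, rfl⟩ := hs
    obtain ⟨i', hi', he⟩ := h i
    have hsub : ({i, i'} : Finset (Fin (2 * R))) ⊆ univ.filter (fun k => v k = v i) := by
      intro k hk
      rw [mem_insert, mem_singleton] at hk
      rw [mem_filter]
      refine ⟨mem_univ _, ?_⟩
      rcases hk with rfl | rfl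
      · rfl
      · exact he
    have h2 := card_le_card hsub
    rwa [card_pair (Ne.symm hi')] at h2
  have h2 : ∑ s ∈ univ.image v, (univ.filter (fun i => v i = s)).card = 2 * R := by
    rw [← card_eq_sum_card_fiberwise (fun i _ => mem_coe.2 (mem_image_of_mem v (mem_univ i))), card_univ, Fintype.card_fin]
  omega

/-- the bound for a product with few values -/
lemma prod_few {R : ℕ} (v : Fin (2 * R) → ℕ) (Dv Sv : ℕ → ℝ) (B : ℝ) (h0 : ∀ i, |Dv (v i)| ≤ Sv (v i)) (h1 : ∀ i, Sv (v i) ≤ B) :
    |∏ i, Dv (v i)| ≤ (∏ s ∈ univ.image v, Sv s) * B ^ (2 * R - (univ.image v).card) := by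
  classical
  have hS0 : ∀ i, 0 ≤ Sv (v i) := fun i => (abs_nonneg _).trans (h0 i)
  rw [abs_prod]
  have e1 : ∏ i, Sv (v i) = ∏ s ∈ univ.image v, Sv s ^ (univ.filter (fun i => v i = s)).card := by
    rw [Finset.prod_comp]
  have hm : ∀ s ∈ univ.image v, 1 ≤ (univ.filter (fun i => v i = s)).card := by
    intro s hs
    rw [mem_image] at hs
    obtain ⟨i, _, rfl⟩ := hs
    rw [Nat.one_le_iff_ne_zero, card_ne_zero]
    exact ⟨i, by rw [mem_filter]; exact ⟨mem_univ _, rfl⟩⟩
  have h2 : ∑ s ∈ univ.image v, (univ.filter (fun i => v i = s)).card = 2 * R := by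
    rw [← card_eq_sum_card_fiberwise (fun i _ => mem_coe.2 (mem_image_of_mem v (mem_univ i))), card_univ, Fintype.card_fin]
  calc ∏ i, |Dv (v i)| ≤ ∏ i, Sv (v i) := prod_le_prod (fun _ _ => abs_nonneg _) fun i _ => h0 i
    _ = ∏ s ∈ univ.image v, Sv s ^ (univ.filter (fun i => v i = s)).card := e1
    _ ≤ ∏ s ∈ univ.image v, (Sv s * B ^ ((univ.filter (fun i => v i = s)).card - 1)) := by
        apply prod_le_prod
        · intro s hs
          rw [mem_image] at hs
          obtain ⟨i, _, rfl⟩ := hs
          exact pow_nonneg (hS0 i) _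
        · intro s hs
          have hms := hm s hs
          rw [mem_image] at hs
          obtain ⟨i, _, rfl⟩ := hs
          obtain ⟨m, hm'⟩ : ∃ m, (univ.filter (fun k => v k = v i)).card = m + 1 := ⟨_, (Nat.sub_add_cancel hms).symm⟩
          rw [hm', Nat.add_sub_cancel, pow_succ, mul_comm]
          exact mul_le_mul_of_nonneg_left (pow_le_pow_left₀ (hS0 i) (h1 i) m) (hS0 i)
    _ = (∏ s ∈ univ.image v, Sv s) * B ^ (∑ s ∈ univ.image v, ((univ.filter (fun i => v i = s)).card - 1)) := by
        rw [prod_mul_distrib, prod_pow_eq_pow_sum]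
    _ = _ := by
        congr 2
        have h3 : ∑ s ∈ univ.image v, ((univ.filter (fun i => v i = s)).card - 1) + (univ.image v).card = 2 * R := by
          refine Eq.trans ?_ h2
          rw [card_eq_sum_ones (univ.image v), ← sum_add_distrib]
          refine sum_congr rfl fun s hs => ?_
          have := hm s hs
          omega
        omega

end Pool.Agent.T9h23.Un
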