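import Mathlib
import Pool.Agent.T9h23.Un.G1

/-! High moments: the terms with an isolated index. -/

set_option autoImplicit false

namespace Pool.Agent.T9h23.Un
open Finset Polynomial
open Pool.Agent.H373R2.T7
open Pool.Agent.T9h23.Cor

/-- `|fv| ≤ H²` -/
theorem val_le (d A : ℕ) : ∃ H0 : ℕ, ∀ H : ℕ, H0 ≤ H → ∀ (T0 : ℕ) (P : ℤ → ℤ), (T0 : ℝ) ≤ Real.log H ^ A →
    (∀ t : ℤ, |t| ≤ T0 → |(P t : ℝ)| ≤ H * Real.log H ^ A) → ∀ f ∈ Box (d + 1) H, ∀ t : ℤ, |t| ≤ T0 → |fv P f t| ≤ (H : ℤ) ^ 2 := by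
  obtain ⟨n2, h2⟩ := ev_L' (2 * d + 3)
  obtain ⟨n5, h5⟩ := ev_log' (A * d + A + 1) 1
  refine ⟨max (max n2 n5) 4, fun H hH T0 P hT0 hP f hf t ht => ?_⟩
  have hn2 : n2 ≤ H := ((le_max_left _ _).trans (le_max_left _ _)).trans hH
  have hn5 : n5 ≤ H := ((le_max_right _ _).trans (le_max_left _ _)).trans hH
  have hH4 : 4 ≤ H := (le_max_right _ _).trans hH
  have hHr : (4 : ℝ) ≤ H := by exact_mod_cast hH4
  have hL := h2 H hn2
  have a5 := h5 H hn5
  rw [mem_Box] at hf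
  have h6 := fv_le H (Real.log H) A hL T0 hT0 P hP f (fun i => (hf i).trans (by have : (0 : ℤ) ≤ H := by positivity
                                                                                linarith)) t ht
  have h7 : √(H : ℝ) ≤ H := by
    rw [Real.sqrt_le_left (by linarith)]; nlinarith
  have h8 : ((|fv P f t| : ℤ) : ℝ) ≤ (((H : ℤ) ^ 2 : ℤ) : ℝ) := by
    push_cast
    calc |((fv P f t : ℤ) : ℝ)| ≤ H * Real.log H ^ (A * d + A + 1) := h6
      _ ≤ H * H := by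
          apply mul_le_mul_of_nonneg_left _ (by linarith)
          linarith
      _ = (H : ℝ) ^ 2 := by ring
  exact_mod_cast h8

/-- an isolated index -/
theorem iso (d R A U : ℕ) : ∃ E0 : ℕ, ∀ E : ℕ, ∃ H0 : ℕ, ∀ H : ℕ, H0 ≤ H → ∀ z : ℕ,
    Real.log H ^ E0 ≤ z → (z : ℝ) ≤ Real.log H ^ E →
    ∀ (T0 : ℕ) (P : ℤ → ℤ), (T0 : ℝ) ≤ Real.log H ^ A → (∀ t : ℤ, |t| ≤ T0 → |(P t : ℝ)| ≤ H * Real.log H ^ A) →
    ∀ k : ℕ, R * k ≤ d → ∀ Tv : Fin (2 * R) → Finset ℤ, (∀ i, (Tv i).card ≤ k) → (∀ i, ∀ t ∈ Tv i, |t| ≤ T0) →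
    ∀ i0, (∀ i, i ≠ i0 → Disjoint (Tv i0) (Tv i)) →
    |∑ f ∈ Box (d + 1) H, ∏ i, (∏ t ∈ Tv i, Lam (fv P f t) - ∏ t ∈ Tv i, lz z (fv P f t))| ≤
      2 ^ (2 * R) * ((2 * H + 1) ^ (d + 1) / Real.log H ^ U) := by
  classical
  obtain ⟨E0, hE⟩ := rep d A (4 * R) U
  refine ⟨E0, fun E => ?_⟩
  obtain ⟨n0, h0⟩ := hE E
  obtain ⟨n1, h1⟩ := Vz_inv_small E
  obtain ⟨n2, h2⟩ := ev_L' 4
  refine ⟨max (max n0 n1) (max n2 4), fun H hH z hz1 hz2 T0 P hT0 hP k hRk Tv hTc hTt i0 hdis => ?_⟩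
  have hn0 : n0 ≤ H := ((le_max_left _ _).trans (le_max_left _ _)).trans hH
  have hn1 : n1 ≤ H := ((le_max_right _ _).trans (le_max_left _ _)).trans hH
  have hn2 : n2 ≤ H := ((le_max_left _ _).trans (le_max_right _ _)).trans hH
  have hH4 : 4 ≤ H := ((le_max_right _ _).trans (le_max_right _ _)).trans hH
  have hL := h2 H hn2
  have hL0 : 0 < Real.log H := by linarith
  have hL1 : 1 ≤ Real.log H := by linarith
  have hz : 1 ≤ z := by
    have h3 : (1 : ℝ) ≤ z := (one_le_pow₀ hL1).trans hz1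
    exact_mod_cast h3
  have hlam : ∀ u : ℤ, |u| ≤ (H : ℤ) ^ 2 → |Lam u| ≤ Real.log H ^ 2 := by
    intro u hu
    refine (Lam_le2 hH4 u hu).trans ?_
    nlinarith
  have hlz : ∀ u : ℤ, |lz z u| ≤ Real.log H ^ 2 := by
    intro u
    rw [abs_of_nonneg (lz_nonneg _ _)]
    refine (lz_le z _).trans ((h1 H hn1 z hz hz2).trans ?_)
    nlinarith
  have hL2 : 1 ≤ Real.log H ^ 2 := one_le_pow₀ hL1
  obtain ⟨s, hs⟩ : ∃ s, s = (univ : Finset (Fin (2 * R))).erase i0 := ⟨_, rfl⟩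
  have hsc : s.card ≤ 2 * R := by
    rw [hs]
    refine (card_le_card (erase_subset _ _)).trans ?_
    rw [card_univ, Fintype.card_fin]
  obtain ⟨R2, hR2⟩ : ∃ R2, R2 = s.biUnion Tv := ⟨_, rfl⟩
  have hsub : ∀ i ∈ s, Tv i ⊆ R2 := fun i hi => by rw [hR2]; exact subset_biUnion_of_mem Tv hi
  have hd2 : Disjoint (Tv i0) R2 := by
    rw [hR2, disjoint_biUnion_right]
    intro i hi
    rw [hs, mem_erase] at hi
    exact hdis i hi.1
  have hcard : (Tv i0).card + R2.card ≤ 2 * d + 1 := by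
    have hpos : 0 < 2 * R := by
      have := i0.2
      omega
    have h3 : R2.card ≤ (2 * R - 1) * k := by
      rw [hR2]
      refine card_biUnion_le.trans ?_
      calc ∑ i ∈ s, (Tv i).card ≤ ∑ _i ∈ s, k := sum_le_sum fun i _ => hTc i
        _ = s.card * k := by rw [sum_const, smul_eq_mul]
        _ = (2 * R - 1) * k := by rw [hs, card_erase_of_mem (mem_univ _), card_univ, Fintype.card_fin]
    have h4 := hTc i0
    have h5 : k + (2 * R - 1) * k = 2 * (R * k) := by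
      obtain ⟨m, hm⟩ : ∃ m, 2 * R = m + 1 := ⟨2 * R - 1, by omega⟩
      rw [hm, Nat.add_sub_cancel]
      calc k + m * k = (m + 1) * k := by ring
        _ = 2 * R * k := by rw [← hm]
        _ = 2 * (R * k) := by ring
    omega
  -- the expansion
  have e1 : ∀ f ∈ Box (d + 1) H, ∏ i, (∏ t ∈ Tv i, Lam (fv P f t) - ∏ t ∈ Tv i, lz z (fv P f t)) =
      ∑ t ∈ s.powerset, (-1) ^ t.card * ((∏ u ∈ Tv i0, Lam (fv P f u)) * (∏ u ∈ R2, ((∏ i ∈ s \ t, if u ∈ Tv i then Lam (fv P f u) else 1) *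
        ∏ i ∈ t, if u ∈ Tv i then lz z (fv P f u) else 1)) -
        (∏ u ∈ Tv i0, lz z (fv P f u)) * (∏ u ∈ R2, ((∏ i ∈ s \ t, if u ∈ Tv i then Lam (fv P f u) else 1) *
        ∏ i ∈ t, if u ∈ Tv i then lz z (fv P f u) else 1))) := by
    intro f _
    rw [← mul_prod_erase univ _ (mem_univ i0), ← hs, prod_sub, mul_sum]
    refine sum_congr rfl fun t ht => ?_
    rw [mem_powerset] at ht
    rw [prod_mul_distrib, ← prod_points (s \ t) Tv R2 (fun i hi => hsub i (mem_sdiff.1 hi).1) (fun u => Lam (fv P f u)),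
      ← prod_points t Tv R2 (fun i hi => hsub i (ht hi)) (fun u => lz z (fv P f u))]
    ring
  rw [sum_congr rfl e1, sum_comm]
  refine (abs_sum_le_sum_abs _ _).trans ?_
  have h3 : ∀ t ∈ s.powerset, |∑ f ∈ Box (d + 1) H, (-1) ^ t.card * ((∏ u ∈ Tv i0, Lam (fv P f u)) * (∏ u ∈ R2, ((∏ i ∈ s \ t, if u ∈ Tv i then Lam (fv P f u) else 1) *
        ∏ i ∈ t, if u ∈ Tv i then lz z (fv P f u) else 1)) -
        (∏ u ∈ Tv i0, lz z (fv P f u)) * (∏ u ∈ R2, ((∏ i ∈ s \ t, if u ∈ Tv i then Lam (fv P f u) else 1) *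
        ∏ i ∈ t, if u ∈ Tv i then lz z (fv P f u) else 1)))| ≤ (2 * H + 1) ^ (d + 1) / Real.log H ^ U := by
    intro t ht
    rw [mem_powerset] at ht
    rw [← mul_sum, abs_mul, abs_pow, abs_neg, abs_one, one_pow, one_mul, sum_sub_distrib]
    apply h0 H hn0 z hz1 hz2 T0 P hT0 hP (Tv i0) R2 hd2 hcard (hTt i0)
      (fun u hu => by
        rw [hR2, mem_biUnion] at hu
        obtain ⟨i, _, hi⟩ := hu
        exact hTt i u hi)
      (fun u x => (∏ i ∈ s \ t, if u ∈ Tv i then Lam x else 1) * ∏ i ∈ t, if u ∈ Tv i then lz z x else 1)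
    intro u _ x hx
    rw [abs_mul, abs_prod, abs_prod]
    have hsd : (s \ t).card + t.card = s.card := card_sdiff_add_card_eq_card ht
    calc (∏ i ∈ s \ t, |if u ∈ Tv i then Lam x else 1|) * ∏ i ∈ t, |if u ∈ Tv i then lz z x else 1|
        ≤ (∏ _i ∈ s \ t, Real.log H ^ 2) * ∏ _i ∈ t, Real.log H ^ 2 := by
          apply mul_le_mul
          · apply prod_le_prod (fun _ _ => abs_nonneg _)
            intro i _
            split_ifs
            · exact hlam x hx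
            · rw [abs_one]; exact hL2
          · apply prod_le_prod (fun _ _ => abs_nonneg _)
            intro i _
            split_ifs
            · exact hlz x
            · rw [abs_one]; exact hL2
          · exact prod_nonneg fun _ _ => abs_nonneg _
          · exact prod_nonneg fun _ _ => by positivity
      _ = Real.log H ^ (2 * s.card) := by
          rw [prod_const, prod_const, ← pow_add, hsd, ← pow_mul]
      _ ≤ Real.log H ^ (4 * R) := pow_le_pow_right₀ hL1 (by omega)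
  refine (sum_le_sum h3).trans ?_
  rw [sum_const, nsmul_eq_mul, card_powerset]
  push_cast
  apply mul_le_mul_of_nonneg_right _ (by positivity)
  exact pow_le_pow_right₀ (by norm_num) hsc

end Pool.Agent.T9h23.Un
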