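import Mathlib
import Pool.Agent.T9h23.Un.G2

/-! High moments of the sums over disjoint systems of points. -/

set_option autoImplicit false

namespace Pool.Agent.T9h23.Un
open Finset Polynomial
open Pool.Agent.H373R2.T7
open Pool.Agent.T9h23.Cor

theorem mean_both (d A E : ℕ) (hd : 1 ≤ d) (e' : ℝ) (he' : 0 < e') : ∃ H0 : ℕ, ∀ H : ℕ, H0 ≤ H → ∀ z : ℕ,
    Real.log H ^ (1 : ℝ) ≤ z → (z : ℝ) ≤ Real.log H ^ E →
    ∀ (T0 : ℕ) (P : ℤ → ℤ), (T0 : ℝ) ≤ Real.log H ^ A → (∀ t : ℤ, |t| ≤ T0 → |(P t : ℝ)| ≤ H * Real.log H ^ A) →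
    ∀ (k : ℕ) (I : Finset ℕ) (T : ℕ → Finset ℤ), I.card * k ≤ d → (∀ n ∈ I, (T n).card ≤ k) → (∀ n ∈ I, ∀ t ∈ T n, |t| ≤ T0) →
    (∀ n ∈ I, ∀ m ∈ I, n ≠ m → Disjoint (T n) (T m)) →
    ∑ f ∈ Box (d + 1) H, ∏ n ∈ I, (∏ t ∈ T n, Lam (fv P f t) + ∏ t ∈ T n, lz z (fv P f t)) ≤
      2 ^ I.card * ((2 * H + 1) ^ (d + 1) * Real.log H ^ e') := by
  classical
  obtain ⟨n0, h0⟩ := corr_upper d A E hd 1 e' one_pos he'
  refine ⟨n0, fun H hH z hz1 hz2 T0 P hT0 hP k I T hIk hTc hTt hdis => ?_⟩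
  simp only [prod_add]
  rw [sum_comm]
  obtain ⟨R, hR⟩ : ∃ R, R = I.biUnion T := ⟨_, rfl⟩
  have hRc : R.card ≤ 2 * d + 1 := by
    have h1 : R.card ≤ I.card * k := by
      rw [hR]
      refine card_biUnion_le.trans ?_
      calc ∑ i ∈ I, (T i).card ≤ ∑ _i ∈ I, k := sum_le_sum fun i hi => hTc i hi
        _ = _ := by rw [sum_const, smul_eq_mul]
    omega
  have hRt : ∀ t ∈ R, |t| ≤ (T0 : ℤ) := by
    intro t ht
    rw [hR, mem_biUnion] at ht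
    obtain ⟨n, hn, h⟩ := ht
    exact hTt n hn t h
  have h1 : ∀ s ∈ I.powerset, ∑ f ∈ Box (d + 1) H, (∏ n ∈ s, ∏ t ∈ T n, Lam (fv P f t)) * ∏ n ∈ I \ s, ∏ t ∈ T n, lz z (fv P f t) ≤
      (2 * H + 1) ^ (d + 1) * Real.log H ^ e' := by
    intro s hs
    rw [mem_powerset] at hs
    obtain ⟨W, hW⟩ : ∃ W : ℤ → ℤ → ℝ, W = fun u => if u ∈ s.biUnion T then Lam else lz z := ⟨_, rfl⟩
    have hWt : ∀ t ∈ R, Wt H E z (W t) := by
      intro t _
      rw [hW]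
      by_cases h : t ∈ s.biUnion T
      · simp only [h, if_true]
        exact Or.inl rfl
      · simp only [h, if_false]
        exact Wt_lz hz2
    have h2 := h0 H hH z hz1 hz2 T0 P hT0 hP R hRc hRt W hWt ∅ (empty_subset _)
    simp only [prod_empty, mul_one, card_empty, pow_zero, one_mul] at h2
    refine le_trans (le_of_eq ?_) h2
    refine sum_congr rfl fun f _ => ?_
    rw [hR, prod_biUnion (fun n hn m hm hnm => hdis n (mem_coe.1 hn) m (mem_coe.1 hm) hnm), ← prod_sdiff hs, mul_comm]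
    congr 1
    · refine prod_congr rfl fun n hn => prod_congr rfl fun t ht => ?_
      rw [mem_sdiff] at hn
      rw [hW]
      simp only
      rw [if_neg]
      intro h
      rw [mem_biUnion] at h
      obtain ⟨m, hm, htm⟩ := h
      have hne : n ≠ m := fun h => hn.2 (h ▸ hm)
      exact (disjoint_left.1 (hdis n hn.1 m (hs hm) hne)) ht htm
    · refine prod_congr rfl fun n hn => prod_congr rfl fun t ht => ?_
      rw [hW]
      simp only
      rw [if_pos (mem_biUnion.2 ⟨n, hn, ht⟩)]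
  refine (sum_le_sum h1).trans (le_of_eq ?_)
  rw [sum_const, nsmul_eq_mul, card_powerset]
  push_cast
  rfl

lemma numG (X b : ℝ) (hb : 0 ≤ b) (hbX : b ≤ X) {m R : ℕ} (hm : m ≤ R) : X ^ m * (2 * b) ^ (2 * R - m) ≤ 2 ^ (2 * R) * (X * b) ^ R := by
  have hX : 0 ≤ X := hb.trans hbX
  have e1 : 2 * R - m = (R - m) + R := by omega
  have e2 : R = m + (R - m) := by omega
  have h2 : (2 : ℝ) ^ (2 * R - m) ≤ 2 ^ (2 * R) := pow_le_pow_right₀ (by norm_num) (by omega)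
  calc X ^ m * (2 * b) ^ (2 * R - m) = 2 ^ (2 * R - m) * (X ^ m * b ^ (R - m) * b ^ R) := by
        rw [mul_pow, e1, pow_add b]
        ring
    _ ≤ 2 ^ (2 * R) * (X ^ m * X ^ (R - m) * b ^ R) := by gcongr
    _ = _ := by
        rw [← pow_add, ← e2, mul_pow]

theorem high (d R A Ax : ℕ) (hd : 1 ≤ d) (e' : ℝ) (he' : 0 < e') : ∃ E0 : ℕ, ∀ E : ℕ, ∃ H0 : ℕ, ∀ H : ℕ, H0 ≤ H → ∀ z : ℕ,
    Real.log H ^ E0 ≤ z → (z : ℝ) ≤ Real.log H ^ E → ∀ (T0 : ℕ) (P : ℤ → ℤ), (T0 : ℝ) ≤ Real.log H ^ A →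
    (∀ t : ℤ, |t| ≤ T0 → |(P t : ℝ)| ≤ H * Real.log H ^ A) → ∀ k : ℕ, R * k ≤ d → ∀ (J : Finset ℕ) (T : ℕ → Finset ℤ),
    (∀ n ∈ J, (T n).card ≤ k) → (∀ n ∈ J, ∀ t ∈ T n, |t| ≤ T0) → (∀ n ∈ J, ∀ m ∈ J, n ≠ m → Disjoint (T n) (T m)) →
    ∀ X : ℝ, (J.card : ℝ) ≤ X → (2 * Real.log H) ^ k ≤ X → X ≤ Real.log H ^ Ax →
    ∑ f ∈ Box (d + 1) H, (∑ n ∈ J, (∏ t ∈ T n, Lam (fv P f t) - ∏ t ∈ T n, lz z (fv P f t))) ^ (2 * R) ≤
      (2 * H + 1) ^ (d + 1) * (Real.log H ^ e' * (X * (2 * Real.log H) ^ k) ^ R) := by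
  classical
  obtain ⟨U, hU⟩ : ∃ U, U = 2 * R * Ax + 2 * R := ⟨_, rfl⟩
  obtain ⟨E0, hE⟩ := iso d R A U
  refine ⟨E0 + 1, fun E => ?_⟩
  obtain ⟨n0, h0⟩ := hE E
  obtain ⟨n1, h1⟩ := mean_both d A E hd (e' / 2) (by positivity)
  obtain ⟨n2, h2⟩ := Vz_inv_small E
  obtain ⟨n3, h3⟩ := val_le d A
  obtain ⟨n4, h4⟩ := ev_L' 2
  obtain ⟨n5, h5⟩ := ev_rpow (2 * ((R + 1 : ℕ) * (R : ℝ) ^ (2 * R) * 2 ^ R * 2 ^ (2 * R) + 1)) (e' / 2) (by positivity)
  refine ⟨max (max (max n0 n1) (max n2 n3)) (max (max n4 n5) 4), fun H hH z hz1 hz2 T0 P hT0 hP k hRk J T hTc hTt hdis X hJX hbX hXA => ?_⟩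
  have hn0 : n0 ≤ H := (((le_max_left _ _).trans (le_max_left _ _)).trans (le_max_left _ _)).trans hH
  have hn1 : n1 ≤ H := (((le_max_right _ _).trans (le_max_left _ _)).trans (le_max_left _ _)).trans hH
  have hn2 : n2 ≤ H := (((le_max_left _ _).trans (le_max_right _ _)).trans (le_max_left _ _)).trans hH
  have hn3 : n3 ≤ H := (((le_max_right _ _).trans (le_max_right _ _)).trans (le_max_left _ _)).trans hH
  have hn4 : n4 ≤ H := (((le_max_left _ _).trans (le_max_left _ _)).trans (le_max_right _ _)).trans hH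
  have hn5 : n5 ≤ H := (((le_max_right _ _).trans (le_max_left _ _)).trans (le_max_right _ _)).trans hH
  have hH4 : 4 ≤ H := ((le_max_right _ _).trans (le_max_right _ _)).trans hH
  have hL := h4 H hn4
  have a5 := h5 H hn5
  have hiso := h0 H hn0 z
  have hmean := h1 H hn1 z
  have hVz := h2 H hn2 z
  have hval := h3 H hn3 T0 P hT0 hP
  obtain ⟨L, hLd⟩ : ∃ L, L = Real.log H := ⟨_, rfl⟩
  rw [← hLd] at hL a5 hz1 hz2 hbX hXA hiso hmean hVz ⊢
  have hL0 : 0 < L := by linarith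
  have hL1 : 1 ≤ L := by linarith
  have hz1' : L ^ E0 ≤ z := (pow_le_pow_right₀ hL1 (by omega)).trans hz1
  have hz1'' : L ^ (1 : ℝ) ≤ z := by
    rw [Real.rpow_one]
    exact (le_self_pow₀ hL1 (by omega)).trans hz1
  have hzr : (1 : ℝ) ≤ z := (one_le_pow₀ hL1).trans hz1
  have hz : 1 ≤ z := by exact_mod_cast hzr
  have hVL := hVz hz hz2
  rw [← hLd] at hT0 hP
  obtain ⟨b, hb⟩ : ∃ b : ℝ, b = (2 * L) ^ k := ⟨_, rfl⟩
  have hb1 : 1 ≤ b := by rw [hb]; exact one_le_pow₀ (by linarith)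
  rw [← hb] at hbX ⊢
  have hX1 : 1 ≤ X := hb1.trans hbX
  have hN : (0 : ℝ) < (2 * H + 1) ^ (d + 1) := by positivity
  -- the weights
  obtain ⟨Dn, hDn⟩ : ∃ Dn : (Fin (d + 1) → ℤ) → ℕ → ℝ, Dn = fun f n => ∏ t ∈ T n, Lam (fv P f t) - ∏ t ∈ T n, lz z (fv P f t) := ⟨_, rfl⟩
  obtain ⟨Sn, hSn⟩ : ∃ Sn : (Fin (d + 1) → ℤ) → ℕ → ℝ, Sn = fun f n => ∏ t ∈ T n, Lam (fv P f t) + ∏ t ∈ T n, lz z (fv P f t) := ⟨_, rfl⟩
  have hDS : ∀ f n, |Dn f n| ≤ Sn f n := by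
    intro f n
    have h6 : 0 ≤ ∏ t ∈ T n, Lam (fv P f t) := prod_nonneg fun _ _ => Lam_nonneg _
    have h7 : 0 ≤ ∏ t ∈ T n, lz z (fv P f t) := prod_nonneg fun _ _ => lz_nonneg _ _
    rw [hDn, hSn]
    simp only
    rw [abs_le]
    constructor <;> linarith
  have hSb : ∀ f ∈ Box (d + 1) H, ∀ n ∈ J, Sn f n ≤ 2 * b := by
    intro f hf n hn
    have h6 : ∏ t ∈ T n, Lam (fv P f t) ≤ b := by
      calc ∏ t ∈ T n, Lam (fv P f t) ≤ ∏ _t ∈ T n, (2 * L) := prod_le_prod (fun _ _ => Lam_nonneg _) fun t ht => by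
            rw [hLd]
            exact (le_abs_self _).trans (Lam_le2 hH4 _ (hval f hf t (hTt n hn t ht)))
        _ = (2 * L) ^ (T n).card := by rw [prod_const]
        _ ≤ b := by rw [hb]; exact pow_le_pow_right₀ (by linarith) (hTc n hn)
    have h7 : ∏ t ∈ T n, lz z (fv P f t) ≤ b := by
      calc ∏ t ∈ T n, lz z (fv P f t) ≤ ∏ _t ∈ T n, (2 * L) := prod_le_prod (fun _ _ => lz_nonneg _ _) fun t ht => by
            have := lz_le z (fv P f t)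
            linarith
        _ = (2 * L) ^ (T n).card := by rw [prod_const]
        _ ≤ b := by rw [hb]; exact pow_le_pow_right₀ (by linarith) (hTc n hn)
    rw [hSn]
    simp only
    linarith
  -- the expansion
  have e1 : ∀ f : Fin (d + 1) → ℤ, (∑ n ∈ J, (∏ t ∈ T n, Lam (fv P f t) - ∏ t ∈ T n, lz z (fv P f t))) ^ (2 * R) =
      ∑ v ∈ Fintype.piFinset (fun _ : Fin (2 * R) => J), ∏ i, Dn f (v i) := by
    intro f
    have h6 := prod_univ_sum (fun _ : Fin (2 * R) => J) (fun _ n => Dn f n)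
    rw [← h6, prod_const, card_univ, Fintype.card_fin, hDn]
  rw [sum_congr rfl fun f _ => e1 f, sum_comm]
  obtain ⟨V, hV⟩ : ∃ V, V = Fintype.piFinset (fun _ : Fin (2 * R) => J) := ⟨_, rfl⟩
  rw [← hV]
  have hVJ : ∀ v ∈ V, ∀ i, v i ∈ J := by
    intro v hv
    rw [hV, Fintype.mem_piFinset] at hv
    exact hv
  rw [← sum_filter_add_sum_filter_not V (fun v => ∃ i0, ∀ i, i ≠ i0 → v i ≠ v i0)]
  -- the isolated terms
  have hI : ∑ v ∈ V.filter (fun v => ∃ i0, ∀ i, i ≠ i0 → v i ≠ v i0), ∑ f ∈ Box (d + 1) H, ∏ i, Dn f (v i) ≤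
      (2 * H + 1) ^ (d + 1) := by
    have h6 : ∀ v ∈ V.filter (fun v => ∃ i0, ∀ i, i ≠ i0 → v i ≠ v i0), ∑ f ∈ Box (d + 1) H, ∏ i, Dn f (v i) ≤
        2 ^ (2 * R) * ((2 * H + 1) ^ (d + 1) / L ^ U) := by
      intro v hv
      rw [mem_filter] at hv
      obtain ⟨hv1, i0, hi0⟩ := hv
      have h7 := hiso hz1' hz2 T0 P hT0 hP k hRk (fun i => T (v i)) (fun i => hTc _ (hVJ v hv1 i)) (fun i => hTt _ (hVJ v hv1 i)) i0
        (fun i hi => hdis _ (hVJ v hv1 i0) _ (hVJ v hv1 i) (Ne.symm (hi0 i hi)))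
      rw [hDn]
      exact (le_abs_self _).trans h7
    refine (sum_le_sum h6).trans ?_
    rw [sum_const, nsmul_eq_mul]
    have h7 : ((V.filter (fun v => ∃ i0, ∀ i, i ≠ i0 → v i ≠ v i0)).card : ℝ) ≤ L ^ (2 * R * Ax) := by
      have h8 : (V.filter (fun v => ∃ i0, ∀ i, i ≠ i0 → v i ≠ v i0)).card ≤ J.card ^ (2 * R) := by
        refine (card_filter_le _ _).trans (le_of_eq ?_)
        rw [hV, Fintype.card_piFinset, prod_const, card_univ, Fintype.card_fin]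
      calc ((V.filter (fun v => ∃ i0, ∀ i, i ≠ i0 → v i ≠ v i0)).card : ℝ) ≤ ((J.card ^ (2 * R) : ℕ) : ℝ) := by exact_mod_cast h8
        _ = (J.card : ℝ) ^ (2 * R) := by push_cast; rfl
        _ ≤ (L ^ Ax) ^ (2 * R) := pow_le_pow_left₀ (Nat.cast_nonneg _) (hJX.trans hXA) _
        _ = _ := by rw [← pow_mul]; congr 1; ring
    have h8 : (2 : ℝ) ^ (2 * R) ≤ L ^ (2 * R) := pow_le_pow_left₀ (by norm_num) hL _
    calc ((V.filter (fun v => ∃ i0, ∀ i, i ≠ i0 → v i ≠ v i0)).card : ℝ) * (2 ^ (2 * R) * ((2 * H + 1) ^ (d + 1) / L ^ U))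
        ≤ L ^ (2 * R * Ax) * (L ^ (2 * R) * ((2 * H + 1) ^ (d + 1) / L ^ U)) := by gcongr
      _ = (2 * H + 1) ^ (d + 1) := by
          rw [hU, pow_add]
          field_simp
          rw [← pow_add]
  -- the other terms
  have hII : ∑ v ∈ V.filter (fun v => ¬ ∃ i0, ∀ i, i ≠ i0 → v i ≠ v i0), ∑ f ∈ Box (d + 1) H, ∏ i, Dn f (v i) ≤
      (2 * H + 1) ^ (d + 1) * (((R + 1 : ℕ) * (R : ℝ) ^ (2 * R) * 2 ^ R * 2 ^ (2 * R)) * (L ^ (e' / 2) * (X * b) ^ R)) := by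
    have h6 : ∀ v ∈ V.filter (fun v => ¬ ∃ i0, ∀ i, i ≠ i0 → v i ≠ v i0), ∑ f ∈ Box (d + 1) H, ∏ i, Dn f (v i) ≤
        ((2 * b) ^ (2 * R - (univ.image v).card)) * (2 ^ R * ((2 * H + 1) ^ (d + 1) * L ^ (e' / 2))) := by
      intro v hv
      rw [mem_filter] at hv
      obtain ⟨hv1, hv2⟩ := hv
      have hcR := few_values v hv2
      have h7 : ∀ f ∈ Box (d + 1) H, ∏ i, Dn f (v i) ≤ (∏ s ∈ univ.image v, Sn f s) * (2 * b) ^ (2 * R - (univ.image v).card) := by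
        intro f hf
        exact (le_abs_self _).trans (prod_few v (Dn f) (Sn f) (2 * b) (fun i => hDS f _) (fun i => hSb f hf _ (hVJ v hv1 i)))
      refine (sum_le_sum h7).trans ?_
      rw [← sum_mul, mul_comm]
      apply mul_le_mul_of_nonneg_left _ (by positivity)
      have hvJ : ∀ s ∈ univ.image v, s ∈ J := by
        intro s hs
        rw [mem_image] at hs
        obtain ⟨i, _, rfl⟩ := hs
        exact hVJ v hv1 i
      have h8 := hmean hz1'' hz2 T0 P hT0 hP k (univ.image v) T ((Nat.mul_le_mul_right k hcR).trans hRk)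
        (fun n hn => hTc n (hvJ n hn)) (fun n hn => hTt n (hvJ n hn)) (fun n hn m hm => hdis n (hvJ n hn) m (hvJ m hm))
      rw [hSn]
      refine h8.trans ?_
      apply mul_le_mul_of_nonneg_right _ (by positivity)
      exact pow_le_pow_right₀ (by norm_num) hcR
    refine (sum_le_sum h6).trans ?_
    rw [← sum_fiberwise_of_maps_to (t := range (R + 1)) (g := fun v => (univ.image v).card) (fun v hv => by
      rw [mem_filter] at hv
      rw [mem_range]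
      have := few_values v hv.2
      omega)]
    have h9 : ∀ m ∈ range (R + 1), ∑ v ∈ (V.filter (fun v => ¬ ∃ i0, ∀ i, i ≠ i0 → v i ≠ v i0)).filter (fun v => (univ.image v).card = m),
        ((2 * b) ^ (2 * R - (univ.image v).card)) * (2 ^ R * ((2 * H + 1) ^ (d + 1) * L ^ (e' / 2))) ≤
        ((R : ℝ) ^ (2 * R) * (2 ^ (2 * R) * (X * b) ^ R)) * (2 ^ R * ((2 * H + 1) ^ (d + 1) * L ^ (e' / 2))) := by
      intro m hm
      rw [mem_range] at hm
      have hmR : m ≤ R := by omega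
      have e2 : ∀ v ∈ (V.filter (fun v => ¬ ∃ i0, ∀ i, i ≠ i0 → v i ≠ v i0)).filter (fun v => (univ.image v).card = m),
          ((2 * b) ^ (2 * R - (univ.image v).card)) * (2 ^ R * ((2 * H + 1) ^ (d + 1) * L ^ (e' / 2))) =
          ((2 * b) ^ (2 * R - m)) * (2 ^ R * ((2 * H + 1) ^ (d + 1) * L ^ (e' / 2))) := by
        intro v hv
        rw [(mem_filter.1 hv).2]
      rw [sum_congr rfl e2, sum_const, nsmul_eq_mul, ← mul_assoc]
      apply mul_le_mul_of_nonneg_right _ (by positivity)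
      have h10 : ((V.filter (fun v => ¬ ∃ i0, ∀ i, i ≠ i0 → v i ≠ v i0)).filter (fun v => (univ.image v).card = m)).card ≤ J.card ^ m * m ^ (2 * R) := by
        refine (card_le_card ?_).trans (card_few (n := 2 * R) J m)
        intro v hv
        rw [mem_filter, mem_filter, hV] at hv
        rw [mem_filter]
        exact ⟨hv.1.1, hv.2⟩
      have h11 : (((V.filter (fun v => ¬ ∃ i0, ∀ i, i ≠ i0 → v i ≠ v i0)).filter (fun v => (univ.image v).card = m)).card : ℝ) ≤ X ^ m * (R : ℝ) ^ (2 * R) := by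
        calc _ ≤ ((J.card ^ m * m ^ (2 * R) : ℕ) : ℝ) := by exact_mod_cast h10
          _ = (J.card : ℝ) ^ m * (m : ℝ) ^ (2 * R) := by push_cast; rfl
          _ ≤ X ^ m * (R : ℝ) ^ (2 * R) := by
              have : (m : ℝ) ≤ R := by exact_mod_cast hmR
              gcongr
      calc (((V.filter (fun v => ¬ ∃ i0, ∀ i, i ≠ i0 → v i ≠ v i0)).filter (fun v => (univ.image v).card = m)).card : ℝ) * (2 * b) ^ (2 * R - m)
          ≤ (X ^ m * (R : ℝ) ^ (2 * R)) * (2 * b) ^ (2 * R - m) := by gcongr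
        _ = (R : ℝ) ^ (2 * R) * (X ^ m * (2 * b) ^ (2 * R - m)) := by ring
        _ ≤ (R : ℝ) ^ (2 * R) * (2 ^ (2 * R) * (X * b) ^ R) := by
            apply mul_le_mul_of_nonneg_left _ (by positivity)
            exact numG X b (by linarith) hbX hmR
    refine (sum_le_sum h9).trans (le_of_eq ?_)
    rw [sum_const, nsmul_eq_mul, card_range]
    ring
  refine (add_le_add hI hII).trans ?_
  obtain ⟨Kc, hKc⟩ : ∃ Kc : ℝ, Kc = (R + 1 : ℕ) * (R : ℝ) ^ (2 * R) * 2 ^ R * 2 ^ (2 * R) := ⟨_, rfl⟩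
  rw [← hKc] at a5 ⊢
  have hKc0 : 0 ≤ Kc := by rw [hKc]; positivity
  have hXb : 1 ≤ (X * b) ^ R := by
    apply one_le_pow₀
    nlinarith
  have e3 : L ^ (e' / 2) * L ^ (e' / 2) = L ^ e' := by
    rw [← Real.rpow_add hL0]; congr 1; ring
  obtain ⟨w, hw⟩ : ∃ w, w = L ^ (e' / 2) := ⟨_, rfl⟩
  rw [← hw] at a5 e3 ⊢
  have hw1 : 1 ≤ w := by rw [hw]; exact Real.one_le_rpow hL1 (by positivity)
  calc (2 * (H : ℝ) + 1) ^ (d + 1) + (2 * H + 1) ^ (d + 1) * (Kc * (w * (X * b) ^ R))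
      = (2 * (H : ℝ) + 1) ^ (d + 1) * (1 + Kc * (w * (X * b) ^ R)) := by ring
    _ ≤ (2 * (H : ℝ) + 1) ^ (d + 1) * ((Kc + 1) * (w * (X * b) ^ R)) := by
        apply mul_le_mul_of_nonneg_left _ hN.le
        have : 1 ≤ w * (X * b) ^ R := by nlinarith
        linarith
    _ ≤ (2 * (H : ℝ) + 1) ^ (d + 1) * (w * (w * (X * b) ^ R)) := by
        apply mul_le_mul_of_nonneg_left _ hN.le
        apply mul_le_mul_of_nonneg_right _ (by positivity)
        linarith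
    _ = _ := by rw [← mul_assoc w w, e3]

end Pool.Agent.T9h23.Un
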