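import Mathlib
import Pool.Agent.T9h23.Un.G3
import Pool.Agent.T9h23.Un.E8

/-! The large deviations of the primes from the large sieve model, over the box of the coefficients. -/

set_option autoImplicit false

namespace Pool.Agent.T9h23.Un
open Finset Polynomial
open Pool.Agent.H373R2.T7
open Pool.Agent.T9h23.Cor
open Pool.Agent.T9h23.BH

/-- a coloring with few colors -/
lemma coloring (conf : ℕ → ℕ → Prop) (hsym : ∀ a b, conf a b → conf b a) (Δ : ℕ) (J : Finset ℕ)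
    (h : open Classical in ∀ n ∈ J, (J.filter (fun m => conf n m)).card ≤ Δ) :
    ∃ col : ℕ → ℕ, (∀ n ∈ J, col n ∈ range (Δ + 1)) ∧ ∀ n ∈ J, ∀ m ∈ J, n ≠ m → conf n m → col n ≠ col m := by
  classical
  induction J using Finset.induction_on with
  | empty => exact ⟨fun _ => 0, by simp, by simp⟩
  | insert a J ha ih =>
    obtain ⟨col, hc1, hc2⟩ := ih (fun n hn => (card_le_card (filter_subset_filter _ (subset_insert _ _))).trans (h n (mem_insert_of_mem hn)))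
    have h1 : ((J.filter (fun m => conf a m)).image col).card < (range (Δ + 1)).card := by
      rw [card_range]
      have h2 := card_image_le (s := J.filter (fun m => conf a m)) (f := col)
      have h3 : (J.filter (fun m => conf a m)).card ≤ Δ :=
        (card_le_card (filter_subset_filter _ (subset_insert _ _))).trans (h a (mem_insert_self _ _))
      omega
    obtain ⟨c, hc, hcn⟩ := exists_mem_notMem_of_card_lt_card h1
    refine ⟨Function.update col a c, ?_, ?_⟩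
    · intro n hn
      by_cases hna : n = a
      · rw [hna, Function.update_self]; exact hc
      · rw [Function.update_of_ne hna]
        exact hc1 n (mem_of_mem_insert_of_ne hn hna)
    · intro n hn m hm hnm hcf
      have key : ∀ m ∈ J, conf a m → c ≠ col m := by
        intro m hm hcf h4
        apply hcn
        rw [h4]
        exact mem_image_of_mem _ (by rw [mem_filter]; exact ⟨hm, hcf⟩)
      by_cases hna : n = a
      · have hma : m ≠ a := fun h => hnm (hna.trans h.symm)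
        rw [hna, Function.update_self, Function.update_of_ne hma]
        exact key m (mem_of_mem_insert_of_ne hm hma) (hna ▸ hcf)
      · by_cases hma : m = a
        · rw [hma, Function.update_self, Function.update_of_ne hna]
          exact Ne.symm (key n (mem_of_mem_insert_of_ne hn hna) (hsym _ _ (hma ▸ hcf)))
        · rw [Function.update_of_ne hna, Function.update_of_ne hma]
          exact hc2 n (mem_of_mem_insert_of_ne hn hna) m (mem_of_mem_insert_of_ne hm hma) hnm hcf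

lemma GOK_of {d D D' k : ℕ} {M : ℝ} {G : Finset ℤ[X]} (hG : Adm D M G) (hGk : G.card ≤ k) (hkd : k ≤ d) (hD : D ≤ D') :
    GOK (fun _ : Fin 1 => d) D' (fun _ => G) :=
  ⟨fun _ => hGk.trans hkd, fun _ g hg => ⟨(hG.deg g hg).1, (hG.deg g hg).2.trans hD⟩⟩

lemma Small_of {H A Ap D D' Dp : ℕ} {P : ℤ[X]} {G : Finset ℤ[X]} (hG : Adm D (Real.log H ^ A) G) (hP1 : P.natDegree ≤ Dp)
    (hP2 : ∀ i, |(P.coeff i : ℝ)| ≤ H * Real.log H ^ Ap) (hD : Dp ≤ D') (hL : 1 ≤ Real.log H) :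
    Small H (max A Ap) D' (fun _ : Fin 1 => P) (fun _ => G) := by
  have h1 : Real.log H ^ A ≤ Real.log H ^ (max A Ap) := pow_le_pow_right₀ hL (le_max_left _ _)
  have h2 : Real.log H ^ Ap ≤ Real.log H ^ (max A Ap) := pow_le_pow_right₀ hL (le_max_right _ _)
  exact ⟨fun _ => hP1.trans hD, fun _ i => (hP2 i).trans (by gcongr), fun _ g hg i => (hG.coef g hg i).trans h1⟩

theorem global_main (k d D Dp A Ap Ax R : ℕ) (hk : 1 ≤ k) (hR : 1 ≤ R) (hRk : R * k ≤ d) (e' e'' : ℝ) (he' : 0 < e') :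
    ∃ E0 : ℕ, ∀ E : ℕ, ∃ H0 : ℕ, ∀ H : ℕ, H0 ≤ H → ∀ z : ℕ, Real.log H ^ E0 ≤ z → (z : ℝ) ≤ Real.log H ^ E →
    ∀ P : ℤ[X], P.natDegree ≤ Dp → (∀ i, |(P.coeff i : ℝ)| ≤ H * Real.log H ^ Ap) →
    ∀ G : Finset ℤ[X], G.card ≤ k → Adm D (Real.log H ^ A) G → ∀ x : ℕ, (2 * Real.log H) ^ G.card ≤ x → (x : ℝ) ≤ Real.log H ^ Ax →
    (open Classical in (((Box (d + 1) H).filter (fun a => (x : ℝ) * Real.log H ^ (-e'') <
      |∑ n ∈ Icc 1 x, (MB Lam P G a n - MB (lz z) P G a n)|)).card : ℝ)) ≤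
      (2 * H + 1) ^ (d + 1) * (Real.log H ^ (e' + 2 * R * e'') * (Real.log H ^ G.card / x) ^ R) := by
  classical
  have hkd : k ≤ d := le_trans (Nat.le_mul_of_pos_left k hR) hRk
  have hd : 1 ≤ d := hk.trans hkd
  obtain ⟨A', n0, h0⟩ := pts (max D Dp) (max A Ap) Ax
  obtain ⟨E0, hE⟩ := high d R A' Ax hd (e' / 2) (by positivity)
  obtain ⟨Δ, hΔ⟩ : ∃ Δ, Δ = CG (fun _ : Fin 1 => d) (max D Dp) := ⟨_, rfl⟩
  refine ⟨E0, fun E => ?_⟩
  obtain ⟨n1, h1⟩ := hE E
  obtain ⟨n2, h2⟩ := ev_L' 2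
  obtain ⟨n3, h3⟩ := ev_rpow (((Δ : ℝ) + 1) ^ (2 * R + 1) * 2 ^ (k * R)) (e' / 2) (by positivity)
  refine ⟨max (max n0 n1) (max n2 n3), fun H hH z hz1 hz2 P hP1 hP2 G hGk hG x hx1 hx2 => ?_⟩
  have hn0 : n0 ≤ H := ((le_max_left _ _).trans (le_max_left _ _)).trans hH
  have hn1 : n1 ≤ H := ((le_max_right _ _).trans (le_max_left _ _)).trans hH
  have hn2 : n2 ≤ H := ((le_max_left _ _).trans (le_max_right _ _)).trans hH
  have hn3 : n3 ≤ H := ((le_max_right _ _).trans (le_max_right _ _)).trans hH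
  have hL := h2 H hn2
  have a3 := h3 H hn3
  obtain ⟨T0, hT0, hT⟩ := h0 H hn0
  have hGOK := GOK_of hG hGk hkd (le_max_left D Dp)
  obtain ⟨hPv, hpt⟩ := hT 1 (fun _ => d) (fun _ => P) (fun _ => G) hGOK (Small_of hG hP1 hP2 (le_max_right D Dp) (by linarith))
  have hpc : ∀ n ∈ Icc 1 x, ((Icc 1 x).filter (fun m => ¬ Disjoint (TG G n) (TG G m))).card ≤ Δ := by
    intro n _
    rw [hΔ]
    refine le_trans (card_le_card ?_) (pairs_card hGOK x n)
    intro m hm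
    rw [mem_filter] at hm ⊢
    exact ⟨hm.1, 0, hm.2⟩
  obtain ⟨col, hcol1, hcol2⟩ := coloring (fun n m => ¬ Disjoint (TG G n) (TG G m)) (fun a b h h' => h h'.symm) Δ (Icc 1 x) (fun n hn => by convert hpc n hn)
  obtain ⟨L, hLd⟩ : ∃ L, L = Real.log H := ⟨_, rfl⟩
  have hhigh := h1 H hn1 z hz1 hz2 T0 (fun t => P.eval t) hT0 (hPv 0) G.card ((Nat.mul_le_mul_left R hGk).trans hRk)
  rw [← hLd] at hL a3 hz1 hz2 hx1 hx2 hhigh hpt ⊢
  have hL0 : 0 < L := by linarith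
  have hL1 : 1 ≤ L := by linarith
  have hx0 : (0 : ℝ) < x := lt_of_lt_of_le (by positivity) hx1
  obtain ⟨F, hF⟩ : ∃ F : (Fin (d + 1) → ℤ) → ℕ → ℝ, F = fun a n => MB Lam P G a n - MB (lz z) P G a n := ⟨_, rfl⟩
  obtain ⟨J, hJ⟩ : ∃ J : ℕ → Finset ℕ, J = fun c => (Icc 1 x).filter (fun n => col n = c) := ⟨_, rfl⟩
  have hmom : ∀ c, ∑ a ∈ Box (d + 1) H, (∑ n ∈ J c, F a n) ^ (2 * R) ≤ (2 * H + 1) ^ (d + 1) * (L ^ (e' / 2) * ((x : ℝ) * (2 * L) ^ G.card) ^ R) := by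
    intro c
    have hJI : ∀ n ∈ J c, n ∈ Icc 1 x ∧ col n = c := by
      intro n hn
      rw [hJ] at hn
      exact mem_filter.1 hn
    have h4 := hhigh (J c) (TG G) (fun n _ => card_TG G n)
      (fun n hn t ht => hpt n (le_trans (by exact_mod_cast (mem_Icc.1 (hJI n hn).1).2) hx2) 0 t ht)
      (fun n hn m hm hnm => by
        by_contra hcon
        exact hcol2 n (hJI n hn).1 m (hJI m hm).1 hnm hcon ((hJI n hn).2.trans (hJI m hm).2.symm))
      x (by
        have h5 : (J c).card ≤ x := by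
          rw [hJ]
          refine (card_filter_le _ _).trans ?_
          rw [Nat.card_Icc, Nat.add_sub_cancel]
        exact_mod_cast h5) hx1 hx2
    rw [hF]
    exact h4
  have hsplit : ∀ a, ∑ n ∈ Icc 1 x, F a n = ∑ c ∈ range (Δ + 1), ∑ n ∈ J c, F a n := by
    intro a
    rw [hJ, sum_fiberwise_of_maps_to hcol1]
  obtain ⟨lam, hlam⟩ : ∃ lam : ℝ, lam = x * L ^ (-e'') / (Δ + 1) := ⟨_, rfl⟩
  have hΔ0 : (0 : ℝ) < Δ + 1 := by positivity
  have hlam0 : 0 < lam := by rw [hlam]; positivity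
  have hsub : (Box (d + 1) H).filter (fun a => (x : ℝ) * L ^ (-e'') < |∑ n ∈ Icc 1 x, (MB Lam P G a n - MB (lz z) P G a n)|) ⊆
      (range (Δ + 1)).biUnion (fun c => (Box (d + 1) H).filter (fun a => lam < |∑ n ∈ J c, F a n|)) := by
    intro a ha
    rw [mem_filter] at ha
    rw [mem_biUnion]
    by_contra hcon
    push Not at hcon
    have h4 : ∀ c ∈ range (Δ + 1), |∑ n ∈ J c, F a n| ≤ lam := by
      intro c hc
      have h5 := hcon c hc
      rw [mem_filter, not_and] at h5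
      have h6 := h5 ha.1
      push Not at h6
      exact h6
    have h5 : |∑ n ∈ Icc 1 x, F a n| ≤ (x : ℝ) * L ^ (-e'') := by
      rw [hsplit]
      refine (abs_sum_le_sum_abs _ _).trans ((sum_le_sum h4).trans (le_of_eq ?_))
      rw [sum_const, card_range, nsmul_eq_mul, hlam]
      push_cast
      field_simp
    rw [hF] at h5
    exact absurd ha.2 (not_lt.2 h5)
  have hcard := (card_le_card hsub).trans card_biUnion_le
  refine (Nat.cast_le.2 hcard).trans ?_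
  push_cast
  have h6 : ∀ c ∈ range (Δ + 1), ((((Box (d + 1) H).filter (fun a => lam < |∑ n ∈ J c, F a n|)).card : ℕ) : ℝ) ≤
      (2 * H + 1) ^ (d + 1) * (L ^ (e' / 2) * ((x : ℝ) * (2 * L) ^ G.card) ^ R) / lam ^ (2 * R) := fun c _ =>
    cheb_pow (Box (d + 1) H) (fun a => ∑ n ∈ J c, F a n) _ lam (2 * R) ⟨R, by ring⟩ hlam0 (hmom c)
  refine (sum_le_sum h6).trans ?_
  rw [sum_const, card_range, nsmul_eq_mul]
  push_cast
  have e1 : ((x : ℝ) * (2 * L) ^ G.card) ^ R / lam ^ (2 * R) = ((Δ : ℝ) + 1) ^ (2 * R) * 2 ^ (G.card * R) * (L ^ (2 * R * e'') * (L ^ G.card / x) ^ R) := by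
    have e2 : lam ^ (2 * R) = ((x : ℝ) ^ 2) ^ R * (L ^ (2 * R * e''))⁻¹ / (Δ + 1) ^ (2 * R) := by
      rw [hlam, div_pow, mul_pow, ← pow_mul]
      congr 2
      rw [← Real.rpow_natCast, ← Real.rpow_mul hL0.le, ← Real.rpow_neg hL0.le]
      congr 1
      push_cast
      ring
    rw [e2, mul_pow 2 L, pow_mul 2, div_pow, mul_pow, mul_pow]
    field_simp
    ring
  have h7 : ((Δ : ℝ) + 1) * (((Δ : ℝ) + 1) ^ (2 * R) * 2 ^ (G.card * R)) ≤ L ^ (e' / 2) := by
    refine le_trans ?_ a3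
    have h8 : (2 : ℝ) ^ (G.card * R) ≤ 2 ^ (k * R) := pow_le_pow_right₀ (by norm_num) (Nat.mul_le_mul_right R hGk)
    calc ((Δ : ℝ) + 1) * (((Δ : ℝ) + 1) ^ (2 * R) * 2 ^ (G.card * R)) = ((Δ : ℝ) + 1) ^ (2 * R + 1) * 2 ^ (G.card * R) := by
          rw [pow_succ]; ring
      _ ≤ _ := by gcongr
  have e3 : L ^ (e' + 2 * R * e'') = L ^ (e' / 2) * L ^ (e' / 2) * L ^ (2 * R * e'') := by
    rw [← Real.rpow_add hL0, ← Real.rpow_add hL0]
    congr 1
    ring
  calc ((Δ : ℝ) + 1) * ((2 * H + 1) ^ (d + 1) * (L ^ (e' / 2) * ((x : ℝ) * (2 * L) ^ G.card) ^ R) / lam ^ (2 * R))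
      = (2 * H + 1) ^ (d + 1) * (((Δ : ℝ) + 1) * (L ^ (e' / 2) * (((x : ℝ) * (2 * L) ^ G.card) ^ R / lam ^ (2 * R)))) := by ring
    _ = (2 * H + 1) ^ (d + 1) * ((((Δ : ℝ) + 1) * (((Δ : ℝ) + 1) ^ (2 * R) * 2 ^ (G.card * R))) * (L ^ (e' / 2) * (L ^ (2 * R * e'') * (L ^ G.card / x) ^ R))) := by
        rw [e1]; ring
    _ ≤ (2 * H + 1) ^ (d + 1) * (L ^ (e' / 2) * (L ^ (e' / 2) * (L ^ (2 * R * e'') * (L ^ G.card / x) ^ R))) := by gcongr
    _ = _ := by rw [e3]; ring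

end Pool.Agent.T9h23.Un
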