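import Mathlib
import Pool.Agent.T9h23.Un.G4

/-! The number of the systems of inner polynomials. -/

set_option autoImplicit false

namespace Pool.Agent.T9h23.Un
open Finset Polynomial
open Pool.Agent.H373R2.T7
open Pool.Agent.T9h23.Cor
open Pool.Agent.T9h23.BH

/-- the monic polynomials with small coefficients -/
noncomputable def PF (D m : ℕ) : Finset ℤ[X] :=
  (Icc 1 D ×ˢ Fintype.piFinset (fun _ : Fin D => Icc (-(m : ℤ)) m)).image
    (fun q => X ^ q.1 + ∑ i : Fin D, C (if (i : ℕ) < q.1 then q.2 i else 0) * X ^ (i : ℕ))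

lemma mem_PF {D m : ℕ} {g : ℤ[X]} (hg : g.Monic) (h1 : 1 ≤ g.natDegree) (h2 : g.natDegree ≤ D) (hc : ∀ i, |g.coeff i| ≤ (m : ℤ)) :
    g ∈ PF D m := by
  unfold PF
  rw [mem_image]
  refine ⟨(g.natDegree, fun i => g.coeff i), ?_, ?_⟩
  · rw [mem_product, mem_Icc, Fintype.mem_piFinset]
    refine ⟨⟨h1, h2⟩, fun i => ?_⟩
    rw [mem_Icc]
    exact abs_le.1 (hc i)
  · simp only
    rw [Fin.sum_univ_eq_sum_range (fun i => C (if i < g.natDegree then g.coeff i else 0) * (X : ℤ[X]) ^ i) D]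
    have h3 : ∑ i ∈ range D, C (if i < g.natDegree then g.coeff i else 0) * (X : ℤ[X]) ^ i = ∑ i ∈ range g.natDegree, C (g.coeff i) * X ^ i := by
      rw [← sum_subset (range_subset_range.2 h2)]
      · refine sum_congr rfl fun i hi => ?_
        rw [if_pos (mem_range.1 hi)]
      · intro i _ hi
        rw [mem_range] at hi
        rw [if_neg hi, C_0, zero_mul]
    rw [h3]
    conv_rhs => rw [g.as_sum_range_C_mul_X_pow, sum_range_succ]
    rw [hg.coeff_natDegree, C_1, one_mul, add_comm]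

lemma card_PF (D m : ℕ) : (PF D m).card ≤ D * (2 * m + 1) ^ D := by
  unfold PF
  refine card_image_le.trans (le_of_eq ?_)
  rw [card_product, Nat.card_Icc, Nat.add_sub_cancel, Fintype.card_piFinset, prod_const, card_univ, Fintype.card_fin, card_Icc']

/-- the systems of at most `k` inner polynomials -/
noncomputable def FG (k D m : ℕ) : Finset (Finset ℤ[X]) := (range (k + 1)).biUnion (fun j => powersetCard j (PF D m))

lemma card_FG (k D m : ℕ) : (FG k D m).card ≤ (k + 1) * (D * (2 * m + 1) ^ D + 1) ^ k := by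
  unfold FG
  refine card_biUnion_le.trans ?_
  calc ∑ j ∈ range (k + 1), (powersetCard j (PF D m)).card ≤ ∑ _j ∈ range (k + 1), (D * (2 * m + 1) ^ D + 1) ^ k := by
        apply sum_le_sum
        intro j hj
        rw [mem_range] at hj
        rw [card_powersetCard]
        calc (PF D m).card.choose j ≤ (PF D m).card ^ j := Nat.choose_le_pow _ _
          _ ≤ (D * (2 * m + 1) ^ D + 1) ^ j := Nat.pow_le_pow_left ((card_PF D m).trans (Nat.le_succ _)) _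
          _ ≤ (D * (2 * m + 1) ^ D + 1) ^ k := Nat.pow_le_pow_right (Nat.succ_pos _) (by omega)
    _ = _ := by rw [sum_const, card_range, smul_eq_mul]

lemma mem_FG {k D : ℕ} {M : ℝ} {G : Finset ℤ[X]} (hk : G.card ≤ k) (hG : Adm D M G) : G ∈ FG k D ⌊M⌋₊ := by
  unfold FG
  rw [mem_biUnion]
  refine ⟨G.card, by rw [mem_range]; omega, ?_⟩
  rw [mem_powersetCard]
  refine ⟨fun g hg => ?_, rfl⟩
  apply mem_PF (hG.mon g hg) (hG.deg g hg).1 (hG.deg g hg).2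
  intro i
  have h1 := hG.coef g hg i
  have h2 : ((g.coeff i).natAbs : ℝ) ≤ M := by rwa [Nat.cast_natAbs, Int.cast_abs]
  have h3 := Nat.le_floor h2
  rw [Int.abs_eq_natAbs]
  exact_mod_cast h3

theorem FG_le (k D A : ℕ) (e : ℝ) (he : 0 < e) : ∃ H0 : ℕ, ∀ H : ℕ, H0 ≤ H →
    ((FG k D ⌊Real.log H ^ A⌋₊).card : ℝ) ≤ Real.log H ^ ((k : ℝ) * D * A + e) := by
  obtain ⟨n0, h0⟩ := ev_L' 1
  obtain ⟨n1, h1⟩ := ev_rpow ((k + 1) * ((D : ℝ) * 3 ^ D + 1) ^ k) e he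
  refine ⟨max n0 n1, fun H hH => ?_⟩
  have hL1 := h0 H ((le_max_left _ _).trans hH)
  have a1 := h1 H ((le_max_right _ _).trans hH)
  obtain ⟨L, hLd⟩ : ∃ L, L = Real.log H := ⟨_, rfl⟩
  rw [← hLd] at hL1 a1 ⊢
  have hL0 : 0 < L := by linarith
  obtain ⟨m, hm⟩ : ∃ m : ℕ, m = ⌊L ^ A⌋₊ := ⟨_, rfl⟩
  have hmL : (m : ℝ) ≤ L ^ A := by rw [hm]; exact Nat.floor_le (by positivity)
  rw [← hm]
  have hLA : 1 ≤ L ^ A := one_le_pow₀ hL1
  have h2 : (2 * (m : ℝ) + 1) ^ D ≤ 3 ^ D * L ^ (A * D) := by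
    calc (2 * (m : ℝ) + 1) ^ D ≤ (3 * L ^ A) ^ D := pow_le_pow_left₀ (by positivity) (by linarith) _
      _ = _ := by rw [mul_pow, ← pow_mul]
  have hLAD : 1 ≤ L ^ (A * D) := one_le_pow₀ hL1
  have h3 : (D : ℝ) * (2 * (m : ℝ) + 1) ^ D + 1 ≤ (D * 3 ^ D + 1) * L ^ (A * D) := by
    have h4 : (D : ℝ) * (2 * (m : ℝ) + 1) ^ D ≤ D * (3 ^ D * L ^ (A * D)) := by gcongr
    linarith
  have h5 : ((FG k D m).card : ℝ) ≤ (k + 1) * ((D : ℝ) * (2 * (m : ℝ) + 1) ^ D + 1) ^ k := by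
    exact_mod_cast card_FG k D m
  refine h5.trans ?_
  have e1 : L ^ ((k : ℝ) * D * A + e) = L ^ e * (L ^ (A * D)) ^ k := by
    rw [Real.rpow_add hL0, ← pow_mul, ← Real.rpow_natCast L (A * D * k), mul_comm]
    congr 2
    push_cast
    ring
  rw [e1]
  calc ((k : ℝ) + 1) * ((D : ℝ) * (2 * (m : ℝ) + 1) ^ D + 1) ^ k ≤ (k + 1) * ((D * 3 ^ D + 1) * L ^ (A * D)) ^ k := by gcongr
    _ = ((k + 1) * ((D : ℝ) * 3 ^ D + 1) ^ k) * (L ^ (A * D)) ^ k := by rw [mul_pow]; ring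
    _ ≤ _ := by gcongr

end Pool.Agent.T9h23.Un
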