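import Mathlib
import Pool.Agent.T9h23.Un.G5
import Pool.Agent.T9h23.Un.D2

/-! The formula for all systems of compositions at the same time. -/

set_option autoImplicit false

namespace Pool.Agent.T9h23.Un
open Finset Polynomial
open Pool.Agent.H373R2.T7
open Pool.Agent.T9h23.Cor
open Pool.Agent.T9h23.BH

lemma MM_MB {d : ℕ} (w : ℤ → ℝ) (P : ℤ[X]) (G : Finset ℤ[X]) (a : Fin (d + 1) → ℤ) (n : ℕ) :
    MM (dd := fun _ : Fin 1 => d) w (fun (_ : Fin 1) t => P.eval t) (fun _ => a) (TT (fun _ : Fin 1 => G) n) = MB w P G a n := by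
  unfold MM MB
  rw [Fin.prod_univ_one]
  rfl

lemma NN_one (d H : ℕ) : NN (fun _ : Fin 1 => d) H = (2 * (H : ℝ) + 1) ^ (d + 1) := by
  unfold NN
  rw [Fin.prod_univ_one]

lemma kk_one (G : Finset ℤ[X]) : kk (fun _ : Fin 1 => G) = G.card := by
  unfold kk
  rw [Fin.sum_univ_one]

theorem tame_box (d D A B Bt : ℕ) : ∃ C H0 : ℕ, ∀ H : ℕ, H0 ≤ H → ∀ P : ℤ[X],
    P.natDegree ≤ D → (∀ i, |(P.coeff i : ℝ)| ≤ H * Real.log H ^ A) →
    (open Classical in (((Box (d + 1) H).filter (fun a => ¬ Tame (dd := fun _ : Fin 1 => d) H B C (fun _ => P) (fun _ => a))).card : ℝ)) ≤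
      (2 * H + 1) ^ (d + 1) / Real.log H ^ Bt := by
  classical
  obtain ⟨C, n0, h0⟩ := tame_card 1 (fun _ : Fin 1 => d) D A B Bt
  refine ⟨C, n0, fun H hH P hP1 hP2 => ?_⟩
  have h1 := h0 H hH (fun _ => P) (fun _ => hP1) (fun _ => hP2)
  rw [NN_one] at h1
  refine le_trans (Nat.cast_le.2 ?_) h1
  apply card_le_card_of_injOn (fun (a : Fin (d + 1) → ℤ) => ((fun _ => a) : (j : Fin 1) → (Fin ((fun _ : Fin 1 => d) j + 1) → ℤ)))
  · intro a ha
    rw [mem_coe, mem_filter] at ha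
    refine mem_coe.2 (mem_filter.2 ⟨?_, ha.2⟩)
    unfold Om
    exact Fintype.mem_piFinset.2 fun j => ha.1
  · intro a _ b _ h
    exact congrFun h (0 : Fin 1)

lemma expo (k D A R d : ℕ) (ε : ℝ) (hk : 1 ≤ k) (hε : 0 < ε) (hd : (k : ℝ) * (k * D * A / ε + 1) < d) (hR : R = d / k) :
    (k : ℝ) * D * A < ε * R ∧ 1 ≤ R ∧ R * k ≤ d := by
  have hk0 : (0 : ℝ) < k := by exact_mod_cast hk
  have h1 : d < (R + 1) * k := by
    rw [hR]
    exact (Nat.div_lt_iff_lt_mul hk).1 (Nat.lt_succ_self _)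
  have h2 : (d : ℝ) < (R + 1) * k := by exact_mod_cast h1
  have h3 : (k : ℝ) * (k * D * A / ε + 1) < k * (R + 1) := by linarith
  have h4 : (k : ℝ) * D * A / ε + 1 < R + 1 := lt_of_mul_lt_mul_left h3 hk0.le
  have h5 : (k : ℝ) * D * A / ε < R := by linarith
  have h6 : (k : ℝ) * D * A < ε * R := by
    rw [div_lt_iff₀ hε] at h5
    linarith
  have h7 : (0 : ℝ) < R := lt_of_le_of_lt (by positivity) h5
  refine ⟨h6, by exact_mod_cast h7, ?_⟩
  rw [hR]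
  exact Nat.div_mul_le_self d k


theorem finU (k d D Dp A : ℕ) (ε ρ : ℝ) (hk : 1 ≤ k) (hε : 0 < ε) (hρ : 0 < ρ) (hd : (k : ℝ) * (k * D * A / ε + 1) < d) :
    ∃ c : ℝ, 0 < c ∧ ∀ A2 : ℕ, ∃ H0 : ℕ, ∀ H : ℕ, H0 ≤ H → ∀ P : ℤ[X], P.natDegree ≤ Dp →
    (∀ i, |(P.coeff i : ℝ)| ≤ H * Real.log H ^ A2) →
    (open Classical in (((Box (d + 1) H).filter (fun a => ¬ ∀ G : Finset ℤ[X], G.card ≤ k → Adm D (Real.log H ^ A) G →
      ConclU (dd := fun _ : Fin 1 => d) H A2 ε ρ (fun _ => G) (fun _ => P) (fun _ => a))).card : ℝ)) ≤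
      (2 * H + 1) ^ (d + 1) / Real.log H ^ c := by
  classical
  obtain ⟨Dm, hDm⟩ : ∃ Dm, Dm = max D Dp := ⟨_, rfl⟩
  obtain ⟨δ, hδ0, hδε, hdet⟩ := det 1 (fun _ : Fin 1 => d) Dm ε ρ hε hρ
  obtain ⟨R, hRd⟩ : ∃ R, R = d / k := ⟨_, rfl⟩
  obtain ⟨hη', hR1, hRk⟩ := expo k D A R d ε hk hε hd hRd
  have hR0 : (0 : ℝ) < R := by exact_mod_cast hR1
  obtain ⟨η, hη⟩ : ∃ η : ℝ, η = ε * R - k * D * A := ⟨_, rfl⟩
  have hη0 : 0 < η := by rw [hη]; linarith
  have hkr : (1 : ℝ) ≤ k := by exact_mod_cast hk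
  have hd2 : 2 ≤ d := by
    have h1 : (0 : ℝ) ≤ (k : ℝ) * D * A / ε := by positivity
    have h2 : (1 : ℝ) < d := by nlinarith
    exact_mod_cast h2
  have hkd : k ≤ d := le_trans (Nat.le_mul_of_pos_left k hR1) hRk
  obtain ⟨c, hc⟩ : ∃ c : ℝ, c = min (min (δ / 2) (η / 4)) (1 / 2) := ⟨_, rfl⟩
  have hc0 : 0 < c := by rw [hc]; positivity
  have hcδ : 2 * c ≤ δ := by
    have : c ≤ δ / 2 := by rw [hc]; exact (min_le_left _ _).trans (min_le_left _ _)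
    linarith
  have hcη : 2 * c ≤ η / 2 := by
    have : c ≤ η / 4 := by rw [hc]; exact (min_le_left _ _).trans (min_le_right _ _)
    linarith
  have hc1 : 2 * c ≤ 1 := by
    have : c ≤ 1 / 2 := by rw [hc]; exact min_le_right _ _
    linarith
  refine ⟨c, hc0, fun A2 => ?_⟩
  obtain ⟨s, hs⟩ : ∃ s : ℝ, s = min (δ / 8) (η / (32 * R)) := ⟨_, rfl⟩
  have hs0 : 0 < s := by rw [hs]; positivity
  have hsδ : s ≤ δ / 8 := by rw [hs]; exact min_le_left _ _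
  have hsη : 4 * R * s ≤ η / 8 := by
    have h1 : s ≤ η / (32 * R) := by rw [hs]; exact min_le_right _ _
    rw [le_div_iff₀ (by positivity)] at h1
    linarith
  obtain ⟨eg, heg⟩ : ∃ eg : ℝ, eg = min (η / 8) (1 / 2) := ⟨_, rfl⟩
  have heg0 : 0 < eg := by rw [heg]; positivity
  have hegη : eg ≤ η / 8 := by rw [heg]; exact min_le_left _ _
  have heg1 : eg ≤ 1 / 2 := by rw [heg]; exact min_le_right _ _
  obtain ⟨Ap, hAp⟩ : ∃ Ap, Ap = max A A2 := ⟨_, rfl⟩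
  obtain ⟨A', n0, hpts⟩ := pts Dm Ap (A2 + 1)
  obtain ⟨C, n1, htame⟩ := tame_box d Dm Ap A' 1
  obtain ⟨ε1, hε10, ε3, hε30, B1, n2, hB1, hdt⟩ := hdet A2 Ap A' C s hs0
  obtain ⟨E0, hglob⟩ := global_main k d D Dp A A2 (A2 + 1) R hk hR1 hRk (η / 8) (2 * s) (by positivity)
  obtain ⟨E1, hE1⟩ : ∃ E1, E1 = E0 + ⌈δ⌉₊ + 1 := ⟨_, rfl⟩
  obtain ⟨E, hE⟩ : ∃ E, E = max (E1 + 1) (A2 + 1) := ⟨_, rfl⟩
  obtain ⟨n3, hgl⟩ := hglob E
  obtain ⟨Bn, hBn⟩ : ∃ Bn, Bn = k * D * A + ⌈η⌉₊ + 2 := ⟨_, rfl⟩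
  obtain ⟨n4, hloc⟩ := local_main k d D Dp E Bn A δ (2 * s) hk hδ0 (by positivity) (by linarith)
  obtain ⟨n5, hg3⟩ := grid_len (A2 + 1) ε3 eg hε30 heg0
  obtain ⟨n6, hg1⟩ := grid_len (A2 + 1) ε1 eg hε10 heg0
  obtain ⟨n7, hFG⟩ := FG_le k D A (η / 8) (by positivity)
  obtain ⟨n8, hL8⟩ := ev_L' 3
  obtain ⟨n9, hL9⟩ := ev_rpow 2 s hs0
  obtain ⟨n10, hL10⟩ := ev_rpow (2 ^ k) ε hε
  obtain ⟨n11, hL11⟩ := ev_rpow 2 (ε - δ) (by linarith)
  obtain ⟨n12, hL12⟩ := ev_rpow 8 c hc0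
  obtain ⟨n13, hL13⟩ := ev_log' E 1
  refine ⟨max (max (max (max n0 n1) (max n2 n3)) (max (max n4 n5) (max n6 n7))) (max (max (max n8 n9) (max n10 n11)) (max n12 (max n13 4))),
    fun H hH P hP1 hP2 => ?_⟩
  have hn0 : n0 ≤ H := ((((le_max_left _ _).trans (le_max_left _ _)).trans (le_max_left _ _)).trans (le_max_left _ _)).trans hH
  have hn1 : n1 ≤ H := ((((le_max_right _ _).trans (le_max_left _ _)).trans (le_max_left _ _)).trans (le_max_left _ _)).trans hH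
  have hn2 : n2 ≤ H := ((((le_max_left _ _).trans (le_max_right _ _)).trans (le_max_left _ _)).trans (le_max_left _ _)).trans hH
  have hn3 : n3 ≤ H := ((((le_max_right _ _).trans (le_max_right _ _)).trans (le_max_left _ _)).trans (le_max_left _ _)).trans hH
  have hn4 : n4 ≤ H := ((((le_max_left _ _).trans (le_max_left _ _)).trans (le_max_right _ _)).trans (le_max_left _ _)).trans hH
  have hn5 : n5 ≤ H := ((((le_max_right _ _).trans (le_max_left _ _)).trans (le_max_right _ _)).trans (le_max_left _ _)).trans hH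
  have hn6 : n6 ≤ H := ((((le_max_left _ _).trans (le_max_right _ _)).trans (le_max_right _ _)).trans (le_max_left _ _)).trans hH
  have hn7 : n7 ≤ H := ((((le_max_right _ _).trans (le_max_right _ _)).trans (le_max_right _ _)).trans (le_max_left _ _)).trans hH
  have hn8 : n8 ≤ H := ((((le_max_left _ _).trans (le_max_left _ _)).trans (le_max_left _ _)).trans (le_max_right _ _)).trans hH
  have hn9 : n9 ≤ H := ((((le_max_right _ _).trans (le_max_left _ _)).trans (le_max_left _ _)).trans (le_max_right _ _)).trans hH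
  have hn10 : n10 ≤ H := ((((le_max_left _ _).trans (le_max_right _ _)).trans (le_max_left _ _)).trans (le_max_right _ _)).trans hH
  have hn11 : n11 ≤ H := ((((le_max_right _ _).trans (le_max_right _ _)).trans (le_max_left _ _)).trans (le_max_right _ _)).trans hH
  have hn12 : n12 ≤ H := (((le_max_left _ _).trans (le_max_right _ _)).trans (le_max_right _ _)).trans hH
  have hn13 : n13 ≤ H := ((((le_max_left _ _).trans (le_max_right _ _)).trans (le_max_right _ _)).trans (le_max_right _ _)).trans hH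
  have hH4 : 4 ≤ H := ((((le_max_right _ _).trans (le_max_right _ _)).trans (le_max_right _ _)).trans (le_max_right _ _)).trans hH
  have hHr : (4 : ℝ) ≤ H := by exact_mod_cast hH4
  have hL3 := hL8 H hn8
  have a9 := hL9 H hn9
  have a10 := hL10 H hn10
  have a11 := hL11 H hn11
  have a12 := hL12 H hn12
  have a13 := hL13 H hn13
  have aFG := hFG H hn7
  obtain ⟨M3, hM3a, hM3b⟩ := hg3 H hn5
  obtain ⟨M1, hM1a, hM1b⟩ := hg1 H hn6
  obtain ⟨T0, hT0, hT⟩ := hpts H hn0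
  have hP3 : ∀ i, |(P.coeff i : ℝ)| ≤ H * Real.log H ^ Ap := fun i => (hP2 i).trans (by
    have h1 : Real.log H ^ A2 ≤ Real.log H ^ Ap := pow_le_pow_right₀ (by linarith) (by rw [hAp]; exact le_max_right _ _)
    gcongr)
  have htm := htame H hn1 P (by rw [hDm]; exact hP1.trans (le_max_right _ _)) hP3
  rw [pow_one] at htm
  have hdt' := hdt H hn2
  have hgl' := hgl H hn3
  have hloc' := hloc H hn4
  obtain ⟨L, hLd⟩ : ∃ L, L = Real.log H := ⟨_, rfl⟩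
  have hsm : ∀ G : Finset ℤ[X], Adm D (L ^ A) G → Small H Ap Dm (fun _ : Fin 1 => P) (fun _ => G) := by
    intro G hG
    rw [hAp]
    exact Small_of (by rw [← hLd]; exact hG) hP1 hP2 (by rw [hDm]; exact le_max_right _ _) (by linarith)
  rw [← hLd] at hL3 a9 a10 a11 a12 a13 aFG hM3a hM3b hM1a hM1b hT0 htm hdt' hgl' hloc' hP2 ⊢
  have hL0 : 0 < L := by linarith
  have hL1 : 1 ≤ L := by linarith
  have hL2 : 2 ≤ L := by linarith
  -- the levels
  obtain ⟨y, hyd⟩ : ∃ y : ℕ, y = ⌈L ^ δ⌉₊ := ⟨_, rfl⟩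
  have hLδ : 1 ≤ L ^ δ := Real.one_le_rpow hL1 hδ0.le
  have hya : L ^ δ ≤ y := by rw [hyd]; exact Nat.le_ceil _
  have hyb : (y : ℝ) ≤ 2 * L ^ δ := by
    have h1 : (y : ℝ) ≤ L ^ δ + 1 := by rw [hyd]; exact (Nat.ceil_lt_add_one (by positivity)).le
    linarith
  have hyε : (y : ℝ) ≤ L ^ ε := by
    calc (y : ℝ) ≤ 2 * L ^ δ := hyb
      _ ≤ L ^ (ε - δ) * L ^ δ := by gcongr
      _ = L ^ ε := by rw [← Real.rpow_add hL0]; congr 1; ring
  have hyr : (1 : ℝ) ≤ y := hLδ.trans hya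
  have hy1 : 1 ≤ y := by exact_mod_cast hyr
  have hy0 : (0 : ℝ) < y := by linarith
  obtain ⟨Z, hZd⟩ : ∃ Z : ℕ, Z = ⌈L ^ E1⌉₊ := ⟨_, rfl⟩
  have hZa : L ^ E1 ≤ Z := by rw [hZd]; exact Nat.le_ceil _
  have hZ0 : L ^ E0 ≤ Z := (pow_le_pow_right₀ hL1 (by omega)).trans hZa
  have hLE1 : 1 ≤ L ^ E1 := one_le_pow₀ hL1
  have hZE : (Z : ℝ) ≤ L ^ E := by
    have h1 : (Z : ℝ) ≤ L ^ E1 + 1 := by rw [hZd]; exact (Nat.ceil_lt_add_one (by positivity)).le
    calc (Z : ℝ) ≤ 2 * L ^ E1 := by linarith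
      _ ≤ L * L ^ E1 := by gcongr
      _ = L ^ (E1 + 1) := by rw [pow_succ]; ring
      _ ≤ L ^ E := pow_le_pow_right₀ hL1 (by rw [hE]; exact le_max_left _ _)
  have hyZ : y ≤ Z := by
    have h1 : (y : ℝ) ≤ Z := by
      have h2 : L ^ δ ≤ L ^ ⌈δ⌉₊ := by
        rw [← Real.rpow_natCast]
        exact Real.rpow_le_rpow_of_exponent_le hL1 (Nat.le_ceil _)
      calc (y : ℝ) ≤ 2 * L ^ δ := hyb
        _ ≤ L * L ^ ⌈δ⌉₊ := by gcongr
        _ = L ^ (⌈δ⌉₊ + 1) := by rw [pow_succ]; ring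
        _ ≤ L ^ E1 := pow_le_pow_right₀ hL1 (by omega)
        _ ≤ Z := hZa
    exact_mod_cast h1
  obtain ⟨Zm, hZmd⟩ : ∃ Zm : ℕ, Zm = ⌊L ^ E⌋₊ := ⟨_, rfl⟩
  have hZZm : Z ≤ Zm := by rw [hZmd]; exact Nat.le_floor hZE
  have hZmH : Zm ≤ 2 * H + 1 := by
    have h1 : (Zm : ℝ) ≤ L ^ E := by rw [hZmd]; exact Nat.floor_le (by positivity)
    have h2 : √(H : ℝ) < H := aux6 hHr
    have h3 : (Zm : ℝ) ≤ H := by linarith
    have h4 : Zm ≤ H := by exact_mod_cast h3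
    omega
  obtain ⟨x1, hx1⟩ : ∃ x1 : ℕ, x1 = ⌊L ^ B1⌋₊ := ⟨_, rfl⟩
  have hyx1 : y ≤ x1 := by
    rw [hx1]
    apply Nat.le_floor
    calc (y : ℝ) ≤ 2 * L ^ δ := hyb
      _ ≤ L * L ^ δ := by gcongr
      _ = L ^ (δ + 1) := by rw [Real.rpow_add hL0, Real.rpow_one]; ring
      _ ≤ L ^ (B1 : ℝ) := Real.rpow_le_rpow_of_exponent_le hL1 (by linarith)
      _ = L ^ B1 := Real.rpow_natCast _ _
  have h2s : L ^ (-(2 * s)) ≤ L ^ (-s) := Real.rpow_le_rpow_of_exponent_le hL1 (by linarith)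
  have h2s' : 2 * L ^ (-(2 * s)) ≤ L ^ (-s) := by
    calc 2 * L ^ (-(2 * s)) ≤ L ^ s * L ^ (-(2 * s)) := by gcongr
      _ = L ^ (-s) := by rw [← Real.rpow_add hL0]; congr 1; ring
  -- the bad sets
  obtain ⟨GG, hGG⟩ : ∃ GG, GG = (FG k D ⌊L ^ A⌋₊).filter (fun G => G.card ≤ k ∧ Adm D (L ^ A) G) := ⟨_, rfl⟩
  have hGGm : ∀ G ∈ GG, G.card ≤ k ∧ Adm D (L ^ A) G := by
    intro G hG
    rw [hGG, mem_filter] at hG
    exact hG.2
  obtain ⟨x0, hx0⟩ : ∃ x0 : Finset ℤ[X] → ℝ, x0 = fun G => L ^ (((kk (fun _ : Fin 1 => G) : ℕ) : ℝ) + ε) := ⟨_, rfl⟩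
  have hx0' : ∀ G, x0 G = L ^ ((G.card : ℝ) + ε) := by
    intro G
    rw [hx0]
    simp only
    rw [kk_one]
  obtain ⟨I3, hI3⟩ : ∃ I3, I3 = (range (M3 + 1)).filter (fun i => (gp y ε3 i : ℝ) ≤ L ^ (A2 + 1)) := ⟨_, rfl⟩
  obtain ⟨I1, hI1⟩ : ∃ I1 : Finset ℤ[X] → Finset ℕ, I1 = fun G => (range (M1 + 1)).filter (fun i => (gp (x0 G) ε1 i : ℝ) ≤ L ^ (A2 + 1)) := ⟨_, rfl⟩
  obtain ⟨b3, hb3⟩ : ∃ b3 : Finset ℤ[X] → ℕ → Finset (Fin (d + 1) → ℤ), b3 = fun G i => (Box (d + 1) H).filter (fun a => GB1 P y Zm a ∧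
    (x1 : ℝ) * L ^ (-(2 * s)) < |∑ n ∈ Icc 1 x1, (MB (lz (gp y ε3 i)) P G a n - MB (lz y) P G a n)|) := ⟨_, rfl⟩
  obtain ⟨b4, hb4⟩ : ∃ b4 : Finset ℤ[X] → ℕ → Finset (Fin (d + 1) → ℤ), b4 = fun G i => (Box (d + 1) H).filter (fun a => GB1 P y Zm a ∧
    (gp (x0 G) ε1 i : ℝ) * L ^ (-(2 * s)) < |∑ n ∈ Icc 1 (gp (x0 G) ε1 i), (MB (lz Z) P G a n - MB (lz y) P G a n)|) := ⟨_, rfl⟩
  obtain ⟨b5, hb5⟩ : ∃ b5 : Finset ℤ[X] → ℕ → Finset (Fin (d + 1) → ℤ), b5 = fun G i => (Box (d + 1) H).filter (fun a =>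
    (gp (x0 G) ε1 i : ℝ) * L ^ (-(2 * s)) < |∑ n ∈ Icc 1 (gp (x0 G) ε1 i), (MB Lam P G a n - MB (lz Z) P G a n)|) := ⟨_, rfl⟩
  have hsub : (Box (d + 1) H).filter (fun a => ¬ ∀ G : Finset ℤ[X], G.card ≤ k → Adm D (L ^ A) G →
      ConclU (dd := fun _ : Fin 1 => d) H A2 ε ρ (fun _ => G) (fun _ => P) (fun _ => a)) ⊆
      ((((Box (d + 1) H).filter (fun a => ¬ Tame (dd := fun _ : Fin 1 => d) H A' C (fun _ => P) (fun _ => a)) ∪
        (Box (d + 1) H).filter (fun a => ¬ GB1 P y Zm a)) ∪ GG.biUnion (fun G => I3.biUnion (b3 G))) ∪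
        GG.biUnion (fun G => (I1 G).biUnion (b4 G))) ∪ GG.biUnion (fun G => (I1 G).biUnion (b5 G)) := by
    intro a ha
    rw [mem_filter] at ha
    by_contra hcon
    rw [mem_union, mem_union, mem_union, mem_union, not_or, not_or, not_or, not_or, mem_filter, mem_filter] at hcon
    obtain ⟨⟨⟨⟨hc1, hc2⟩, hc3⟩, hc4⟩, hc5⟩ := hcon
    have htm' : Tame (dd := fun _ : Fin 1 => d) H A' C (fun _ => P) (fun _ => a) := by
      by_contra h
      exact hc1 ⟨ha.1, h⟩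
    have hgb : GB1 P y Zm a := by
      by_contra h
      exact hc2 ⟨ha.1, h⟩
    apply ha.2
    intro G hGk hG
    have hGin : G ∈ GG := by
      rw [hGG, mem_filter]
      exact ⟨mem_FG hGk hG, hGk, hG⟩
    have hGOK : GOK (fun _ : Fin 1 => d) Dm (fun _ => G) := GOK_of hG hGk hkd (by rw [hDm]; exact le_max_left _ _)
    obtain ⟨hPv, hpt⟩ := hT 1 (fun _ => d) (fun _ => P) (fun _ => G) hGOK (hsm G hG)
    rw [← hLd] at hPv hpt
    have hx01 : 1 ≤ x0 G := by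
      rw [hx0']
      exact Real.one_le_rpow hL1 (by positivity)
    apply hdt' y hya hyb T0 (fun _ => P) (fun _ => G) hGOK (hsm G hG) hT0 hPv hpt (fun _ => a) (by
      unfold Om
      exact Fintype.mem_piFinset.2 fun j => ha.1) htm'
    · intro i hi
      simp only [MM_MB]
      rw [← hx1]
      have hiM : i ≤ M3 := by
        apply hM3b
        have h1 : (y : ℝ) * (1 + ε3) ^ i ≤ gp y ε3 i := Nat.le_ceil _
        have h2 : 1 ≤ (1 + ε3) ^ i := one_le_pow₀ (by linarith)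
        nlinarith
      have hiI : i ∈ I3 := by
        rw [hI3, mem_filter, mem_range]
        exact ⟨by omega, hi⟩
      have h1 : a ∉ b3 G i := fun h => hc3 (mem_biUnion.2 ⟨G, hGin, mem_biUnion.2 ⟨i, hiI, h⟩⟩)
      rw [hb3] at h1
      simp only [mem_filter, not_and] at h1
      have h2 := h1 ha.1 hgb
      push Not at h2
      refine h2.trans ?_
      gcongr
    · intro i hi
      have e0 : L ^ (((kk (fun _ : Fin 1 => G) : ℕ) : ℝ) + ε) = x0 G := by rw [hx0]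
      rw [e0] at hi ⊢
      simp only [MM_MB]
      have hiM : i ≤ M1 := by
        apply hM1b
        have h1 : (x0 G : ℝ) * (1 + ε1) ^ i ≤ gp (x0 G) ε1 i := Nat.le_ceil _
        have h2 : 1 ≤ (1 + ε1) ^ i := one_le_pow₀ (by linarith)
        nlinarith
      have hiI : i ∈ I1 G := by
        rw [hI1]
        simp only [mem_filter, mem_range]
        exact ⟨by omega, hi⟩
      have h1 : a ∉ b4 G i := fun h => hc4 (mem_biUnion.2 ⟨G, hGin, mem_biUnion.2 ⟨i, hiI, h⟩⟩)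
      rw [hb4] at h1
      simp only [mem_filter, not_and] at h1
      have h2 := h1 ha.1 hgb
      push Not at h2
      have h3 : a ∉ b5 G i := fun h => hc5 (mem_biUnion.2 ⟨G, hGin, mem_biUnion.2 ⟨i, hiI, h⟩⟩)
      rw [hb5] at h3
      simp only [mem_filter, not_and] at h3
      have h4 := h3 ha.1
      push Not at h4
      obtain ⟨X, hX⟩ : ∃ X, X = gp (x0 G) ε1 i := ⟨_, rfl⟩
      rw [← hX] at h2 h4 ⊢
      simp only [sum_sub_distrib] at h2 h4 ⊢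
      have hXX : (X : ℝ) * (2 * L ^ (-(2 * s))) ≤ X * L ^ (-s) := by gcongr
      refine (abs_sub_le _ _ _).trans ((add_le_add h4 h2).trans ?_)
      linarith
  -- the count
  obtain ⟨N, hNd⟩ : ∃ N : ℝ, N = (2 * (H : ℝ) + 1) ^ (d + 1) := ⟨_, rfl⟩
  have hN : 0 < N := by rw [hNd]; positivity
  have hk2 := GB1_card (d := d) hd2 H y Zm hy1 hZmH P
  rw [← hNd] at htm hk2 ⊢
  have hgpy : ∀ i, y ≤ gp y ε3 i := by
    intro i
    have h8 : (y : ℝ) ≤ gp y ε3 i := by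
      refine le_trans ?_ (Nat.le_ceil _)
      have : 1 ≤ (1 + ε3) ^ i := one_le_pow₀ (by linarith)
      nlinarith
    exact_mod_cast h8
  have hk3 : ∀ G ∈ GG, ∀ i ∈ I3, ((b3 G i).card : ℝ) ≤ N / L ^ Bn := by
    intro G hG i hi
    rw [hI3, mem_filter] at hi
    have h1 : (gp y ε3 i : ℝ) ≤ L ^ E := hi.2.trans (pow_le_pow_right₀ hL1 (by rw [hE]; exact le_max_right _ _))
    rw [hb3, hNd]
    exact hloc' y (gp y ε3 i) Zm hya (hgpy i) (by rw [hZmd]; exact Nat.le_floor h1) h1 P hP1 G (hGGm G hG).1 (hGGm G hG).2 x1 hyx1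
  have hgpx : ∀ G i, x0 G ≤ gp (x0 G) ε1 i := by
    intro G i
    refine le_trans ?_ (Nat.le_ceil _)
    refine aux4 ?_ (one_le_pow₀ (by linarith))
    rw [hx0']
    positivity
  have hx0ε : ∀ G, L ^ ε ≤ x0 G := by
    intro G
    rw [hx0']
    exact Real.rpow_le_rpow_of_exponent_le hL1 (by linarith [Nat.cast_nonneg (α := ℝ) G.card])
  have hk4 : ∀ G ∈ GG, ∀ i ∈ I1 G, ((b4 G i).card : ℝ) ≤ N / L ^ Bn := by
    intro G hG i hi
    rw [hb4, hNd]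
    refine hloc' y Z Zm hya hyZ hZZm hZE P hP1 G (hGGm G hG).1 (hGGm G hG).2 (gp (x0 G) ε1 i) ?_
    have h1 : (y : ℝ) ≤ gp (x0 G) ε1 i := (hyε.trans (hx0ε G)).trans (hgpx G i)
    exact_mod_cast h1
  have hk5 : ∀ G ∈ GG, ∀ i ∈ I1 G, ((b5 G i).card : ℝ) ≤ N * L ^ (η / 8 + 4 * R * s - ε * R) := by
    intro G hG i hi
    have hi2 : (gp (x0 G) ε1 i : ℝ) ≤ L ^ (A2 + 1) := by
      rw [hI1] at hi
      simp only [mem_filter] at hi
      exact hi.2
    have hX1 := hgpx G i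
    rw [hb5, hNd]
    obtain ⟨X, hX⟩ : ∃ X, X = gp (x0 G) ε1 i := ⟨_, rfl⟩
    simp only
    rw [← hX] at hi2 hX1 ⊢
    have e1 : x0 G = L ^ G.card * L ^ ε := by rw [hx0', Real.rpow_add hL0, Real.rpow_natCast]
    have hX0 : (0 : ℝ) < X := lt_of_lt_of_le (by rw [e1]; positivity) hX1
    have h1 : (2 * L) ^ G.card ≤ X := by
      refine le_trans ?_ hX1
      rw [e1, mul_pow, mul_comm]
      apply mul_le_mul_of_nonneg_left _ (by positivity)
      exact (pow_le_pow_right₀ (by norm_num) (hGGm G hG).1).trans a10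
    refine (hgl' Z hZ0 hZE P hP1 hP2 G (hGGm G hG).1 (hGGm G hG).2 X h1 hi2).trans ?_
    rw [← hNd]
    apply mul_le_mul_of_nonneg_left _ hN.le
    have h2 : L ^ G.card / X ≤ L ^ (-ε) := by
      rw [div_le_iff₀ hX0]
      calc L ^ G.card = L ^ (-ε) * (L ^ G.card * L ^ ε) := by
            rw [Real.rpow_neg hL0.le]
            field_simp
        _ ≤ L ^ (-ε) * X := by rw [← e1]; gcongr
    calc L ^ (η / 8 + 2 * (R : ℝ) * (2 * s)) * (L ^ G.card / X) ^ R ≤ L ^ (η / 8 + 2 * (R : ℝ) * (2 * s)) * (L ^ (-ε)) ^ R := by gcongr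
      _ = L ^ (η / 8 + 4 * R * s - ε * R) := by
          rw [← Real.rpow_natCast (L ^ (-ε)), ← Real.rpow_mul hL0.le, ← Real.rpow_add hL0]
          congr 1
          ring
  have hGGc : (GG.card : ℝ) ≤ L ^ ((k : ℝ) * D * A + η / 8) := by
    refine le_trans ?_ aFG
    rw [hGG]
    exact_mod_cast card_filter_le _ _
  have hI3c : (I3.card : ℝ) ≤ L ^ eg := by
    have h1 : I3.card ≤ M3 + 1 := by
      rw [hI3]
      refine (card_filter_le _ _).trans (le_of_eq (card_range _))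
    have h2 : (I3.card : ℝ) ≤ M3 + 1 := by exact_mod_cast h1
    linarith
  have hI1c : ∀ G, ((I1 G).card : ℝ) ≤ L ^ eg := by
    intro G
    have h1 : (I1 G).card ≤ M1 + 1 := by
      rw [hI1]
      refine (card_filter_le _ _).trans (le_of_eq (card_range _))
    have h2 : ((I1 G).card : ℝ) ≤ M1 + 1 := by exact_mod_cast h1
    linarith
  have hun : ∀ (I : Finset ℤ[X] → Finset ℕ) (b : Finset ℤ[X] → ℕ → Finset (Fin (d + 1) → ℤ)) (β : ℝ), 0 ≤ β →
      (∀ G, ((I G).card : ℝ) ≤ L ^ eg) → (∀ G ∈ GG, ∀ i ∈ I G, ((b G i).card : ℝ) ≤ β) →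
      ((GG.biUnion (fun G => (I G).biUnion (b G))).card : ℝ) ≤ L ^ ((k : ℝ) * D * A + η / 8) * (L ^ eg * β) := by
    intro I b β hβ hI hb
    have h1 : ((GG.biUnion (fun G => (I G).biUnion (b G))).card : ℝ) ≤ ∑ G ∈ GG, (((I G).biUnion (b G)).card : ℝ) := by
      exact_mod_cast card_biUnion_le
    refine h1.trans ?_
    have h2 : ∀ G ∈ GG, (((I G).biUnion (b G)).card : ℝ) ≤ L ^ eg * β := by
      intro G hG
      have h3 : (((I G).biUnion (b G)).card : ℝ) ≤ ∑ i ∈ I G, ((b G i).card : ℝ) := by exact_mod_cast card_biUnion_le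
      refine h3.trans ((sum_le_sum fun i hi => hb G hG i hi).trans ?_)
      rw [sum_const, nsmul_eq_mul]
      exact mul_le_mul_of_nonneg_right (hI G) hβ
    refine (sum_le_sum h2).trans ?_
    rw [sum_const, nsmul_eq_mul]
    exact mul_le_mul_of_nonneg_right hGGc (by positivity)
  have t1 : N / L ≤ N * L ^ (-(2 * c)) := by
    rw [div_eq_mul_inv]
    apply mul_le_mul_of_nonneg_left _ hN.le
    rw [← Real.rpow_neg_one]
    exact Real.rpow_le_rpow_of_exponent_le hL1 (by linarith)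
  have t2 : N * (4 / y) ≤ N * (4 * L ^ (-(2 * c))) := by
    apply mul_le_mul_of_nonneg_left _ hN.le
    have h1 : (y : ℝ)⁻¹ ≤ L ^ (-(2 * c)) := by
      calc (y : ℝ)⁻¹ ≤ (L ^ δ)⁻¹ := inv_anti₀ (by positivity) hya
        _ = L ^ (-δ) := (Real.rpow_neg hL0.le _).symm
        _ ≤ _ := Real.rpow_le_rpow_of_exponent_le hL1 (by linarith)
    rw [div_eq_mul_inv]
    gcongr
  have hceil := Nat.le_ceil η
  have t3 : L ^ ((k : ℝ) * D * A + η / 8) * (L ^ eg * (N / L ^ Bn)) ≤ N * L ^ (-(2 * c)) := by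
    have e1 : (N / L ^ Bn) = N * L ^ (-(Bn : ℝ)) := by
      rw [Real.rpow_neg hL0.le, Real.rpow_natCast, div_eq_mul_inv]
    rw [e1]
    calc L ^ ((k : ℝ) * D * A + η / 8) * (L ^ eg * (N * L ^ (-(Bn : ℝ)))) = N * (L ^ ((k : ℝ) * D * A + η / 8) * L ^ eg * L ^ (-(Bn : ℝ))) := by ring
      _ = N * L ^ ((k : ℝ) * D * A + η / 8 + eg + -(Bn : ℝ)) := by rw [← Real.rpow_add hL0, ← Real.rpow_add hL0]
      _ ≤ N * L ^ (-(2 * c)) := by
          apply mul_le_mul_of_nonneg_left _ hN.le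
          apply Real.rpow_le_rpow_of_exponent_le hL1
          rw [hBn]
          push_cast
          linarith
  have t5 : L ^ ((k : ℝ) * D * A + η / 8) * (L ^ eg * (N * L ^ (η / 8 + 4 * R * s - ε * R))) ≤ N * L ^ (-(2 * c)) := by
    calc L ^ ((k : ℝ) * D * A + η / 8) * (L ^ eg * (N * L ^ (η / 8 + 4 * R * s - ε * R)))
        = N * (L ^ ((k : ℝ) * D * A + η / 8) * L ^ eg * L ^ (η / 8 + 4 * R * s - ε * R)) := by ring
      _ = N * L ^ ((k : ℝ) * D * A + η / 8 + eg + (η / 8 + 4 * R * s - ε * R)) := by rw [← Real.rpow_add hL0, ← Real.rpow_add hL0]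
      _ ≤ N * L ^ (-(2 * c)) := by
          apply mul_le_mul_of_nonneg_left _ hN.le
          apply Real.rpow_le_rpow_of_exponent_le hL1
          linarith
  have k3 := (hun (fun _ => I3) b3 (N / L ^ Bn) (by positivity) (fun _ => hI3c) hk3).trans t3
  have k4 := (hun I1 b4 (N / L ^ Bn) (by positivity) hI1c hk4).trans t3
  have k5 := (hun I1 b5 _ (by positivity) hI1c hk5).trans t5
  have hcard := card_le_card hsub
  have hcard2 := hcard.trans ((card_union_le _ _).trans (add_le_add ((card_union_le _ _).trans (add_le_add ((card_union_le _ _).trans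
    (add_le_add (card_union_le _ _) le_rfl)) le_rfl)) le_rfl))
  refine le_trans (Nat.cast_le.2 hcard2) ?_
  push_cast
  have e8 : N / L ^ c = N * L ^ (-c) := by rw [Real.rpow_neg hL0.le, div_eq_mul_inv]
  rw [e8]
  have t6 : N * (8 * L ^ (-(2 * c))) ≤ N * L ^ (-c) := by
    apply mul_le_mul_of_nonneg_left _ hN.le
    calc 8 * L ^ (-(2 * c)) ≤ L ^ c * L ^ (-(2 * c)) := by gcongr
      _ = L ^ (-c) := by rw [← Real.rpow_add hL0]; congr 1; ring
  linarith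

end Pool.Agent.T9h23.Un
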